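import Pool.Agent.Work.MP_1c7b0d_lh73.Interface

set_option autoImplicit false

/-! ALD: the constants of two tangents (helper64). -/

namespace Pool.LH73

open Pool.LH60

namespace ALD

lemma uniq {m p p' : ℝ} (hm : 0 < m) (hT : Tang m p) (hT' : Tang m p') : |p' - p| ≤ 0 := by
  refine le_of_forall_pos_le_add fun ε hε => ?_
  rw [zero_add]
  set u : ℝ := m + 12 * m ^ 3 * ε with hu
  have hum : 0 < u - m := by
    rw [hu]
    have : 0 < 12 * m ^ 3 * ε := by positivity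
    linarith
  have hu0 : 0 < u := by linarith
  obtain ⟨h1, h2⟩ := hT.2.2 u hu0
  obtain ⟨h3, h4⟩ := hT'.2.2 u hu0
  have h5 : (u - m) ^ 2 / (12 * u * m ^ 2) ≤ (u - m) * ε := by
    rw [div_le_iff₀ (by positivity)]
    have h6 : u - m = 12 * m ^ 3 * ε := by rw [hu]; ring
    have h7 : m ^ 3 ≤ u * m ^ 2 := by nlinarith [sq_nonneg m]
    calc (u - m) ^ 2 = (u - m) * (12 * m ^ 3 * ε) := by rw [sq]; nth_rewrite 2 [h6]; rfl
      _ = (u - m) * (12 * ε) * m ^ 3 := by ring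
      _ ≤ (u - m) * (12 * ε) * (u * m ^ 2) := mul_le_mul_of_nonneg_left h7 (by positivity)
      _ = (u - m) * ε * (12 * u * m ^ 2) := by ring
  have h8 : (p' - p) * (u - m) ≤ ε * (u - m) := by nlinarith
  have h9 : -(p' - p) * (u - m) ≤ ε * (u - m) := by nlinarith
  rw [abs_le]
  constructor
  · have := le_of_mul_le_mul_right h9 hum
    linarith
  · exact le_of_mul_le_mul_right h8 hum

lemma slope {m m' p p' : ℝ} (hm : 0 < m) (hm' : 0 < m') (hT : Tang m p) (hT' : Tang m' p') :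
    |p' - p| ≤ |m' - m| * (1 / (12 * m' * m ^ 2) + 1 / (12 * m * m' ^ 2)) := by
  by_cases h : m' = m
  · subst h
    rw [sub_self, abs_zero, zero_mul]
    exact uniq hm hT hT'
  have hne : 0 < |m' - m| := abs_pos.2 (sub_ne_zero.2 h)
  obtain ⟨h1, h2⟩ := hT.2.2 m' hm'
  obtain ⟨h3, h4⟩ := hT'.2.2 m hm
  have h5 : |p' - p| * |m' - m| ≤
      |m' - m| * (1 / (12 * m' * m ^ 2) + 1 / (12 * m * m' ^ 2)) * |m' - m| := by
    rw [← abs_mul, abs_of_nonneg (by linarith : 0 ≤ (p' - p) * (m' - m))]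
    have h6 : |m' - m| * (1 / (12 * m' * m ^ 2) + 1 / (12 * m * m' ^ 2)) * |m' - m| =
        (m' - m) ^ 2 / (12 * m' * m ^ 2) + (m - m') ^ 2 / (12 * m * m' ^ 2) := by
      rw [mul_right_comm, abs_mul_abs_self]
      ring
    rw [h6]
    linarith
  exact le_of_mul_le_mul_right h5 hne

end ALD

theorem ALD_thm : Stmt_ALD := by
  intro m m' p p' hm hm' hT hT'
  obtain ⟨h1, h2⟩ := hT.2.2 m' hm'
  have h3 := ALD.slope hm hm' hT hT'
  have h4 : al m' p' - al m p = (mu m' - mu m - p * (m' - m)) + -(m' * (p' - p)) := by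
    unfold al
    ring
  have h5 : m' * |p' - p| ≤ |m' - m| / (12 * m) * (1 / m' + 1 / m) := by
    calc m' * |p' - p| ≤ m' * (|m' - m| * (1 / (12 * m' * m ^ 2) + 1 / (12 * m * m' ^ 2))) :=
          mul_le_mul_of_nonneg_left h3 hm'.le
      _ = |m' - m| / (12 * m) * (1 / m' + 1 / m) := by
          field_simp
          ring
  rw [h4]
  refine le_trans (abs_add_le _ _) ?_
  rw [abs_of_nonneg h1, abs_neg, abs_mul, abs_of_pos hm']
  linarith

end Pool.LH73
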