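import Pool.Agent.Work.MP_1c7b0d_lh73.Interface

/-!
Block CLU1 (blueprint of `MP_1c7b0d_lh73`): the dichotomy `m p_ij ≥ 0.97` or `|m p_ij| ≤ 1/4`.
-/

open MeasureTheory Matrix Pool.LH60
open scoped BigOperators

namespace Pool.LH73

section
set_option linter.unusedSectionVars false
variable {ι : Type} [Fintype ι] [DecidableEq ι] {K : ℕ}

theorem pp_comm25 (Φ : Matrix ι (Fin K) ℝ) (i j : ι) : pp Φ i j = pp Φ j i := by
  unfold pp
  exact Finset.sum_congr rfl fun k _ => mul_comm _ _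

theorem pp_self25 (Φ : Matrix ι (Fin K) ℝ) (i : ι) : pp Φ i i = cn Φ i := by
  unfold pp cn
  exact Finset.sum_congr rfl fun k _ => by ring

/-- Cauchy-Schwarz for the rows -/
theorem pp_sq_le25 (Φ : Matrix ι (Fin K) ℝ) (i j : ι) :
    (pp Φ i j)^2 ≤ cn Φ i * cn Φ j := by
  unfold pp cn
  exact Finset.sum_mul_sq_le_sq_mul_sq _ _ _

/-- Cauchy-Schwarz for differences of the rows -/
theorem pp_diff_sq_le25 (Φ : Matrix ι (Fin K) ℝ) (i j k : ι) :
    (pp Φ k j - pp Φ k i)^2 ≤ cn Φ k * ∑ l, (Φ i l - Φ j l)^2 := by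
  have h : pp Φ k j - pp Φ k i = ∑ l, Φ k l * (Φ j l - Φ i l) := by
    unfold pp
    rw [← Finset.sum_sub_distrib]
    exact Finset.sum_congr rfl fun l _ => by ring
  have h2 : ∑ l, (Φ i l - Φ j l)^2 = ∑ l, (Φ j l - Φ i l)^2 :=
    Finset.sum_congr rfl fun l _ => by ring
  rw [h, h2]
  unfold cn
  exact Finset.sum_mul_sq_le_sq_mul_sq _ _ _

/-- triangle inequality with weights -/
theorem tri_a25 (Φ : Matrix ι (Fin K) ℝ) (i j k : ι) :
    3/4 * ∑ l, (Φ k l - Φ i l)^2 - 3 * ∑ l, (Φ i l - Φ j l)^2 ≤ ∑ l, (Φ k l - Φ j l)^2 := by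
  rw [Finset.mul_sum, Finset.mul_sum, ← Finset.sum_sub_distrib]
  refine Finset.sum_le_sum fun l _ => ?_
  nlinarith [sq_nonneg ((Φ k l - Φ j l) - 3 * (Φ j l - Φ i l))]

theorem tri_b25 (Φ : Matrix ι (Fin K) ℝ) (i j k : ι) :
    ∑ l, (Φ i l - Φ k l)^2 ≤ 2 * (∑ l, (Φ i l - Φ j l)^2 + ∑ l, (Φ j l - Φ k l)^2) := by
  rw [← Finset.sum_add_distrib, Finset.mul_sum]
  refine Finset.sum_le_sum fun l _ => ?_
  nlinarith [sq_nonneg ((Φ i l - Φ j l) - (Φ j l - Φ k l))]

/-- one row of a symmetric nonnegative double sum with zero diagonal -/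
theorem row_le25 (w : ι → ι → ℝ) (h0 : ∀ i j, 0 ≤ w i j) (hs : ∀ i j, w i j = w j i)
    (hd : ∀ i, w i i = 0) (i : ι) : 2 * ∑ j, w i j ≤ ∑ i', ∑ j, w i' j := by
  have h : ∀ i', w i' i + (if i' = i then ∑ j, w i j else 0) ≤ ∑ j, w i' j := by
    intro i'
    by_cases e : i' = i
    · subst e
      simp [hd]
    · simp only [e, if_false, add_zero]
      exact Finset.single_le_sum (f := fun j => w i' j) (fun j _ => h0 i' j) (Finset.mem_univ i)
  have h2 := Finset.sum_le_sum (s := (Finset.univ : Finset ι)) fun i' _ => h i'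
  rw [Finset.sum_add_distrib, Finset.sum_ite_eq' Finset.univ i] at h2
  simp only [Finset.mem_univ, if_true] at h2
  have h3 : ∑ i', w i' i = ∑ j, w i j := Finset.sum_congr rfl fun j _ => hs j i
  rw [h3] at h2
  linarith

end

theorem CLU1_thm (hDEF1 : Stmt_DEF1) : Stmt_CLU1 := by
  intro ι _ _ K Φ m hH i k
  obtain ⟨_, hΦ, hm, hmK, hc, hD⟩ := hH
  obtain ⟨h1, h2, h3, h4, h5, h6⟩ := hDEF1 ι K Φ hΦ
  have hm0 : (0:ℝ) < m := by linarith
  -- the row sums
  have hrow : ∀ i, ∑ j, (m * pp Φ i j)^2 * (m * (cn Φ i + cn Φ j - 2 * pp Φ i j)) ≤ m / 4000 := by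
    intro i
    have hr := row_le25 (fun i j => (pp Φ i j)^2 * (cn Φ i + cn Φ j - 2 * pp Φ i j))
      (fun i j => mul_nonneg (sq_nonneg _) (by rw [h4]; exact Finset.sum_nonneg fun _ _ => sq_nonneg _))
      (fun i j => by rw [pp_comm25 Φ j i]; ring)
      (fun i => by rw [pp_self25]; ring) i
    have e : ∑ j, (m * pp Φ i j)^2 * (m * (cn Φ i + cn Φ j - 2 * pp Φ i j)) =
        m^3 * ∑ j, (pp Φ i j)^2 * (cn Φ i + cn Φ j - 2 * pp Φ i j) := by
      rw [Finset.mul_sum]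
      exact Finset.sum_congr rfl fun j _ => by ring
    rw [e]
    have hr2 : ∑ j, (pp Φ i j)^2 * (cn Φ i + cn Φ j - 2 * pp Φ i j) ≤ Dfc Φ := by
      rw [h5]; linarith
    calc m^3 * ∑ j, (pp Φ i j)^2 * (cn Φ i + cn Φ j - 2 * pp Φ i j) ≤ m^3 * Dfc Φ :=
          mul_le_mul_of_nonneg_left hr2 (by positivity)
      _ = m * (m^2 * Dfc Φ) := by ring
      _ ≤ m * (1/4000) := mul_le_mul_of_nonneg_left hD hm0.le
      _ = m / 4000 := by ring
  have hci : ∀ i, 99/100 ≤ m * cn Φ i ∧ m * cn Φ i ≤ 101/100 := by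
    intro i
    have := abs_le.mp (hc i)
    constructor <;> linarith [this.1, this.2]
  have hq2 : ∀ i j, (m * pp Φ i j)^2 ≤ 10201/10000 := by
    intro i j
    have h := pp_sq_le25 Φ i j
    have e : (m * pp Φ i j)^2 = m^2 * (pp Φ i j)^2 := by ring
    have h' : (m * pp Φ i j)^2 ≤ (m * cn Φ i) * (m * cn Φ j) := by
      rw [e]
      calc m^2 * (pp Φ i j)^2 ≤ m^2 * (cn Φ i * cn Φ j) :=
            mul_le_mul_of_nonneg_left h (by positivity)
        _ = _ := by ring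
    have h'' : (m * cn Φ i) * (m * cn Φ j) ≤ (101/100) * (101/100) :=
      mul_le_mul (hci i).2 (hci j).2 (by linarith [(hci j).1]) (by norm_num)
    linarith
  by_contra hcon
  push Not at hcon
  obtain ⟨hcon1, hcon2⟩ := hcon
  -- the distance is large
  have hx : 1/25 ≤ m * ∑ l, (Φ k l - Φ i l)^2 := by
    have e := h4 k i
    rw [pp_comm25 Φ k i] at e
    rw [← e]
    have := (hci i).1
    have := (hci k).1
    nlinarith
  have hpt : ∀ j, 87/100000 * ((m * pp Φ i j)^2 * (1 - 400 *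
      (m * (cn Φ i + cn Φ j - 2 * pp Φ i j)))) ≤
      (m * pp Φ k j)^2 * (m * (cn Φ k + cn Φ j - 2 * pp Φ k j)) := by
    intro j
    rw [h4 i j, h4 k j]
    have hX : 0 ≤ m * ∑ l, (Φ i l - Φ j l)^2 :=
      mul_nonneg hm0.le (Finset.sum_nonneg fun _ _ => sq_nonneg _)
    have hXk : 0 ≤ m * ∑ l, (Φ k l - Φ j l)^2 :=
      mul_nonneg hm0.le (Finset.sum_nonneg fun _ _ => sq_nonneg _)
    by_cases hG : m * ∑ l, (Φ i l - Φ j l)^2 ≤ 1/400
    · -- good
      have hd := pp_diff_sq_le25 Φ i j k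
      have hd' : (m * pp Φ k j - m * pp Φ k i)^2 ≤ 101/100 * (1/400) := by
        calc (m * pp Φ k j - m * pp Φ k i)^2 = m^2 * (pp Φ k j - pp Φ k i)^2 := by ring
          _ ≤ m^2 * (cn Φ k * ∑ l, (Φ i l - Φ j l)^2) :=
              mul_le_mul_of_nonneg_left hd (by positivity)
          _ = (m * cn Φ k) * (m * ∑ l, (Φ i l - Φ j l)^2) := by ring
          _ ≤ 101/100 * (1/400) := mul_le_mul (hci k).2 hG hX (by norm_num)
      have hqk : 1/4 < |m * pp Φ k i| := by rw [pp_comm25]; exact hcon2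
      have habs : |m * pp Φ k j - m * pp Φ k i| ≤ 503/10000 := by
        apply abs_le_of_sq_le_sq _ (by norm_num)
        refine hd'.trans (by norm_num)
      have hqj : 1996/10000 ≤ |m * pp Φ k j| := by
        have := abs_sub_abs_le_abs_sub (m * pp Φ k i) (m * pp Φ k j)
        rw [abs_sub_comm] at this
        linarith
      have hqj2 : 398/10000 ≤ (m * pp Φ k j)^2 := by
        rw [← sq_abs (m * pp Φ k j)]
        nlinarith
      have hxk : 225/10000 ≤ m * ∑ l, (Φ k l - Φ j l)^2 := by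
        have ht := tri_a25 Φ i j k
        have := mul_le_mul_of_nonneg_left ht hm0.le
        nlinarith
      have hb : 398/10000 * (225/10000) ≤ (m * pp Φ k j)^2 * (m * ∑ l, (Φ k l - Φ j l)^2) :=
        mul_le_mul hqj2 hxk (by norm_num) (sq_nonneg _)
      have hA : (m * pp Φ i j)^2 * (1 - 400 * (m * ∑ l, (Φ i l - Φ j l)^2)) ≤ 10201/10000 * 1 :=
        mul_le_mul (hq2 i j) (by linarith) (by linarith) (by norm_num)
      calc 87/100000 * ((m * pp Φ i j)^2 * (1 - 400 * (m * ∑ l, (Φ i l - Φ j l)^2)))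
          ≤ 87/100000 * (10201/10000 * 1) := mul_le_mul_of_nonneg_left hA (by norm_num)
        _ ≤ 398/10000 * (225/10000) := by norm_num
        _ ≤ _ := hb
    · push Not at hG
      have hneg : (m * pp Φ i j)^2 * (1 - 400 * (m * ∑ l, (Φ i l - Φ j l)^2)) ≤ 0 :=
        mul_nonpos_of_nonneg_of_nonpos (sq_nonneg _) (by linarith)
      have hpos : 0 ≤ (m * pp Φ k j)^2 * (m * ∑ l, (Φ k l - Φ j l)^2) :=
        mul_nonneg (sq_nonneg _) hXk
      linarith
  have hsum := Finset.sum_le_sum (s := (Finset.univ : Finset ι)) fun j _ => hpt j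
  have e1 : ∑ j, 87/100000 * ((m * pp Φ i j)^2 * (1 - 400 *
      (m * (cn Φ i + cn Φ j - 2 * pp Φ i j)))) =
      87/100000 * (∑ j, (m * pp Φ i j)^2 - 400 * ∑ j, (m * pp Φ i j)^2 *
        (m * (cn Φ i + cn Φ j - 2 * pp Φ i j))) := by
    rw [Finset.mul_sum (a := (400:ℝ)), ← Finset.sum_sub_distrib, Finset.mul_sum]
    exact Finset.sum_congr rfl fun j _ => by ring
  have e2 : ∑ j, (m * pp Φ i j)^2 = m * (m * cn Φ i) := by
    rw [← h1 i, Finset.mul_sum, Finset.mul_sum]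
    exact Finset.sum_congr rfl fun j _ => by ring
  rw [e1, e2] at hsum
  have hk := hrow k
  have hi := hrow i
  have hmc := mul_le_mul_of_nonneg_left (hci i).1 hm0.le
  nlinarith

end Pool.LH73
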