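import Pool.Agent.Work.MP_1c7b0d_lh73.CLU1

/-!
Block CLU2 (blueprint of `MP_1c7b0d_lh73`): the classes.
-/

open MeasureTheory Matrix Pool.LH60
open scoped BigOperators

namespace Pool.LH73

theorem CLU2_thm (hCLU1 : Stmt_CLU1) (hDEF1 : Stmt_DEF1) : Stmt_CLU2 := by
  intro ι _ _ K Φ m hH
  have hdic := hCLU1 ι K Φ m hH
  obtain ⟨_, hΦ, hm, hmK, hc, hD⟩ := hH
  obtain ⟨h1, h2, h3, h4, h5, h6⟩ := hDEF1 ι K Φ hΦ
  have hm0 : (0:ℝ) < m := by linarith
  have hci : ∀ i, 99/100 ≤ m * cn Φ i ∧ m * cn Φ i ≤ 101/100 := by
    intro i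
    have := abs_le.mp (hc i)
    constructor <;> linarith [this.1, this.2]
  have hx : ∀ i j, m * ∑ l, (Φ i l - Φ j l)^2 = m * cn Φ i + m * cn Φ j - 2 * (m * pp Φ i j) := by
    intro i j
    rw [← h4 i j]; ring
  let s : Setoid ι :=
    { r := fun i j => 97/100 ≤ m * pp Φ i j
      iseqv :=
        { refl := fun i => by
            rw [pp_self25]
            linarith [(hci i).1]
          symm := fun {i j} h => by
            rw [pp_comm25]; exact h
          trans := fun {i j k} hij hjk => by
            have ht := mul_le_mul_of_nonneg_left (tri_b25 Φ i j k) hm0.le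
            have e : m * (2 * (∑ l, (Φ i l - Φ j l)^2 + ∑ l, (Φ j l - Φ k l)^2)) =
              2 * (m * ∑ l, (Φ i l - Φ j l)^2 + m * ∑ l, (Φ j l - Φ k l)^2) := by ring
            rw [e, hx i k, hx i j, hx j k] at ht
            rcases hdic i k with h | h
            · exact h
            · exfalso
              have := (abs_le.mp h).2
              have a1 := hci i
              have a2 := hci j
              have a3 := hci k
              linarith [a1.1, a1.2, a2.1, a2.2, a3.1, a3.2] } }
  classical
  let e := Fintype.equivFin (Quotient s)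
  have hiff : ∀ i j, e (Quotient.mk s i) = e (Quotient.mk s j) ↔ 97/100 ≤ m * pp Φ i j := by
    intro i j
    rw [e.injective.eq_iff]
    exact Quotient.eq (r := s)
  refine ⟨Fintype.card (Quotient s), fun i => e (Quotient.mk s i), ?_, ?_⟩
  · exact e.surjective.comp Quotient.mk_surjective
  · intro i j
    refine ⟨fun h => (hiff i j).mp h, fun h => ?_⟩
    rcases hdic i j with h' | h'
    · exact absurd ((hiff i j).mpr h') h
    · exact h'

end Pool.LH73
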