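import Pool.Agent.Work.MP_1c7b0d_lh73.Interface

set_option autoImplicit false

/-!
Block CLU3 (helper96): sizes of the clusters, cross pairs and scatter.
-/

open Matrix Pool.LH60
open scoped BigOperators

namespace Pool.LH73

namespace CLU3

/-- variance identity -/
lemma variance {ι : Type} (s : Finset ι) (f : ι → ℝ) (hs : s.Nonempty) :
    ∑ i ∈ s, ∑ j ∈ s, (f i - f j) ^ 2
      = 2 * (s.card : ℝ) * ∑ i ∈ s, (f i - (∑ j ∈ s, f j) / (s.card : ℝ)) ^ 2 := by
  have hc : (s.card : ℝ) ≠ 0 := by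
    exact_mod_cast hs.card_pos.ne'
  obtain ⟨A, hA⟩ : ∃ A, A = ∑ i ∈ s, f i := ⟨_, rfl⟩
  obtain ⟨B, hB⟩ : ∃ B, B = ∑ i ∈ s, f i ^ 2 := ⟨_, rfl⟩
  have h1 : ∑ i ∈ s, ∑ j ∈ s, (f i - f j) ^ 2 = 2 * (s.card : ℝ) * B - 2 * A ^ 2 := by
    have h2 : ∀ i ∈ s, ∑ j ∈ s, (f i - f j) ^ 2 = (s.card : ℝ) * f i ^ 2 - 2 * f i * A + B := by
      intro i _
      have h3 : ∀ j ∈ s, (f i - f j) ^ 2 = f i ^ 2 - 2 * f i * f j + f j ^ 2 := by
        intro j _; ring
      rw [Finset.sum_congr rfl h3, Finset.sum_add_distrib, Finset.sum_sub_distrib,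
        Finset.sum_const, ← Finset.mul_sum, hA, hB, nsmul_eq_mul]
    rw [Finset.sum_congr rfl h2, Finset.sum_add_distrib, Finset.sum_sub_distrib,
      Finset.sum_const, ← Finset.mul_sum, ← hB, nsmul_eq_mul]
    have h4 : ∑ i ∈ s, 2 * f i * A = 2 * A * A := by
      rw [← Finset.sum_mul, ← Finset.mul_sum, ← hA]
    rw [h4]; ring
  have h5 : ∑ i ∈ s, (f i - A / (s.card : ℝ)) ^ 2 = B - A ^ 2 / (s.card : ℝ) := by
    have h3 : ∀ i ∈ s, (f i - A / (s.card : ℝ)) ^ 2
        = f i ^ 2 - 2 * (A / (s.card : ℝ)) * f i + (A / (s.card : ℝ)) ^ 2 := by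
      intro j _; ring
    rw [Finset.sum_congr rfl h3, Finset.sum_add_distrib, Finset.sum_sub_distrib,
      Finset.sum_const, ← Finset.mul_sum, ← hA, ← hB, nsmul_eq_mul]
    field_simp
    ring
  rw [h1, ← hA, h5]
  field_simp

end CLU3

theorem CLU3_thm (hDEF : Stmt_DEF1) : Stmt_CLU3 := by
  classical
  intro ι _ _ K L Φ m a hH hC
  obtain ⟨hK, hΦ, hm, hmK, hcm, hmD⟩ := hH
  obtain ⟨hsurj, hcl⟩ := hC
  obtain ⟨d1, d2, d3, d4, d5, d6⟩ := hDEF ι K Φ hΦ
  obtain ⟨D, hD⟩ : ∃ D, D = Dfc Φ := ⟨_, rfl⟩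
  rw [← hD] at hmD d5 d6 ⊢
  have hm0 : 0 < m := by linarith
  -- names
  obtain ⟨p, hp⟩ : ∃ p : ι → ι → ℝ, p = fun i j => pp Φ i j := ⟨_, rfl⟩
  obtain ⟨c, hc⟩ : ∃ c : ι → ℝ, c = fun i => cn Φ i := ⟨_, rfl⟩
  have hpsymm : ∀ i j, pp Φ i j = pp Φ j i := by
    intro i j
    unfold pp
    exact Finset.sum_congr rfl (fun k _ => mul_comm _ _)
  have hcb : ∀ i, 99 / 100 / m ≤ cn Φ i ∧ cn Φ i ≤ 101 / 100 / m := by
    intro i
    have := abs_le.1 (hcm i)
    constructor
    · rw [div_le_iff₀ hm0]; linarith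
    · rw [le_div_iff₀ hm0]; linarith
  -- the distances
  have hdist : ∀ i j, 0 ≤ cn Φ i + cn Φ j - 2 * pp Φ i j := by
    intro i j
    rw [d4]
    exact Finset.sum_nonneg (fun k _ => sq_nonneg _)
  have hcross : ∀ i j, a i ≠ a j → 148 / 100 / m ≤ cn Φ i + cn Φ j - 2 * pp Φ i j := by
    intro i j hij
    have h1 := abs_le.1 ((hcl i j).2 hij)
    have h2 : pp Φ i j ≤ 1 / 4 / m := by
      rw [le_div_iff₀ hm0]; linarith
    have h3 := (hcb i).1
    have h4 := (hcb j).1
    have h5 : 99 / 100 / m + 99 / 100 / m - 2 * (1 / 4 / m) = 148 / 100 / m := by ring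
    linarith
  have hin : ∀ i j, a i = a j → 97 / 100 / m ≤ pp Φ i j ∧ pp Φ i j ≤ 101 / 100 / m := by
    intro i j hij
    constructor
    · rw [div_le_iff₀ hm0]
      have := (hcl i j).1 hij
      linarith
    · have := hdist i j
      have h3 := (hcb i).2
      have h4 := (hcb j).2
      linarith
  -- the cross sum
  have h2D : 2 * D = ∑ i, ∑ j, (pp Φ i j) ^ 2 * (cn Φ i + cn Φ j - 2 * pp Φ i j) := by
    rw [d5]; ring
  have hcs : (∑ i, ∑ j, if a i = a j then 0 else (pp Φ i j) ^ 2) ≤ 7 / 5 * m * D := by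
    have h1 : (∑ i, ∑ j, if a i = a j then 0 else (pp Φ i j) ^ 2) * (148 / 100 / m) ≤ 2 * D := by
      rw [h2D, Finset.sum_mul]
      apply Finset.sum_le_sum
      intro i _
      rw [Finset.sum_mul]
      apply Finset.sum_le_sum
      intro j _
      split_ifs with hij
      · rw [zero_mul]
        exact mul_nonneg (sq_nonneg _) (hdist i j)
      · exact mul_le_mul_of_nonneg_left (hcross i j hij) (sq_nonneg _)
    have h2 : (∑ i, ∑ j, if a i = a j then 0 else (pp Φ i j) ^ 2) * (148 / 100) ≤ 2 * D * m := by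
      rw [mul_div_assoc', div_le_iff₀ hm0] at h1
      exact h1
    have h3 : 0 ≤ D * m := mul_nonneg d6 hm0.le
    linarith
  -- the outside sum for one `i`
  have hout : ∀ i, (∑ j, if a i = a j then 0 else (pp Φ i j) ^ 2) ≤ m * D / (148 / 100) := by
    intro i
    have h1 : (∑ j, if a i = a j then 0 else (pp Φ i j) ^ 2) * (148 / 100 / m) ≤ D := by
      have h2 : ∑ j, (pp Φ i j) ^ 2 * (cn Φ i + cn Φ j - 2 * pp Φ i j) ≤ D := by
        have h3 : 2 * ∑ j, (pp Φ i j) ^ 2 * (cn Φ i + cn Φ j - 2 * pp Φ i j) ≤ 2 * D := by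
          rw [h2D]
          -- the pairs (i, j) and (j, i)
          have h4 : ∑ i', ∑ j, (pp Φ i' j) ^ 2 * (cn Φ i' + cn Φ j - 2 * pp Φ i' j)
              = ∑ j, (pp Φ i j) ^ 2 * (cn Φ i + cn Φ j - 2 * pp Φ i j)
                + ∑ i' ∈ Finset.univ.erase i, ∑ j,
                  (pp Φ i' j) ^ 2 * (cn Φ i' + cn Φ j - 2 * pp Φ i' j) := by
            exact (Finset.add_sum_erase Finset.univ
              (fun i' => ∑ j, (pp Φ i' j) ^ 2 * (cn Φ i' + cn Φ j - 2 * pp Φ i' j))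
              (Finset.mem_univ i)).symm
          rw [h4, two_mul]
          apply add_le_add_right
          have h5 : ∑ j, (pp Φ i j) ^ 2 * (cn Φ i + cn Φ j - 2 * pp Φ i j)
              = ∑ j ∈ Finset.univ.erase i,
                (pp Φ i j) ^ 2 * (cn Φ i + cn Φ j - 2 * pp Φ i j) := by
            rw [← Finset.add_sum_erase _ _ (Finset.mem_univ i)]
            have : cn Φ i + cn Φ i - 2 * pp Φ i i = 0 := by
              rw [d4]; simp
            rw [this, mul_zero, zero_add]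
          rw [h5]
          apply Finset.sum_le_sum
          intro i' _
          have h6 : (pp Φ i i') ^ 2 * (cn Φ i + cn Φ i' - 2 * pp Φ i i')
              = (pp Φ i' i) ^ 2 * (cn Φ i' + cn Φ i - 2 * pp Φ i' i) := by
            rw [hpsymm i i']; ring
          rw [h6]
          exact Finset.single_le_sum
            (f := fun j => (pp Φ i' j) ^ 2 * (cn Φ i' + cn Φ j - 2 * pp Φ i' j))
            (fun j _ => mul_nonneg (sq_nonneg _) (hdist i' j)) (Finset.mem_univ i)
        linarith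
      refine le_trans ?_ h2
      rw [Finset.sum_mul]
      apply Finset.sum_le_sum
      intro j _
      split_ifs with hij
      · rw [zero_mul]
        exact mul_nonneg (sq_nonneg _) (hdist i j)
      · exact mul_le_mul_of_nonneg_left (hcross i j hij) (sq_nonneg _)
    rw [mul_div_assoc', div_le_iff₀ hm0] at h1
    rw [le_div_iff₀ (by norm_num)]
    linarith
  -- the sum inside the class
  have hinside : ∀ i, ∑ j ∈ fib a (a i), (pp Φ i j) ^ 2
      = cn Φ i - ∑ j, if a i = a j then 0 else (pp Φ i j) ^ 2 := by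
    intro i
    rw [← d1 i, fib, Finset.sum_filter, ← Finset.sum_sub_distrib]
    apply Finset.sum_congr rfl
    intro j _
    by_cases h : a i = a j
    · rw [if_pos h.symm, if_pos h, sub_zero]
    · rw [if_neg (fun h' => h h'.symm), if_neg h, sub_self]
  have hsize : ∀ b, 97 / 100 * m ≤ msz a b ∧ (msz a b : ℝ) ≤ 108 / 100 * m := by
    intro b
    obtain ⟨i, rfl⟩ := hsurj b
    have h1 := hinside i
    have h2 := hout i
    have h0 : 0 ≤ ∑ j, if a i = a j then 0 else (pp Φ i j) ^ 2 :=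
      Finset.sum_nonneg (fun j _ => by split_ifs <;> positivity)
    obtain ⟨h3, h4⟩ := hcb i
    constructor
    · have h5 : ∑ j ∈ fib a (a i), (pp Φ i j) ^ 2 ≤ (msz a (a i) : ℝ) * (101 / 100 / m) ^ 2 := by
        rw [msz, ← nsmul_eq_mul]
        apply Finset.sum_le_card_nsmul
        intro j hj
        have hj' : a j = a i := by simpa [fib] using hj
        obtain ⟨h6, h7⟩ := hin i j hj'.symm
        exact pow_le_pow_left₀ (le_trans (by positivity) h6) h7 2
      have h8 : m * (m * D / (148 / 100)) ≤ 1 / 5920 := by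
        have : m * (m * D / (148 / 100)) = (m ^ 2 * D) / (148 / 100) := by ring
        rw [this, div_le_iff₀ (by norm_num)]
        linarith
      have h9 : 99 / 100 - 1 / 5920 ≤ m * ∑ j ∈ fib a (a i), (pp Φ i j) ^ 2 := by
        rw [h1, mul_sub]
        have h10 : 99 / 100 ≤ m * cn Φ i := by
          rw [div_le_iff₀ hm0] at h3; linarith
        have h11 := mul_le_mul_of_nonneg_left h2 hm0.le
        linarith
      have h12 : m * ((msz a (a i) : ℝ) * (101 / 100 / m) ^ 2)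
          = (msz a (a i) : ℝ) * (101 / 100) ^ 2 / m := by
        field_simp
      have h13 := mul_le_mul_of_nonneg_left h5 hm0.le
      rw [h12, le_div_iff₀ hm0] at h13
      have h14 : (99 / 100 - 1 / 5920) * m ≤ (msz a (a i) : ℝ) * (101 / 100) ^ 2 :=
        le_trans (mul_le_mul_of_nonneg_right h9 hm0.le) h13
      norm_num at h14
      linarith
    · have h5 : (msz a (a i) : ℝ) * (97 / 100 / m) ^ 2 ≤ ∑ j ∈ fib a (a i), (pp Φ i j) ^ 2 := by
        rw [msz, ← nsmul_eq_mul]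
        apply Finset.card_nsmul_le_sum
        intro j hj
        have hj' : a j = a i := by simpa [fib] using hj
        obtain ⟨h6, h7⟩ := hin i j hj'.symm
        exact pow_le_pow_left₀ (by positivity) h6 2
      have h6 : (msz a (a i) : ℝ) * (97 / 100 / m) ^ 2 ≤ 101 / 100 / m := by
        rw [h1] at h5; linarith
      have h7 : (msz a (a i) : ℝ) * (97 / 100) ^ 2 ≤ 101 / 100 * m := by
        have h8 := mul_le_mul_of_nonneg_left h6 (by positivity : 0 ≤ m ^ 2)
        have h9 : m ^ 2 * ((msz a (a i) : ℝ) * (97 / 100 / m) ^ 2)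
            = (msz a (a i) : ℝ) * (97 / 100) ^ 2 := by
          field_simp
        have h10 : m ^ 2 * (101 / 100 / m) = 101 / 100 * m := by
          field_simp
        rw [h9, h10] at h8
        exact h8
      norm_num at h7
      linarith
  refine ⟨hsize, hcs, ?_⟩
  -- the scatter
  have hne : ∀ b, (fib a b).Nonempty := by
    intro b
    obtain ⟨i, rfl⟩ := hsurj b
    exact ⟨i, by simp [fib]⟩
  have hEps : Eps Φ a = ∑ b, ∑ i ∈ fib a b, ∑ k, (Φ i k - vbar Φ a b k) ^ 2 := by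
    unfold Eps fib
    rw [← Finset.sum_fiberwise Finset.univ a]
    apply Finset.sum_congr rfl
    intro b _
    apply Finset.sum_congr rfl
    intro i hi
    rw [(Finset.mem_filter.1 hi).2]
  have hvar : ∀ b, ∑ i ∈ fib a b, ∑ j ∈ fib a b, ∑ k, (Φ i k - Φ j k) ^ 2
      = 2 * (msz a b : ℝ) * ∑ i ∈ fib a b, ∑ k, (Φ i k - vbar Φ a b k) ^ 2 := by
    intro b
    have h1' : ∑ i ∈ fib a b, ∑ j ∈ fib a b, ∑ k, (Φ i k - Φ j k) ^ 2
        = ∑ k, ∑ i ∈ fib a b, ∑ j ∈ fib a b, (Φ i k - Φ j k) ^ 2 := by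
      calc ∑ i ∈ fib a b, ∑ j ∈ fib a b, ∑ k, (Φ i k - Φ j k) ^ 2
          = ∑ i ∈ fib a b, ∑ k, ∑ j ∈ fib a b, (Φ i k - Φ j k) ^ 2 :=
            Finset.sum_congr rfl (fun i _ => Finset.sum_comm)
        _ = _ := Finset.sum_comm
    rw [h1', Finset.sum_comm (s := fib a b) (t := Finset.univ), Finset.mul_sum]
    apply Finset.sum_congr rfl
    intro k _
    exact CLU3.variance (fib a b) (fun i => Φ i k) (hne b)
  have hD1 : (97 / 100 / m) ^ 2 * ∑ b, 2 * (msz a b : ℝ) *
      ∑ i ∈ fib a b, ∑ k, (Φ i k - vbar Φ a b k) ^ 2 ≤ 2 * D := by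
    rw [h2D, ← Finset.sum_fiberwise Finset.univ a, Finset.mul_sum]
    apply Finset.sum_le_sum
    intro b _
    rw [← hvar b, Finset.mul_sum]
    unfold fib
    apply Finset.sum_le_sum
    intro i hi
    have hib := (Finset.mem_filter.1 hi).2
    rw [Finset.mul_sum]
    refine le_trans ?_ (Finset.sum_le_sum_of_subset_of_nonneg
      (Finset.filter_subset (fun j => a j = b) Finset.univ) (fun j _ _ =>
        mul_nonneg (sq_nonneg _) (hdist i j)))
    apply Finset.sum_le_sum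
    intro j hj
    have hjb := (Finset.mem_filter.1 hj).2
    rw [← d4 i j]
    apply mul_le_mul_of_nonneg_right _ (hdist i j)
    exact pow_le_pow_left₀ (by positivity) (hin i j (hib.trans hjb.symm)).1 2
  have hD2 : 2 * (97 / 100 * m) * Eps Φ a ≤ ∑ b, 2 * (msz a b : ℝ) *
      ∑ i ∈ fib a b, ∑ k, (Φ i k - vbar Φ a b k) ^ 2 := by
    rw [hEps, Finset.mul_sum]
    apply Finset.sum_le_sum
    intro b _
    apply mul_le_mul_of_nonneg_right _
      (Finset.sum_nonneg fun i _ => Finset.sum_nonneg fun k _ => sq_nonneg _)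
    linarith [(hsize b).1]
  have hD3 := (mul_le_mul_of_nonneg_left hD2 (by positivity : 0 ≤ (97 / 100 / m) ^ 2)).trans hD1
  have h15 : (97 / 100 / m) ^ 2 * (2 * (97 / 100 * m) * Eps Φ a)
      = 2 * (97 / 100) ^ 3 * Eps Φ a / m := by
    field_simp
  rw [h15, div_le_iff₀ hm0] at hD3
  have h16 : 0 ≤ D * m := mul_nonneg d6 hm0.le
  norm_num at hD3
  linarith

end Pool.LH73
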