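import Pool.Agent.Work.MP_1c7b0d_lh73.Interface

set_option autoImplicit false

open MeasureTheory Matrix Pool.LH60
open scoped BigOperators

namespace Pool.LH73

namespace CLU4

variable {ι : Type} [Fintype ι] [DecidableEq ι] {K L : ℕ}

/-- `∑_i ⟨φ_i, v⟩² = |v|²` -/
theorem sum_sq_frame (Φ : Matrix ι (Fin K) ℝ) (hΦ : Φᵀ * Φ = 1) (v : Fin K → ℝ) :
    ∑ i, (∑ k, Φ i k * v k) ^ 2 = ∑ k, v k ^ 2 := by
  have h1 : (Φ *ᵥ v) ⬝ᵥ (Φ *ᵥ v) = v ⬝ᵥ v := by
    rw [Matrix.dotProduct_mulVec, Matrix.vecMul_mulVec, hΦ, Matrix.vecMul_one]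
  simp only [dotProduct, Matrix.mulVec] at h1
  rw [← Finset.sum_congr rfl (fun k _ => (pow_two (v k)).symm), ← h1]
  exact Finset.sum_congr rfl (fun i _ => pow_two _)

/-- `C_b ≤ 1 + scat_b` -/
theorem Cc_le (Φ : Matrix ι (Fin K) ℝ) (hΦ : Φᵀ * Φ = 1) (a : ι → Fin L) (b : Fin L)
    (hb : 0 < msz a b) :
    Cc Φ a b ≤ 1 + ∑ i ∈ fib a b, ∑ k, (Φ i k - vbar Φ a b k) ^ 2 := by
  have hM : (0:ℝ) < (msz a b : ℝ) := by exact_mod_cast hb
  have hs : ∀ k, ∑ i ∈ fib a b, Φ i k = (msz a b : ℝ) * vbar Φ a b k := by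
    intro k
    unfold vbar
    field_simp
  have hcard : ((fib a b).card : ℝ) = (msz a b : ℝ) := rfl
  set v : Fin K → ℝ := fun k => vbar Φ a b k with hv
  have hw : ∑ i ∈ fib a b, ∑ k, Φ i k * v k = (msz a b : ℝ) * ∑ k, v k ^ 2 := by
    rw [Finset.sum_comm, Finset.mul_sum]
    refine Finset.sum_congr rfl (fun k _ => ?_)
    rw [← Finset.sum_mul, hs k]
    simp only [hv]
    ring
  have hN : 0 ≤ ∑ k, v k ^ 2 := Finset.sum_nonneg (fun k _ => sq_nonneg _)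
  have hcs : (∑ i ∈ fib a b, ∑ k, Φ i k * v k) ^ 2
      ≤ (msz a b : ℝ) * ∑ i ∈ fib a b, (∑ k, Φ i k * v k) ^ 2 := by
    have h := sq_sum_le_card_mul_sum_sq (s := fib a b) (f := fun i => ∑ k, Φ i k * v k)
    rwa [hcard] at h
  have hsub : ∑ i ∈ fib a b, (∑ k, Φ i k * v k) ^ 2 ≤ ∑ k, v k ^ 2 := by
    rw [← sum_sq_frame Φ hΦ v]
    exact Finset.sum_le_sum_of_subset_of_nonneg (Finset.subset_univ _)
      (fun i _ _ => sq_nonneg _)
  have ht : ((msz a b : ℝ) * ∑ k, v k ^ 2) ^ 2 ≤ (msz a b : ℝ) * ∑ k, v k ^ 2 := by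
    rw [hw] at hcs
    exact hcs.trans (mul_le_mul_of_nonneg_left hsub hM.le)
  have ht1 : (msz a b : ℝ) * ∑ k, v k ^ 2 ≤ 1 := by
    by_contra hlt
    push Not at hlt
    nlinarith
  have hexp : ∑ i ∈ fib a b, ∑ k, (Φ i k - v k) ^ 2
      = Cc Φ a b - (msz a b : ℝ) * ∑ k, v k ^ 2 := by
    have h1 : ∀ i ∈ fib a b, ∑ k, (Φ i k - v k) ^ 2
        = cn Φ i - 2 * (∑ k, Φ i k * v k) + ∑ k, v k ^ 2 := by
      intro i _
      unfold cn
      rw [Finset.mul_sum, ← Finset.sum_sub_distrib, ← Finset.sum_add_distrib]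
      exact Finset.sum_congr rfl (fun k _ => by ring)
    rw [Finset.sum_congr rfl h1, Finset.sum_add_distrib, Finset.sum_sub_distrib, ← Finset.mul_sum,
      hw, Finset.sum_const, nsmul_eq_mul, hcard]
    unfold Cc
    ring
  have hexp' : ∑ i ∈ fib a b, ∑ k, (Φ i k - vbar Φ a b k) ^ 2
      = Cc Φ a b - (msz a b : ℝ) * ∑ k, v k ^ 2 := hexp
  rw [hexp']
  linarith

/-- `∑_b ∑_{i in class b} F i = ∑_i F i` -/
theorem sum_fib (a : ι → Fin L) (F : ι → ℝ) : ∑ b, ∑ i ∈ fib a b, F i = ∑ i, F i :=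
  Finset.sum_fiberwise Finset.univ a F

theorem mem_fib {a : ι → Fin L} {b : Fin L} {i : ι} : i ∈ fib a b ↔ a i = b := by
  simp [fib]

/-- `C_b ≥ 1 - 2 out_b` -/
theorem Cc_ge (Φ : Matrix ι (Fin K) ℝ) (a : ι → Fin L) (b : Fin L)
    (hc : ∀ i, ∑ j, (pp Φ i j) ^ 2 = cn Φ i) (hC : 96/100 ≤ Cc Φ a b) :
    1 - 2 * (∑ i ∈ fib a b, ∑ j, if a i = a j then 0 else (pp Φ i j) ^ 2) ≤ Cc Φ a b := by
  set o : ℝ := ∑ i ∈ fib a b, ∑ j, if a i = a j then 0 else (pp Φ i j) ^ 2 with ho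
  have ho0 : 0 ≤ o := by
    refine Finset.sum_nonneg (fun i _ => Finset.sum_nonneg (fun j _ => ?_))
    split_ifs
    · exact le_rfl
    · exact sq_nonneg _
  have h1 : Cc Φ a b = (∑ i ∈ fib a b, ∑ j ∈ fib a b, (pp Φ i j) ^ 2) + o := by
    unfold Cc
    rw [ho, ← Finset.sum_add_distrib]
    refine Finset.sum_congr rfl (fun i hi => ?_)
    have hib : a i = b := mem_fib.mp hi
    rw [← hc i]
    have h2 : ∑ j ∈ fib a b, (pp Φ i j) ^ 2 = ∑ j, if a i = a j then (pp Φ i j) ^ 2 else 0 := by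
      unfold fib
      rw [Finset.sum_filter]
      refine Finset.sum_congr rfl (fun j _ => ?_)
      rw [hib]
      by_cases h : a j = b
      · rw [if_pos h, if_pos h.symm]
      · rw [if_neg h, if_neg (fun h' => h h'.symm)]
    rw [h2, ← Finset.sum_add_distrib]
    refine Finset.sum_congr rfl (fun j _ => ?_)
    by_cases h : a i = a j
    · rw [if_pos h, if_pos h, add_zero]
    · rw [if_neg h, if_neg h, zero_add]
  have h2 : ∑ i ∈ fib a b, ∑ j ∈ fib a b, (pp Φ i j) ^ 2 ≤ Cc Φ a b ^ 2 := by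
    have h3 : Cc Φ a b ^ 2 = ∑ i ∈ fib a b, ∑ j ∈ fib a b, cn Φ i * cn Φ j := by
      unfold Cc
      rw [pow_two, Finset.sum_mul_sum]
    rw [h3]
    refine Finset.sum_le_sum (fun i _ => Finset.sum_le_sum (fun j _ => ?_))
    exact Finset.sum_mul_sq_le_sq_mul_sq Finset.univ (fun k => Φ i k) (fun k => Φ j k)
  by_contra hlt
  push Not at hlt
  nlinarith

end CLU4

open CLU4 in
/-- **CLU4**: the number of clusters is `K`. -/
theorem CLU4_thm (hDEF1 : Stmt_DEF1) (hCLU3 : Stmt_CLU3) : Stmt_CLU4 := by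
  intro ι _ _ K L Φ m a hH hCl
  obtain ⟨hsz, hout, hEps⟩ := hCLU3 ι K L Φ m a hH hCl
  obtain ⟨hK1, hΦ, hm, hmK, hcm, hD⟩ := hH
  obtain ⟨hc, hcK, hc01, -, -, hD0⟩ := hDEF1 ι K Φ hΦ
  have hm0 : 0 < m := by linarith
  -- `m D ≤ 1/400000`
  have hmD : m * Dfc Φ ≤ 1/400000 := by
    have h1 : m * (m * Dfc Φ) ≤ 1/4000 := by
      calc m * (m * Dfc Φ) = m^2 * Dfc Φ := by ring
        _ ≤ 1/4000 := hD
    have h2 : 0 ≤ m * Dfc Φ := mul_nonneg hm0.le hD0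
    nlinarith
  have hmszpos : ∀ b, (0:ℝ) < (msz a b : ℝ) := fun b => by
    have := (hsz b).1
    linarith
  have hsumC : ∑ b, Cc Φ a b = K := by
    rw [← hcK]
    exact sum_fib a (fun i => cn Φ i)
  -- upper bound
  have hup : (K:ℝ) < L + 1 := by
    have h1 : ∑ b, Cc Φ a b ≤ ∑ b, (1 + ∑ i ∈ fib a b, ∑ k, (Φ i k - vbar Φ a b k) ^ 2) :=
      Finset.sum_le_sum (fun b _ => Cc_le Φ hΦ a b (by exact_mod_cast hmszpos b))
    have h2 : ∑ b, ∑ i ∈ fib a b, ∑ k, (Φ i k - vbar Φ a b k) ^ 2 = Eps Φ a := by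
      unfold Eps
      rw [← sum_fib a (fun i => ∑ k, (Φ i k - vbar Φ a (a i) k) ^ 2)]
      refine Finset.sum_congr rfl (fun b _ => Finset.sum_congr rfl (fun i hi => ?_))
      rw [mem_fib.mp hi]
    rw [Finset.sum_add_distrib, h2, hsumC, Finset.sum_const, Finset.card_univ, Fintype.card_fin,
      nsmul_eq_mul, mul_one] at h1
    linarith
  -- lower bound
  have hlow : (L:ℝ) < K + 1 := by
    have hC : ∀ b, 96/100 ≤ Cc Φ a b := by
      intro b
      have h1 : ∀ i, 99/100 / m ≤ cn Φ i := by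
        intro i
        have h2 := (abs_le.mp (hcm i)).1
        rw [div_le_iff₀ hm0]
        linarith
      have h3 : (msz a b : ℝ) * (99/100 / m) ≤ Cc Φ a b := by
        have h4 := Finset.card_nsmul_le_sum (fib a b) (fun i => cn Φ i) (99/100 / m)
          (fun i _ => h1 i)
        rw [nsmul_eq_mul] at h4
        exact h4
      have h5 : 97/100 * m * (99/100 / m) ≤ (msz a b : ℝ) * (99/100 / m) :=
        mul_le_mul_of_nonneg_right (hsz b).1 (by positivity)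
      have h6 : 97/100 * m * (99/100 / m) = 97/100 * (99/100) := by
        field_simp
      rw [h6] at h5
      linarith
    have h1 : ∑ b, (1 - 2 * (∑ i ∈ fib a b, ∑ j, if a i = a j then 0 else (pp Φ i j) ^ 2))
        ≤ ∑ b, Cc Φ a b :=
      Finset.sum_le_sum (fun b _ => Cc_ge Φ a b hc (hC b))
    rw [Finset.sum_sub_distrib, ← Finset.mul_sum,
      sum_fib a (fun i => ∑ j, if a i = a j then 0 else (pp Φ i j) ^ 2), hsumC, Finset.sum_const,
      Finset.card_univ, Fintype.card_fin, nsmul_eq_mul, mul_one] at h1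
    linarith
  have h1 : K < L + 1 := by exact_mod_cast hup
  have h2 : L < K + 1 := by exact_mod_cast hlow
  omega

end Pool.LH73
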