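import Pool.Agent.Work.MP_1c7b0d_lh73.Interface

/-! CLU5: the masses of the classes. -/

set_option autoImplicit false

open MeasureTheory Matrix Pool.LH60
open scoped BigOperators

namespace Pool.LH73

namespace CLU5

variable {ι : Type} [Fintype ι] {K L : ℕ}

/-- the scatter of one class -/
noncomputable def scat (Φ : Matrix ι (Fin K) ℝ) (a : ι → Fin L) (b : Fin L) : ℝ :=
  ∑ i ∈ fib a b, ∑ k, (Φ i k - vbar Φ a b k)^2

theorem scat_nonneg (Φ : Matrix ι (Fin K) ℝ) (a : ι → Fin L) (b : Fin L) : 0 ≤ scat Φ a b :=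
  Finset.sum_nonneg fun _ _ => Finset.sum_nonneg fun _ _ => sq_nonneg _

theorem sum_scat (Φ : Matrix ι (Fin K) ℝ) (a : ι → Fin L) : ∑ b, scat Φ a b = Eps Φ a := by
  unfold Eps
  rw [← Finset.sum_fiberwise Finset.univ a]
  refine Finset.sum_congr rfl fun b _ => ?_
  unfold scat fib
  refine Finset.sum_congr rfl fun i hi => ?_
  rw [(Finset.mem_filter.1 hi).2]

theorem sum_Cc (Φ : Matrix ι (Fin K) ℝ) (a : ι → Fin L) : ∑ b, Cc Φ a b = ∑ i, cn Φ i := by
  rw [← Finset.sum_fiberwise Finset.univ a]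
  rfl

theorem sum_phi (Φ : Matrix ι (Fin K) ℝ) (a : ι → Fin L) (b : Fin L) (hM : msz a b ≠ 0)
    (k : Fin K) : ∑ i ∈ fib a b, Φ i k = (msz a b : ℝ) * vbar Φ a b k := by
  unfold vbar
  have : (msz a b : ℝ) ≠ 0 := by exact_mod_cast hM
  field_simp

theorem Cc_eq (Φ : Matrix ι (Fin K) ℝ) (a : ι → Fin L) (b : Fin L) (hM : msz a b ≠ 0) :
    Cc Φ a b = (msz a b : ℝ) * (∑ k, (vbar Φ a b k)^2) + scat Φ a b := by
  unfold Cc scat cn
  rw [Finset.sum_comm, Finset.sum_comm (s := fib a b) (t := Finset.univ)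
    (f := fun i k => (Φ i k - vbar Φ a b k)^2), Finset.mul_sum, ← Finset.sum_add_distrib]
  refine Finset.sum_congr rfl fun k _ => ?_
  have h1 : ∀ i, (Φ i k - vbar Φ a b k)^2 =
      Φ i k ^ 2 - 2 * vbar Φ a b k * Φ i k + (vbar Φ a b k)^2 := fun i => by ring
  rw [Finset.sum_congr rfl fun i _ => h1 i, Finset.sum_add_distrib, Finset.sum_sub_distrib,
    ← Finset.mul_sum, sum_phi Φ a b hM k, Finset.sum_const, nsmul_eq_mul]
  have h2 : ((fib a b).card : ℝ) = (msz a b : ℝ) := rfl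
  rw [h2]
  ring

theorem sq_sum (Φ : Matrix ι (Fin K) ℝ) (h : Φᵀ * Φ = 1) (v : Fin K → ℝ) :
    ∑ i, (∑ k, Φ i k * v k)^2 = ∑ k, v k ^ 2 := by
  have h1 : (Φ *ᵥ v) ⬝ᵥ (Φ *ᵥ v) = v ⬝ᵥ v := by
    rw [dotProduct_mulVec, vecMul_mulVec, h, vecMul_one]
  have h2 : (Φ *ᵥ v) ⬝ᵥ (Φ *ᵥ v) = ∑ i, (∑ k, Φ i k * v k)^2 := by
    unfold dotProduct mulVec dotProduct
    exact Finset.sum_congr rfl fun i _ => by ring
  have h3 : v ⬝ᵥ v = ∑ k, v k ^ 2 := by
    unfold dotProduct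
    exact Finset.sum_congr rfl fun i _ => by ring
  rw [← h2, ← h3, h1]

theorem mass_le (Φ : Matrix ι (Fin K) ℝ) (h : Φᵀ * Φ = 1) (a : ι → Fin L) (b : Fin L)
    (hM : msz a b ≠ 0) : (msz a b : ℝ) * (∑ k, (vbar Φ a b k)^2) ≤ 1 := by
  set v := vbar Φ a b with hv
  set M : ℝ := (msz a b : ℝ) with hMd
  have hM0 : 0 < M := by
    have : 0 < msz a b := Nat.pos_of_ne_zero hM
    rw [hMd]; exact_mod_cast this
  set V : ℝ := ∑ k, v k ^ 2 with hV
  have hV0 : 0 ≤ V := Finset.sum_nonneg fun _ _ => sq_nonneg _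
  have h1 : ∑ i ∈ fib a b, (∑ k, Φ i k * v k)^2 ≤ V := by
    rw [hV, ← sq_sum Φ h v]
    exact Finset.sum_le_sum_of_subset_of_nonneg (Finset.subset_univ _) fun _ _ _ => sq_nonneg _
  have h2 : ∑ i ∈ fib a b, (∑ k, Φ i k * v k) = M * V := by
    rw [Finset.sum_comm, hV, Finset.mul_sum]
    refine Finset.sum_congr rfl fun k _ => ?_
    rw [← Finset.sum_mul, sum_phi Φ a b hM k]
    ring
  have h3 : (M * V)^2 ≤ M * V := by
    have h4 := sq_sum_le_card_mul_sum_sq (s := fib a b) (f := fun i => ∑ k, Φ i k * v k)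
    rw [h2] at h4
    refine h4.trans ?_
    have h5 : (((fib a b).card : ℕ) : ℝ) = M := rfl
    rw [h5]
    exact mul_le_mul_of_nonneg_left h1 hM0.le
  by_contra hc
  push Not at hc
  nlinarith [mul_pos (by linarith : (0:ℝ) < M * V) (by linarith : (0:ℝ) < M * V - 1)]

end CLU5

theorem CLU5_thm (hDEF1 : Stmt_DEF1) : Stmt_CLU5 := by
  intro ι _ _ K Φ a hΦ ha
  have hM : ∀ b, msz a b ≠ 0 := by
    intro b
    obtain ⟨i, hi⟩ := ha b
    exact Finset.card_ne_zero_of_mem (Finset.mem_filter.2 ⟨Finset.mem_univ i, hi⟩)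
  have hup : ∀ b, Cc Φ a b - 1 ≤ CLU5.scat Φ a b := by
    intro b
    have h1 := CLU5.Cc_eq Φ a b (hM b)
    have h2 := CLU5.mass_le Φ hΦ a b (hM b)
    linarith
  have hsum : ∑ b, (Cc Φ a b - 1) = 0 := by
    rw [Finset.sum_sub_distrib, CLU5.sum_Cc, (hDEF1 ι K Φ hΦ).2.1]
    simp
  have hE := CLU5.sum_scat Φ a
  have hs0 := CLU5.scat_nonneg Φ a
  have hle : ∀ b, CLU5.scat Φ a b ≤ Eps Φ a := by
    intro b
    rw [← hE]
    exact Finset.single_le_sum (f := fun b => CLU5.scat Φ a b) (fun b _ => hs0 b)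
      (Finset.mem_univ b)
  refine ⟨hsum, fun b => ?_, ?_⟩
  · rw [abs_le]
    constructor
    · have h1 : ∑ b' ∈ Finset.univ.erase b, (Cc Φ a b' - 1) ≤
          ∑ b' ∈ Finset.univ.erase b, CLU5.scat Φ a b' :=
        Finset.sum_le_sum fun b' _ => hup b'
      have h2 : ∑ b' ∈ Finset.univ.erase b, CLU5.scat Φ a b' ≤ Eps Φ a := by
        rw [← hE]
        exact Finset.sum_le_sum_of_subset_of_nonneg (Finset.erase_subset _ _) fun b' _ _ => hs0 b'
      have h3 := Finset.add_sum_erase Finset.univ (fun b' => Cc Φ a b' - 1) (Finset.mem_univ b)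
      rw [hsum] at h3
      linarith
    · exact (hup b).trans (hle b)
  · have h1 : ∀ b, |Cc Φ a b - 1| ≤ 2 * CLU5.scat Φ a b - (Cc Φ a b - 1) := by
      intro b
      have h2 := hup b
      have h3 := hs0 b
      rw [abs_le]
      constructor <;> linarith
    calc ∑ b, |Cc Φ a b - 1| ≤ ∑ b, (2 * CLU5.scat Φ a b - (Cc Φ a b - 1)) :=
          Finset.sum_le_sum fun b _ => h1 b
      _ = 2 * Eps Φ a := by
          rw [Finset.sum_sub_distrib, hsum, ← Finset.mul_sum, hE, sub_zero]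

end Pool.LH73
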