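import Pool.Agent.Work.MP_1c7b0d_lh73.CUTC

/-! Block CUT (helper35): row MP_1c7b0d_gt. -/

open MeasureTheory Matrix Pool.LH60
open scoped BigOperators

namespace Pool.LH73

/-- numerical inequality -/
theorem cut_numeric : 1/10 - (1 - Real.log (2 * Real.pi) / 2 - 1/120) + Real.log 101 / 2 + 13/160
    + (65816/10000) / 5 ≤ Real.log 50 := by
  have hpi : (0:ℝ) < 2 * Real.pi := by positivity
  have h1 : Real.log (2 * Real.pi) + Real.log 101 = Real.log (2 * Real.pi * 101) := by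
    rw [Real.log_mul hpi.ne' (by norm_num)]
  have h2 : 2 * Real.log 50 = Real.log 2500 := by
    rw [show (2500:ℝ) = 50 ^ 2 by norm_num, Real.log_pow]; norm_num
  have h3 : Real.log (2 * Real.pi * 101) + 103/100 ≤ Real.log 2500 := by
    rw [Real.le_log_iff_exp_le (by norm_num), Real.exp_add, Real.exp_log (by positivity)]
    have hp : Real.pi < 3.15 := Real.pi_lt_d2
    have he : Real.exp (103/100) ≤ 2.9 := by
      have e1 : (103/100:ℝ) = 1 + 3/100 := by norm_num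
      rw [e1, Real.exp_add]
      have e2 := Real.exp_one_lt_d9
      have e3 : Real.exp (3/100) ≤ 1.04 := by
        have := Real.exp_bound_div_one_sub_of_interval (x := 3/100) (by norm_num) (by norm_num)
        refine this.trans ?_
        norm_num
      have e4 : 0 < Real.exp (3/100 : ℝ) := Real.exp_pos _
      nlinarith
    have h4 : 0 < Real.exp (103/100 : ℝ) := Real.exp_pos _
    have h5 : 2 * Real.pi * 101 ≤ 636.3 := by linarith
    calc 2 * Real.pi * 101 * Real.exp (103/100) ≤ 636.3 * 2.9 :=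
          mul_le_mul h5 he h4.le (by norm_num)
      _ ≤ 2500 := by norm_num
  linarith

/-- lower bound for the volume of the cut polytope -/
theorem cut_vol {d K : ℕ} (hCUTD : Stmt_CUTD) (hCUTC : Stmt_CUTC) (hMAINA : Stmt_MAINA)
    (hONC : Stmt_ONC) (hGM1 : Stmt_GM1)
    (V : Matrix (Ix d K) (Fin d) ℝ) (Φ : Matrix (Ix d K) (Fin K) ℝ) (hd : 1 ≤ d) (hK : 1 ≤ K)
    (hF : IsoFrame V Φ) (hc : ∀ i, cn Φ i ≤ 1/10) (hc2 : ∑ i, (cn Φ i)^2 ≤ 1/10)
    (hK2 : ((K:ℝ) + 1)^2 ≤ ((d:ℝ) + K + 1) / 10) (ω : Fin d → ℝ) (hω : ∑ a, ω a ^ 2 = 1)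
    (hs : ∑ i, tau V ω i * ((∑ a, V i a ^ 2) - 100/101 * tau V ω i ^ 2) ≤ 0) :
    ENNReal.ofReal (Real.exp (Nd d K + 1/10)) ≤ 50 * volume (Pol (cutU V ω)) := by
  classical
  obtain ⟨hpd, hlog⟩ := hCUTD d K V hd hF.1 ω hω hs
  obtain ⟨Ψ, hΨ1, hΨ2⟩ := hONC (Ix d (K+1)) d (K+1) (by simp [Ix]) (cutU V ω)
  have hfr : IsFrame (cutU V ω) Ψ := ⟨hΨ1, hΨ2, hpd.det_pos.ne'⟩
  obtain ⟨hC1, hC2⟩ := hCUTC d K V Φ Ψ hF ω hω hfr
  have hM := hMAINA d (K+1) (cutU V ω) Ψ hd (by omega) hfr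
  -- the sum of the squares
  have hcΨ : ∀ i, 0 ≤ cn Ψ i := fun i => Finset.sum_nonneg fun k _ => sq_nonneg _
  have hcΦ : ∀ i, 0 ≤ cn Φ i := fun i => Finset.sum_nonneg fun k _ => sq_nonneg _
  have htr : ∑ i, cn Ψ i = (K:ℝ) + 1 := by
    have h1 : ∑ i, cn Ψ i = Matrix.trace (Ψᵀ * Ψ) := by
      simp only [cn, Matrix.trace, Matrix.diag, Matrix.mul_apply, Matrix.transpose_apply]
      rw [Finset.sum_comm]
      exact Finset.sum_congr rfl fun k _ => Finset.sum_congr rfl fun i _ => by ring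
    rw [h1, hΨ1, Matrix.trace_one]
    simp
  have hn : (0:ℝ) < (d:ℝ) + K + 1 := by positivity
  have hsq1 : ∑ i, (cn Ψ i - ((K+1 : ℕ):ℝ) / ((d:ℝ) + ((K+1 : ℕ):ℝ)))^2 ≤ ∑ i, cn Ψ i ^ 2 := by
    set μ : ℝ := ((K+1 : ℕ):ℝ) / ((d:ℝ) + ((K+1 : ℕ):ℝ)) with hμ
    have hμn : μ * ((d:ℝ) + K + 1) = (K:ℝ) + 1 := by
      rw [hμ]; push_cast; rw [← add_assoc]; field_simp
    have hμ0 : 0 ≤ μ := by positivity
    have h1 : ∑ i, (cn Ψ i - μ)^2 = ∑ i, cn Ψ i ^ 2 - 2 * μ * ∑ i, cn Ψ i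
        + ((d:ℝ) + K + 1) * μ^2 := by
      have h2 : ∀ i, (cn Ψ i - μ)^2 = cn Ψ i ^ 2 - 2 * μ * cn Ψ i + μ^2 := fun i => by ring
      simp only [h2]
      rw [Finset.sum_add_distrib, Finset.sum_sub_distrib, ← Finset.mul_sum, Finset.sum_const,
        nsmul_eq_mul]
      have h4 : ((Finset.univ : Finset (Ix d (K+1))).card : ℝ) = (d:ℝ) + K + 1 := by
        simp [Ix]; ring
      rw [h4]
    rw [h1, htr]
    have h3 : ((d:ℝ) + K + 1) * μ^2 = μ * (K + 1) := by rw [← hμn]; ring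
    rw [h3]
    have : 0 ≤ μ * ((K:ℝ) + 1) := by positivity
    linarith
  have htau2 : ∑ i, tau V ω i ^ 2 = 1 := by rw [tau_sq_sum hF.1, hω]
  have htau1 : ∀ i, tau V ω i ^ 2 ≤ 1 := fun i => by
    have := tau_abs_le hF.1 hω i
    have h := abs_le.mp this
    nlinarith [h.1, h.2]
  have hsq2 : ∑ i, cn Ψ i ^ 2 ≤ 65816/10000 := by
    rw [sum_emb (fun i => cn Ψ i ^ 2)]
    have h1 : cn Ψ (Sum.inr (Fin.last K)) ^ 2 ≤ 1/4225 := by
      have := hcΨ (Sum.inr (Fin.last K))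
      nlinarith
    have h2 : ∑ i : Ix d K, cn Ψ (emb i) ^ 2 ≤ 81/16 * (13/10) := by
      have h3 : ∀ i : Ix d K, cn Ψ (emb i) ^ 2 ≤
          81/16 * (cn Φ i ^ 2 + 2/10 * tau V ω i ^ 2 + tau V ω i ^ 2) := by
        intro i
        have h4 := hC1 i
        have h5 : cn Ψ (emb i) ^ 2 ≤ (9/4 * (cn Φ i + tau V ω i ^ 2))^2 := by
          have := hcΨ (emb i)
          nlinarith
        refine h5.trans ?_
        have h6 : cn Φ i * tau V ω i ^ 2 ≤ 1/10 * tau V ω i ^ 2 :=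
          mul_le_mul_of_nonneg_right (hc i) (sq_nonneg _)
        have h7 : tau V ω i ^ 2 * tau V ω i ^ 2 ≤ 1 * tau V ω i ^ 2 :=
          mul_le_mul_of_nonneg_right (htau1 i) (sq_nonneg _)
        nlinarith
      calc ∑ i : Ix d K, cn Ψ (emb i) ^ 2
          ≤ ∑ i, 81/16 * (cn Φ i ^ 2 + 2/10 * tau V ω i ^ 2 + tau V ω i ^ 2) :=
            Finset.sum_le_sum fun i _ => h3 i
        _ = 81/16 * (∑ i, cn Φ i ^ 2 + 2/10 * ∑ i, tau V ω i ^ 2 + ∑ i, tau V ω i ^ 2) := by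
            rw [← Finset.mul_sum, Finset.sum_add_distrib, Finset.sum_add_distrib,
              ← Finset.mul_sum]
        _ ≤ 81/16 * (13/10) := by rw [htau2]; linarith
    linarith
  -- the main terms
  have hNd : 1 - Real.log (2 * Real.pi) / 2 - 1/120 ≤ Nd d (K+1) - Nd d K := by
    have hK0 : (0:ℝ) < K := by exact_mod_cast hK
    have h1 := (hGM1 (((d:ℝ) + K) / K) (by positivity)).1
    have h2 := (hGM1 (((d:ℝ) + ((K+1:ℕ):ℝ)) / ((K+1:ℕ):ℝ)) (by positivity)).2.1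
    unfold Nd
    have h3 : ((K+1:ℕ):ℝ) * mu (((d:ℝ) + ((K+1:ℕ):ℝ)) / ((K+1:ℕ):ℝ)) ≤ 1/120 := by
      have h4 : ((K+1:ℕ):ℝ) * mu (((d:ℝ) + ((K+1:ℕ):ℝ)) / ((K+1:ℕ):ℝ)) ≤
          ((K+1:ℕ):ℝ) * (1 / (12 * (((d:ℝ) + ((K+1:ℕ):ℝ)) / ((K+1:ℕ):ℝ)))) :=
        mul_le_mul_of_nonneg_left h2 (by positivity)
      refine h4.trans ?_
      have h5 : ((K+1:ℕ):ℝ) * (1 / (12 * (((d:ℝ) + ((K+1:ℕ):ℝ)) / ((K+1:ℕ):ℝ)))) =
          ((K:ℝ)+1)^2 / (12 * ((d:ℝ) + K + 1)) := by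
        push_cast
        rw [← add_assoc]
        field_simp
      rw [h5, div_le_iff₀ (by positivity)]
      linarith
    have h6 : 0 ≤ (K:ℝ) * mu (((d:ℝ) + K) / K) := mul_nonneg hK0.le h1
    push_cast at h3 ⊢
    linarith
  -- conclusion
  have hexp : Real.exp (Nd d K + 1/10) ≤ 50 * Real.exp (Nd d (K+1)
      - Real.log ((cutU V ω)ᵀ * cutU V ω).det / 2
      - (∑ i, (cn Ψ i - ((K+1 : ℕ):ℝ) / ((d:ℝ) + ((K+1 : ℕ):ℝ)))^2) / 5) := by
    have h50 : (50:ℝ) = Real.exp (Real.log 50) := (Real.exp_log (by norm_num)).symm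
    rw [h50, ← Real.exp_add]
    apply Real.exp_le_exp.mpr
    have hnum := cut_numeric
    linarith
  calc ENNReal.ofReal (Real.exp (Nd d K + 1/10)) ≤ ENNReal.ofReal (50 * Real.exp (Nd d (K+1)
      - Real.log ((cutU V ω)ᵀ * cutU V ω).det / 2
      - (∑ i, (cn Ψ i - ((K+1 : ℕ):ℝ) / ((d:ℝ) + ((K+1 : ℕ):ℝ)))^2) / 5)) :=
        ENNReal.ofReal_le_ofReal hexp
    _ = 50 * ENNReal.ofReal (Real.exp (Nd d (K+1)
      - Real.log ((cutU V ω)ᵀ * cutU V ω).det / 2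
      - (∑ i, (cn Ψ i - ((K+1 : ℕ):ℝ) / ((d:ℝ) + ((K+1 : ℕ):ℝ)))^2) / 5)) := by
        rw [ENNReal.ofReal_mul (by norm_num)]
        norm_num
    _ ≤ 50 * volume (Pol (cutU V ω)) := by gcongr

theorem pol_cut_sub {d K : ℕ} (V : Matrix (Ix d K) (Fin d) ℝ) (hV : Vᵀ * V = 1)
    (ω : Fin d → ℝ) (hω : ∑ a, ω a ^ 2 = 1) :
    volume (Pol (cutU V ω)) ≤ volume {x | x ∈ Pol V ∧ 1/10 ≤ ∑ a, ω a * x a} := by
  have htau := tau_abs_le hV hω
  have hpos : ∀ i, 0 < 1 - tau V ω i / 5 := fun i => by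
    have := abs_le.mp (htau i); linarith [this.2]
  have hsub : Pol (cutU V ω) ⊆ (fun x : Fin d → ℝ => x + (fun a => ω a / 5)) ⁻¹'
      {x | x ∈ Pol V ∧ 1/10 ≤ ∑ a, ω a * x a} := by
    intro x hx
    have hx' : ∀ i, 0 < yv (cutU V ω) x i := hx
    refine ⟨fun i => ?_, ?_⟩
    · have h1 := hx' (emb i)
      have h2 : yv (cutU V ω) x (emb i) = 1 - (∑ a, V i a * x a) / (1 - tau V ω i / 5) := by
        unfold yv
        simp only [cutU_emb]
        rw [Finset.sum_div]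
        congr 1
        exact Finset.sum_congr rfl fun a _ => by ring
      rw [h2] at h1
      have h3 : (∑ a, V i a * x a) / (1 - tau V ω i / 5) < 1 := by linarith
      rw [div_lt_one (hpos i)] at h3
      have h4 : yv V (x + fun a => ω a / 5) i = 1 - (∑ a, V i a * x a) - tau V ω i / 5 := by
        unfold yv tau
        have : ∑ a, V i a * (x + fun a => ω a / 5) a =
            ∑ a, V i a * x a + (∑ a, V i a * ω a) / 5 := by
          rw [Finset.sum_div, ← Finset.sum_add_distrib]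
          exact Finset.sum_congr rfl fun a _ => by simp only [Pi.add_apply]; ring
        rw [this]; ring
      rw [h4]; linarith
    · have h1 := hx' (Sum.inr (Fin.last K))
      have h2 : yv (cutU V ω) x (Sum.inr (Fin.last K)) = 1 + 10 * ∑ a, ω a * x a := by
        unfold yv
        simp only [cutU_last]
        rw [Finset.mul_sum, sub_eq_add_neg, ← Finset.sum_neg_distrib]
        congr 1
        exact Finset.sum_congr rfl fun a _ => by ring
      rw [h2] at h1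
      have h3 : ∑ a, ω a * (x + fun a => ω a / 5) a = ∑ a, ω a * x a + 1/5 := by
        have : ∑ a, ω a * (x + fun a => ω a / 5) a =
            ∑ a, ω a * x a + (∑ a, ω a ^ 2) / 5 := by
          rw [Finset.sum_div, ← Finset.sum_add_distrib]
          exact Finset.sum_congr rfl fun a _ => by simp only [Pi.add_apply]; ring
        rw [this, hω]
      rw [h3]; linarith
  refine (measure_mono hsub).trans ?_
  rw [measure_preimage_add_right]

theorem CUT_thm (hCUTD : Stmt_CUTD) (hCUTC : Stmt_CUTC) (hMAINA : Stmt_MAINA)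
    (hONC : Stmt_ONC) (hGM1 : Stmt_GM1) : Stmt_CUT := by
  intro d K V Φ hd hK hF hc hc2 hK2 hvol ω hω
  have core : ∀ ω' : Fin d → ℝ, ∑ a, ω' a ^ 2 = 1 →
      ∑ i, tau V ω' i * ((∑ a, V i a ^ 2) - 100/101 * tau V ω' i ^ 2) ≤ 0 →
      volume (Pol V) ≤ 50 * volume {x | x ∈ Pol V ∧ 1/10 ≤ ∑ a, ω' a * x a} := by
    intro ω' hω' hs
    calc volume (Pol V) ≤ ENNReal.ofReal (Real.exp (Nd d K + 1/10)) := hvol
      _ ≤ 50 * volume (Pol (cutU V ω')) :=
        cut_vol hCUTD hCUTC hMAINA hONC hGM1 V Φ hd hK hF hc hc2 hK2 ω' hω' hs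
      _ ≤ 50 * volume {x | x ∈ Pol V ∧ 1/10 ≤ ∑ a, ω' a * x a} :=
        mul_le_mul_right (pol_cut_sub V hF.1 ω' hω') 50
  by_cases hs : ∑ i, tau V ω i * ((∑ a, V i a ^ 2) - 100/101 * tau V ω i ^ 2) ≤ 0
  · refine (core ω hω hs).trans (mul_le_mul_right (measure_mono ?_) 50)
    rintro x ⟨hx, h⟩
    exact ⟨hx, h.trans (le_abs_self _)⟩
  · have hneg : ∀ i, tau V (fun a => -ω a) i = -tau V ω i := fun i => by
      unfold tau
      rw [← Finset.sum_neg_distrib]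
      exact Finset.sum_congr rfl fun a _ => by ring
    have hs' : ∑ i, tau V (fun a => -ω a) i *
        ((∑ a, V i a ^ 2) - 100/101 * tau V (fun a => -ω a) i ^ 2) ≤ 0 := by
      simp only [hneg]
      have : ∑ i, -tau V ω i * ((∑ a, V i a ^ 2) - 100/101 * (-tau V ω i) ^ 2) =
          -∑ i, tau V ω i * ((∑ a, V i a ^ 2) - 100/101 * tau V ω i ^ 2) := by
        rw [← Finset.sum_neg_distrib]
        exact Finset.sum_congr rfl fun a _ => by ring
      rw [this]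
      push Not at hs
      linarith
    refine (core (fun a => -ω a) (by simpa using hω) hs').trans
      (mul_le_mul_right (measure_mono ?_) 50)
    rintro x ⟨hx, h⟩
    refine ⟨hx, h.trans ?_⟩
    have : ∑ a, -ω a * x a = -∑ a, ω a * x a := by
      rw [← Finset.sum_neg_distrib]
      exact Finset.sum_congr rfl fun a _ => by ring
    rw [this]
    exact neg_le_abs _

end Pool.LH73
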