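import Pool.Agent.Work.MP_1c7b0d_lh73.Interface

/-! Block CUTC (helper35): row MP_1c7b0d_gt. -/

open MeasureTheory Matrix Pool.LH60
open scoped BigOperators

namespace Pool.LH73

/-- `V Vᵀ + Φ Φᵀ = 1` -/
theorem iso_compl {d K : ℕ} {V : Matrix (Ix d K) (Fin d) ℝ} {Φ : Matrix (Ix d K) (Fin K) ℝ}
    (h : IsoFrame V Φ) : V * Vᵀ + Φ * Φᵀ = 1 := by
  obtain ⟨h1, h2, h3⟩ := h
  have h4 : Vᵀ * Φ = 0 := by
    have := congrArg Matrix.transpose h3
    simpa [Matrix.transpose_mul] using this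
  have hW : (Matrix.fromCols V Φ)ᵀ * Matrix.fromCols V Φ = 1 := by
    rw [Matrix.transpose_fromCols, Matrix.fromRows_mul_fromCols, h1, h2, h3, h4,
      Matrix.fromBlocks_one]
  have hW' : Matrix.fromCols V Φ * (Matrix.fromCols V Φ)ᵀ = 1 :=
    mul_eq_one_comm.mp hW
  rwa [Matrix.transpose_fromCols, Matrix.fromCols_mul_fromRows] at hW'

theorem tau_sq_sum {d K : ℕ} {V : Matrix (Ix d K) (Fin d) ℝ} (hV : Vᵀ * V = 1) (ω : Fin d → ℝ) :
    ∑ i, tau V ω i ^ 2 = ∑ a, ω a ^ 2 := by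
  have h1 : ∀ i, tau V ω i = (V *ᵥ ω) i := fun i => rfl
  have h2 : (V *ᵥ ω) ⬝ᵥ (V *ᵥ ω) = ω ⬝ᵥ ω := by
    rw [Matrix.dotProduct_mulVec, Matrix.vecMul_mulVec, ← Matrix.dotProduct_mulVec]
    rw [hV, Matrix.one_mulVec]
  simp only [dotProduct] at h2
  simp only [h1, pow_two]
  exact h2

theorem tau_abs_le {d K : ℕ} {V : Matrix (Ix d K) (Fin d) ℝ} (hV : Vᵀ * V = 1) {ω : Fin d → ℝ}
    (hω : ∑ a, ω a ^ 2 = 1) (i : Ix d K) : |tau V ω i| ≤ 1 := by
  have h := tau_sq_sum hV ω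
  rw [hω] at h
  have h2 : tau V ω i ^ 2 ≤ 1 := by
    rw [← h]
    exact Finset.single_le_sum (f := fun i => tau V ω i ^ 2) (fun j _ => sq_nonneg _)
      (Finset.mem_univ i)
  exact abs_le_one_iff_mul_self_le_one.mpr (by nlinarith)

theorem sum_emb {d K : ℕ} (f : Ix d (K+1) → ℝ) :
    ∑ i, f i = ∑ i : Ix d K, f (emb i) + f (Sum.inr (Fin.last K)) := by
  rw [Fintype.sum_sum_type, Fintype.sum_sum_type, Fin.sum_univ_castSucc]
  simp only [emb, Sum.map_inl, Sum.map_inr, id]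
  ring

theorem cutU_emb {d K : ℕ} (V : Matrix (Ix d K) (Fin d) ℝ) (ω : Fin d → ℝ) (i : Ix d K)
    (b : Fin d) : cutU V ω (emb i) b = V i b / (1 - tau V ω i / 5) := by
  cases i with
  | inl a => simp [cutU, emb]
  | inr k => simp [cutU, emb]

theorem cutU_last {d K : ℕ} (V : Matrix (Ix d K) (Fin d) ℝ) (ω : Fin d → ℝ)
    (b : Fin d) : cutU V ω (Sum.inr (Fin.last K)) b = -10 * ω b := by
  simp [cutU]

/-- the main estimate for one vector `f` orthogonal to the columns of `cutU V ω` -/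
theorem cutc_core {d K : ℕ} (V : Matrix (Ix d K) (Fin d) ℝ)
    (Φ : Matrix (Ix d K) (Fin K) ℝ) (hF : IsoFrame V Φ) (ω : Fin d → ℝ)
    (hω : ∑ a, ω a ^ 2 = 1) (f : Ix d (K+1) → ℝ)
    (hf : ∀ b, ∑ j, f j * cutU V ω j b = 0) :
    (∀ i, f (emb i) ^ 2 ≤ 9/4 * (cn Φ i + tau V ω i ^ 2) * ∑ j, f j ^ 2) ∧
    65 * f (Sum.inr (Fin.last K)) ^ 2 ≤ ∑ j, f j ^ 2 := by
  classical
  have hV := hF.1
  set f0 := f (Sum.inr (Fin.last K)) with hf0
  have htau := tau_abs_le hV hω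
  have hpos : ∀ i, 0 < 1 - tau V ω i / 5 := fun i => by
    have := abs_le.mp (htau i); linarith [this.2]
  set gg : Ix d K → ℝ := fun i => f (emb i) / (1 - tau V ω i / 5) with hgg
  have hfg : ∀ i, f (emb i) = (1 - tau V ω i / 5) * gg i := fun i => by
    have h := (hpos i).ne'
    rw [hgg]
    show f (emb i) = (1 - tau V ω i / 5) * (f (emb i) / (1 - tau V ω i / 5))
    rw [mul_div_cancel₀ _ h]
  -- Vᵀ g = 10 f0 ω
  have hVg : Vᵀ *ᵥ gg = fun b => 10 * f0 * ω b := by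
    funext b
    have h := hf b
    rw [sum_emb] at h
    simp only [cutU_emb, cutU_last] at h
    have h1 : (Vᵀ *ᵥ gg) b = ∑ i : Ix d K, f (emb i) * (V i b / (1 - tau V ω i / 5)) := by
      simp only [Matrix.mulVec, dotProduct, Matrix.transpose_apply, hgg]
      refine Finset.sum_congr rfl fun i _ => ?_
      ring
    rw [h1]
    linarith
  set w : Fin K → ℝ := Φᵀ *ᵥ gg with hw
  have hcompl := iso_compl hF
  have hg : ∀ i, gg i = 10 * f0 * tau V ω i + ∑ k, Φ i k * w k := by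
    intro i
    have h1 : gg = (V * Vᵀ + Φ * Φᵀ) *ᵥ gg := by rw [hcompl, Matrix.one_mulVec]
    have h2 := congrFun h1 i
    rw [Matrix.add_mulVec, ← Matrix.mulVec_mulVec, ← Matrix.mulVec_mulVec, hVg] at h2
    rw [h2]
    simp only [Pi.add_apply, Matrix.mulVec, dotProduct, tau, hw, Matrix.transpose_apply]
    rw [Finset.mul_sum]
    congr 1
    refine Finset.sum_congr rfl fun a _ => ?_
    ring
  have hgn : ∑ i, gg i ^ 2 = 100 * f0 ^ 2 + ∑ k, w k ^ 2 := by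
    have h1 : gg ⬝ᵥ gg = (Vᵀ *ᵥ gg) ⬝ᵥ (Vᵀ *ᵥ gg) + (Φᵀ *ᵥ gg) ⬝ᵥ (Φᵀ *ᵥ gg) := by
      have e1 : (Vᵀ *ᵥ gg) ⬝ᵥ (Vᵀ *ᵥ gg) = gg ⬝ᵥ ((V * Vᵀ) *ᵥ gg) := by
        rw [Matrix.dotProduct_mulVec, Matrix.vecMul_transpose, Matrix.mulVec_mulVec,
          dotProduct_comm]
      have e2 : (Φᵀ *ᵥ gg) ⬝ᵥ (Φᵀ *ᵥ gg) = gg ⬝ᵥ ((Φ * Φᵀ) *ᵥ gg) := by
        rw [Matrix.dotProduct_mulVec, Matrix.vecMul_transpose, Matrix.mulVec_mulVec,
          dotProduct_comm]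
      rw [e1, e2, ← dotProduct_add, ← Matrix.add_mulVec, hcompl, Matrix.one_mulVec]
    rw [hVg] at h1
    simp only [dotProduct] at h1
    have h2 : ∑ i, gg i ^ 2 = ∑ i, gg i * gg i := Finset.sum_congr rfl fun i _ => by ring
    have h3 : ∑ b, 10 * f0 * ω b * (10 * f0 * ω b) = 100 * f0 ^ 2 := by
      have : ∑ b, 10 * f0 * ω b * (10 * f0 * ω b) = 100 * f0 ^ 2 * ∑ b, ω b ^ 2 := by
        rw [Finset.mul_sum]
        exact Finset.sum_congr rfl fun i _ => by ring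
      rw [this, hω, mul_one]
    rw [h2, h1, h3]
    congr 1
    exact Finset.sum_congr rfl fun i _ => by rw [hw]; ring
  -- Cauchy-Schwarz
  have hCS : ∀ i, gg i ^ 2 ≤ (cn Φ i + tau V ω i ^ 2) * ∑ j, gg j ^ 2 := by
    intro i
    rw [hgn, hg i]
    have hcs : (∑ k, Φ i k * w k) ^ 2 ≤ (∑ k, Φ i k ^ 2) * ∑ k, w k ^ 2 :=
      Finset.sum_mul_sq_le_sq_mul_sq _ _ _
    have hcn : cn Φ i = ∑ k, Φ i k ^ 2 := rfl
    set s := ∑ k, Φ i k * w k
    set c := cn Φ i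
    rw [← hcn] at hcs
    set W := ∑ k, w k ^ 2
    set t := tau V ω i
    have hW : 0 ≤ W := Finset.sum_nonneg fun k _ => sq_nonneg _
    have hc : 0 ≤ c := Finset.sum_nonneg fun k _ => sq_nonneg _
    -- (10 f0 t + s)^2 ≤ (c + t²)(100 f0² + W)
    -- 2·10 f0 t s ≤ c 100 f0² + t² W
    have key : 2 * (10 * f0 * t) * s ≤ c * (100 * f0 ^ 2) + t ^ 2 * W := by
      by_cases hW0 : W = 0
      · have : s ^ 2 ≤ 0 := by rw [hW0] at hcs; simpa using hcs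
        have hs : s = 0 := by nlinarith [sq_nonneg s]
        rw [hs, mul_zero]; positivity
      · have hWp : 0 < W := lt_of_le_of_ne hW (Ne.symm hW0)
        by_cases hc0 : c = 0
        · have : s ^ 2 ≤ 0 := by rw [hc0] at hcs; simpa using hcs
          have hs : s = 0 := by nlinarith [sq_nonneg s]
          rw [hs, mul_zero]; positivity
        · have hcp : 0 < c := lt_of_le_of_ne hc (Ne.symm hc0)
          -- 2ab ≤ a²c... with (10 f0)² c + t² W ≥ 2·10|f0||t| sqrt(cW) ≥ ...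
          have h1 : 2 * (10 * f0 * t) * s ≤ c * (10 * f0) ^ 2 + (t * s) ^ 2 / c := by
            have : 0 ≤ (c * (10 * f0) - t * s) ^ 2 / c := by positivity
            have e : (c * (10 * f0) - t * s) ^ 2 / c
                = c * (10 * f0) ^ 2 + (t * s) ^ 2 / c - 2 * (10 * f0 * t) * s := by
              field_simp; ring
            linarith
          have h2 : (t * s) ^ 2 / c ≤ t ^ 2 * W := by
            rw [div_le_iff₀ hcp]
            nlinarith [sq_nonneg t, mul_le_mul_of_nonneg_left hcs (sq_nonneg t)]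
          nlinarith
    nlinarith
  -- |g|² ≤ (25/16)(|f|² - f0²)
  have hsum := sum_emb (fun j => f j ^ 2)
  have hgle : ∑ i, gg i ^ 2 ≤ 25/16 * (∑ j, f j ^ 2 - f0 ^ 2) := by
    have h1 : ∑ j, f j ^ 2 - f0 ^ 2 = ∑ i : Ix d K, f (emb i) ^ 2 := by
      rw [hsum]; simp only [hf0]; ring
    rw [h1, Finset.mul_sum]
    refine Finset.sum_le_sum fun i _ => ?_
    rw [hfg i]
    have h2 : 4/5 ≤ 1 - tau V ω i / 5 := by
      have := abs_le.mp (htau i); linarith [this.2]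
    have h3 : (4/5:ℝ)^2 ≤ (1 - tau V ω i / 5)^2 := by nlinarith
    nlinarith [sq_nonneg (gg i), mul_le_mul_of_nonneg_right h3 (sq_nonneg (gg i))]
  have hf2 : 0 ≤ ∑ j, f j ^ 2 := Finset.sum_nonneg fun k _ => sq_nonneg _
  refine ⟨fun i => ?_, ?_⟩
  · rw [hfg i]
    have h2 : (1 - tau V ω i / 5)^2 ≤ 36/25 := by
      have := abs_le.mp (htau i)
      have h4 : 1 - tau V ω i / 5 ≤ 6/5 := by linarith [this.1]
      nlinarith [hpos i]
    have hC : 0 ≤ cn Φ i + tau V ω i ^ 2 :=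
      add_nonneg (Finset.sum_nonneg fun k _ => sq_nonneg _) (sq_nonneg _)
    have h3 := hCS i
    have h4 : (cn Φ i + tau V ω i ^ 2) * ∑ j, gg j ^ 2 ≤
        (cn Φ i + tau V ω i ^ 2) * (25/16 * ∑ j, f j ^ 2) :=
      mul_le_mul_of_nonneg_left (by nlinarith [sq_nonneg f0]) hC
    calc ((1 - tau V ω i / 5) * gg i) ^ 2 = (1 - tau V ω i / 5)^2 * gg i ^ 2 := by ring
      _ ≤ 36/25 * gg i ^ 2 := mul_le_mul_of_nonneg_right h2 (sq_nonneg _)
      _ ≤ 36/25 * ((cn Φ i + tau V ω i ^ 2) * (25/16 * ∑ j, f j ^ 2)) := by linarith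
      _ = 9/4 * (cn Φ i + tau V ω i ^ 2) * ∑ j, f j ^ 2 := by ring
  · have hW : 0 ≤ ∑ k, w k ^ 2 := Finset.sum_nonneg fun k _ => sq_nonneg _
    nlinarith

theorem CUTC_thm : Stmt_CUTC := by
  intro d K V Φ Ψ hF ω hω hΨ
  obtain ⟨hΨ1, hΨ2, -⟩ := hΨ
  have main : ∀ i0 : Ix d (K+1), ∃ f : Ix d (K+1) → ℝ, (∀ b, ∑ j, f j * cutU V ω j b = 0) ∧
      f i0 = cn Ψ i0 ∧ ∑ j, f j ^ 2 = cn Ψ i0 := by
    intro i0
    refine ⟨Ψ *ᵥ (fun k => Ψ i0 k), ?_, ?_, ?_⟩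
    · intro b
      have h1 : (Ψᵀ * cutU V ω) = 0 := hΨ2
      have h2 : ((Ψ *ᵥ (fun k => Ψ i0 k)) ᵥ* cutU V ω) b = 0 := by
        rw [← Matrix.vecMul_transpose, Matrix.vecMul_vecMul, h1, Matrix.vecMul_zero]
        rfl
      exact h2
    · simp only [Matrix.mulVec, dotProduct, cn]
      exact Finset.sum_congr rfl fun k _ => by ring
    · have h1 : (Ψ *ᵥ (fun k => Ψ i0 k)) ⬝ᵥ (Ψ *ᵥ (fun k => Ψ i0 k)) =
          (fun k => Ψ i0 k) ⬝ᵥ (fun k => Ψ i0 k) := by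
        rw [Matrix.dotProduct_mulVec, Matrix.vecMul_mulVec, ← Matrix.dotProduct_mulVec, hΨ1,
          Matrix.one_mulVec]
      simp only [dotProduct] at h1
      simp only [cn, pow_two]
      exact h1
  constructor
  · intro i
    obtain ⟨f, hf, hfi, hfs⟩ := main (emb i)
    have h := (cutc_core V Φ hF ω hω f hf).1 i
    rw [hfi, hfs] at h
    have hC : 0 ≤ cn Φ i + tau V ω i ^ 2 :=
      add_nonneg (Finset.sum_nonneg fun k _ => sq_nonneg _) (sq_nonneg _)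
    have hc : 0 ≤ cn Ψ (emb i) := Finset.sum_nonneg fun k _ => sq_nonneg _
    rcases hc.eq_or_lt with h0 | h0
    · rw [← h0]; positivity
    · have : cn Ψ (emb i) * cn Ψ (emb i) ≤
          (9/4 * (cn Φ i + tau V ω i ^ 2)) * cn Ψ (emb i) := by nlinarith
      exact le_of_mul_le_mul_right this h0
  · obtain ⟨f, hf, hfi, hfs⟩ := main (Sum.inr (Fin.last K))
    have h := (cutc_core V Φ hF ω hω f hf).2
    rw [hfi, hfs] at h
    have hc : 0 ≤ cn Ψ (Sum.inr (Fin.last K)) := Finset.sum_nonneg fun k _ => sq_nonneg _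
    rcases hc.eq_or_lt with h0 | h0
    · rw [← h0]; norm_num
    · have : cn Ψ (Sum.inr (Fin.last K)) * cn Ψ (Sum.inr (Fin.last K)) ≤
          (1/65) * cn Ψ (Sum.inr (Fin.last K)) := by nlinarith
      exact le_of_mul_le_mul_right this h0

end Pool.LH73
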