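import Pool.Agent.Work.MP_1c7b0d_lh73.Interface

/-!
Block DEF1 of the L'huilier project (row MP_1c7b0d_gt), helper65.
-/

open MeasureTheory Matrix Pool.LH60
open scoped BigOperators

namespace Pool.LH73

namespace DEF1

variable {ι : Type} [Fintype ι] [DecidableEq ι] {K : ℕ}

theorem orth (Φ : Matrix ι (Fin K) ℝ) (h : Φᵀ * Φ = 1) (k l : Fin K) :
    ∑ j, Φ j k * Φ j l = if k = l then 1 else 0 := by
  have h1 := congrFun (congrFun h k) l
  rw [Matrix.mul_apply] at h1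
  simpa [Matrix.transpose_apply, Matrix.one_apply] using h1

theorem pp_symm (Φ : Matrix ι (Fin K) ℝ) (i j : ι) : pp Φ i j = pp Φ j i := by
  unfold pp
  exact Finset.sum_congr rfl fun k _ => mul_comm _ _

theorem sum_sq (Φ : Matrix ι (Fin K) ℝ) (h : Φᵀ * Φ = 1) (i : ι) :
    ∑ j, (pp Φ i j)^2 = cn Φ i := by
  have h1 : ∀ j, (pp Φ i j)^2 = ∑ k, ∑ l, Φ i k * Φ i l * (Φ j k * Φ j l) := by
    intro j
    unfold pp
    rw [sq, Finset.sum_mul_sum]
    refine Finset.sum_congr rfl fun k _ => Finset.sum_congr rfl fun l _ => ?_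
    ring
  calc ∑ j, (pp Φ i j)^2 = ∑ j, ∑ k, ∑ l, Φ i k * Φ i l * (Φ j k * Φ j l) :=
        Finset.sum_congr rfl fun j _ => h1 j
    _ = ∑ k, ∑ l, Φ i k * Φ i l * ∑ j, Φ j k * Φ j l := by
        rw [Finset.sum_comm]
        refine Finset.sum_congr rfl fun k _ => ?_
        rw [Finset.sum_comm]
        refine Finset.sum_congr rfl fun l _ => ?_
        rw [Finset.mul_sum]
    _ = ∑ k, ∑ l, Φ i k * Φ i l * (if k = l then 1 else 0) :=
        Finset.sum_congr rfl fun k _ => Finset.sum_congr rfl fun l _ => by rw [orth Φ h k l]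
    _ = ∑ k, Φ i k * Φ i k := by
        refine Finset.sum_congr rfl fun k _ => ?_
        rw [Finset.sum_eq_single k]
        · simp
        · intro l _ hl
          rw [if_neg (Ne.symm hl), mul_zero]
        · intro hk
          exact absurd (Finset.mem_univ k) hk
    _ = cn Φ i := by
        unfold cn
        exact Finset.sum_congr rfl fun k _ => by rw [sq]

theorem pp_self (Φ : Matrix ι (Fin K) ℝ) (i : ι) : pp Φ i i = cn Φ i := by
  unfold pp cn
  exact Finset.sum_congr rfl fun k _ => by rw [sq]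

theorem dist_eq (Φ : Matrix ι (Fin K) ℝ) (i j : ι) :
    cn Φ i + cn Φ j - 2 * pp Φ i j = ∑ k, (Φ i k - Φ j k)^2 := by
  unfold cn pp
  rw [Finset.mul_sum, ← Finset.sum_add_distrib, ← Finset.sum_sub_distrib]
  exact Finset.sum_congr rfl fun k _ => by ring

theorem dfc_eq (Φ : Matrix ι (Fin K) ℝ) (h : Φᵀ * Φ = 1) :
    Dfc Φ = (∑ i, ∑ j, (pp Φ i j)^2 * (cn Φ i + cn Φ j - 2 * pp Φ i j)) / 2 := by
  have h1 : ∑ i, ∑ j, (pp Φ i j)^2 * cn Φ i = ∑ i, (cn Φ i)^2 := by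
    refine Finset.sum_congr rfl fun i _ => ?_
    rw [← Finset.sum_mul, sum_sq Φ h i, sq]
  have h2 : ∑ i, ∑ j, (pp Φ i j)^2 * cn Φ j = ∑ i, (cn Φ i)^2 := by
    rw [Finset.sum_comm]
    refine Finset.sum_congr rfl fun j _ => ?_
    rw [← Finset.sum_mul]
    have : ∑ i, (pp Φ i j)^2 = cn Φ j := by
      rw [← sum_sq Φ h j]
      exact Finset.sum_congr rfl fun i _ => by rw [pp_symm Φ i j]
    rw [this, sq]
  have h3 : ∑ i, ∑ j, (pp Φ i j)^2 * (cn Φ i + cn Φ j - 2 * pp Φ i j)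
      = ∑ i, ∑ j, (pp Φ i j)^2 * cn Φ i + ∑ i, ∑ j, (pp Φ i j)^2 * cn Φ j
        - 2 * ∑ i, ∑ j, (pp Φ i j)^3 := by
    rw [Finset.mul_sum, ← Finset.sum_add_distrib, ← Finset.sum_sub_distrib]
    refine Finset.sum_congr rfl fun i _ => ?_
    rw [Finset.mul_sum, ← Finset.sum_add_distrib, ← Finset.sum_sub_distrib]
    exact Finset.sum_congr rfl fun j _ => by ring
  rw [h3, h1, h2]
  unfold Dfc
  ring

end DEF1

theorem DEF1_thm : Stmt_DEF1 := by
  intro ι _ _ K Φ h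
  have hs : ∀ i, ∑ j, (pp Φ i j)^2 = cn Φ i := DEF1.sum_sq Φ h
  have h0 : ∀ i, 0 ≤ cn Φ i := fun i => Finset.sum_nonneg fun k _ => sq_nonneg _
  have h1 : ∀ i, cn Φ i ≤ 1 := by
    intro i
    have h2 : (cn Φ i)^2 ≤ cn Φ i := by
      rw [← hs i]
      have h3 : (pp Φ i i)^2 ≤ ∑ j, (pp Φ i j)^2 :=
        Finset.single_le_sum (f := fun j => (pp Φ i j)^2) (fun j _ => sq_nonneg _)
          (Finset.mem_univ i)
      rw [DEF1.pp_self] at h3
      rw [hs i] at h3
      rw [hs i]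
      exact h3
    by_contra hc
    push Not at hc
    nlinarith [h0 i]
  have hd := DEF1.dfc_eq Φ h
  refine ⟨hs, ?_, fun i => ⟨h0 i, h1 i⟩, DEF1.dist_eq Φ, hd, ?_⟩
  · unfold cn
    rw [Finset.sum_comm]
    have : ∀ k : Fin K, ∑ i, Φ i k ^ 2 = 1 := by
      intro k
      have h4 := DEF1.orth Φ h k k
      rw [if_pos rfl] at h4
      rw [← h4]
      exact Finset.sum_congr rfl fun i _ => by rw [sq]
    rw [Finset.sum_congr rfl fun k _ => this k]
    simp
  · rw [hd]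
    refine div_nonneg (Finset.sum_nonneg fun i _ => Finset.sum_nonneg fun j _ => ?_) (by norm_num)
    rw [DEF1.dist_eq]
    exact mul_nonneg (sq_nonneg _) (Finset.sum_nonneg fun k _ => sq_nonneg _)

end Pool.LH73
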