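import Pool.Agent.Work.MP_1c7b0d_lh73.Interface

/-!
Block DEF2 of the L'huilier project (row MP_1c7b0d_gt), helper65.
-/

open MeasureTheory Matrix Pool.LH60
open scoped BigOperators

namespace Pool.LH73

namespace DEF2

theorem proj {d K : ℕ} (V : Matrix (Ix d K) (Fin d) ℝ) (Φ : Matrix (Ix d K) (Fin K) ℝ)
    (h : IsoFrame V Φ) : V * Vᵀ + Φ * Φᵀ = 1 := by
  obtain ⟨h1, h2, h3⟩ := h
  have h4 : Vᵀ * Φ = 0 := by
    have := congrArg Matrix.transpose h3
    rwa [Matrix.transpose_mul, Matrix.transpose_transpose, Matrix.transpose_zero] at this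
  have hW : Matrix.fromRows Vᵀ Φᵀ * Matrix.fromCols V Φ
      = (1 : Matrix (Fin d ⊕ Fin K) (Fin d ⊕ Fin K) ℝ) := by
    rw [Matrix.fromRows_mul_fromCols, h1, h2, h3, h4, Matrix.fromBlocks_one]
  have hW2 : Matrix.fromCols V Φ * Matrix.fromRows Vᵀ Φᵀ = 1 := mul_eq_one_comm.mp hW
  rwa [Matrix.fromCols_mul_fromRows] at hW2

/-- Parseval -/
theorem pars {d K : ℕ} (V : Matrix (Ix d K) (Fin d) ℝ) (Φ : Matrix (Ix d K) (Fin K) ℝ)
    (h : IsoFrame V Φ) (w : Ix d K → ℝ) :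
    ∑ k, (∑ i, w i * V i k)^2 = ∑ i, (w i)^2 - ∑ c, (∑ i, w i * Φ i c)^2 := by
  have hp := proj V Φ h
  have e : ∀ i j, ∑ k, V i k * V j k + ∑ c, Φ i c * Φ j c = if i = j then 1 else 0 := by
    intro i j
    have h1 := congrFun (congrFun hp i) j
    rw [Matrix.add_apply, Matrix.mul_apply, Matrix.mul_apply] at h1
    simpa [Matrix.transpose_apply, Matrix.one_apply] using h1
  have expand : ∀ (m : ℕ) (M : Matrix (Ix d K) (Fin m) ℝ),
      ∑ k, (∑ i, w i * M i k)^2 = ∑ i, ∑ j, w i * w j * ∑ k, M i k * M j k := by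
    intro m M
    calc ∑ k, (∑ i, w i * M i k)^2 = ∑ k, ∑ i, ∑ j, w i * w j * (M i k * M j k) := by
          refine Finset.sum_congr rfl fun k _ => ?_
          rw [sq, Finset.sum_mul_sum]
          refine Finset.sum_congr rfl fun i _ => Finset.sum_congr rfl fun j _ => ?_
          ring
      _ = ∑ i, ∑ j, w i * w j * ∑ k, M i k * M j k := by
          rw [Finset.sum_comm]
          refine Finset.sum_congr rfl fun i _ => ?_
          rw [Finset.sum_comm]
          refine Finset.sum_congr rfl fun j _ => ?_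
          rw [Finset.mul_sum]
  rw [expand, expand, eq_sub_iff_add_eq, ← Finset.sum_add_distrib]
  refine Finset.sum_congr rfl fun i _ => ?_
  rw [← Finset.sum_add_distrib, Finset.sum_eq_single i]
  · rw [← mul_add, e i i, if_pos rfl, mul_one, sq]
  · intro j _ hj
    rw [← mul_add, e i j, if_neg (Ne.symm hj), mul_zero]
  · intro hi
    exact absurd (Finset.mem_univ i) hi

end DEF2

theorem DEF2_thm : Stmt_DEF2 := by
  intro d K V Φ h
  have h1 : ∀ a b, ∑ k, (∑ i, Φ i a * Φ i b * V i k)^2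
      = ∑ i, (Φ i a * Φ i b)^2 - ∑ c, (∑ i, Φ i a * Φ i b * Φ i c)^2 := fun a b =>
    DEF2.pars V Φ h (fun i => Φ i a * Φ i b)
  have h2 : ∑ a, ∑ b, ∑ i, (Φ i a * Φ i b)^2 = ∑ i, (cn Φ i)^2 := by
    have : ∀ a, ∑ b, ∑ i, (Φ i a * Φ i b)^2 = ∑ i, ∑ b, (Φ i a * Φ i b)^2 := fun a =>
      Finset.sum_comm
    rw [Finset.sum_congr rfl fun a _ => this a, Finset.sum_comm]
    refine Finset.sum_congr rfl fun i _ => ?_
    unfold cn
    rw [sq (∑ a, Φ i a ^ 2), Finset.sum_mul_sum]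
    refine Finset.sum_congr rfl fun a _ => Finset.sum_congr rfl fun b _ => ?_
    ring
  have h3 : ∑ a, ∑ b, ∑ c, (∑ i, Φ i a * Φ i b * Φ i c)^2 = ∑ i, ∑ j, (pp Φ i j)^3 := by
    have e1 : ∀ a b c, (∑ i, Φ i a * Φ i b * Φ i c)^2
        = ∑ i, ∑ j, (Φ i a * Φ j a) * (Φ i b * Φ j b) * (Φ i c * Φ j c) := by
      intro a b c
      rw [sq, Finset.sum_mul_sum]
      refine Finset.sum_congr rfl fun i _ => Finset.sum_congr rfl fun j _ => ?_
      ring
    have e2 : ∀ i j, (pp Φ i j)^3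
        = ∑ a, ∑ b, ∑ c, (Φ i a * Φ j a) * (Φ i b * Φ j b) * (Φ i c * Φ j c) := by
      intro i j
      have : (pp Φ i j)^3 = (pp Φ i j * pp Φ i j) * pp Φ i j := by ring
      rw [this]
      unfold pp
      rw [Finset.sum_mul_sum, Finset.sum_mul]
      refine Finset.sum_congr rfl fun a _ => ?_
      rw [Finset.sum_mul]
      refine Finset.sum_congr rfl fun b _ => ?_
      rw [Finset.mul_sum]
    simp_rw [e1, e2]
    calc ∑ a, ∑ b, ∑ c, ∑ i, ∑ j, (Φ i a * Φ j a) * (Φ i b * Φ j b) * (Φ i c * Φ j c)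
        = ∑ a, ∑ b, ∑ i, ∑ j, ∑ c, (Φ i a * Φ j a) * (Φ i b * Φ j b) * (Φ i c * Φ j c) := by
          refine Finset.sum_congr rfl fun a _ => Finset.sum_congr rfl fun b _ => ?_
          rw [Finset.sum_comm]
          exact Finset.sum_congr rfl fun i _ => Finset.sum_comm
      _ = ∑ a, ∑ i, ∑ j, ∑ b, ∑ c, (Φ i a * Φ j a) * (Φ i b * Φ j b) * (Φ i c * Φ j c) := by
          refine Finset.sum_congr rfl fun a _ => ?_
          rw [Finset.sum_comm]
          exact Finset.sum_congr rfl fun i _ => Finset.sum_comm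
      _ = ∑ i, ∑ j, ∑ a, ∑ b, ∑ c, (Φ i a * Φ j a) * (Φ i b * Φ j b) * (Φ i c * Φ j c) := by
          rw [Finset.sum_comm]
          exact Finset.sum_congr rfl fun i _ => Finset.sum_comm
  unfold Dfc
  simp_rw [h1, Finset.sum_sub_distrib]
  rw [h2, h3]

end Pool.LH73
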