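import Pool.Agent.Work.MP_1c7b0d_lh73.Interface

/-!
Block DETC of `lhn_blocks` (row MP_1c7b0d_gt), helper43: the convexity gain at the class sizes.
-/

open MeasureTheory Matrix Pool.LH60
open scoped BigOperators

namespace Pool.LH73

theorem DETC_thm (hRHO : Stmt_RHO) (hFRI : Stmt_FRI) : Stmt_DETC := by
  intro d K U Φ a hK hU hF hsz
  obtain ⟨hid, hpd, hsum, hnn, hrow⟩ := hFRI d K U Φ hF
  have hrow := hrow hU
  have hs2 : ∀ b, (2:ℝ) ≤ msz a b := fun b => by exact_mod_cast hsz b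
  have hq0 : ∀ b, 0 ≤ 1 / (msz a b : ℝ) := fun b => by positivity
  have hq1 : ∀ b, 1 / (msz a b : ℝ) < 1 := fun b => by
    rw [div_lt_one (by linarith [hs2 b])]; linarith [hs2 b]
  -- pointwise
  have hpt : ∀ i, (1 - 1 / (msz a (a i) : ℝ)) * Real.log (1 - 1 / (msz a (a i) : ℝ))
      - (Real.log (1 - 1 / (msz a (a i) : ℝ)) + 1) * (cn Φ i - 1 / (msz a (a i) : ℝ))
      + (cn Φ i - 1 / (msz a (a i) : ℝ))^2 / 2 ≤ (1 - cn Φ i) * Real.log (1 - cn Φ i) := by
    intro i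
    by_cases h : cn Φ i = 1 / (msz a (a i) : ℝ)
    · rw [h]; simp
    · exact (hRHO (cn Φ i) (1 / (msz a (a i) : ℝ)) (hnn i) (hrow i).1 (hq0 _) (hq1 _) h).le
  have hS := Finset.sum_le_sum (fun i (_ : i ∈ (Finset.univ : Finset (Ix d K))) => hpt i)
  refine le_trans (le_of_eq ?_) hS
  rw [Finset.sum_add_distrib, ← Finset.sum_div]
  congr 1
  -- group by classes
  have hgrp : ∀ f : Ix d K → ℝ, ∑ i, f i = ∑ b, ∑ i ∈ fib a b, f i := by
    intro f
    exact (Finset.sum_fiberwise Finset.univ a f).symm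
  rw [hgrp]
  have hb : ∀ b, ∑ i ∈ fib a b, ((1 - 1 / (msz a (a i) : ℝ)) * Real.log (1 - 1 / (msz a (a i) : ℝ))
      - (Real.log (1 - 1 / (msz a (a i) : ℝ)) + 1) * (cn Φ i - 1 / (msz a (a i) : ℝ)))
      = ((msz a b : ℝ) - 1) * Real.log (1 - 1/(msz a b : ℝ))
        - (Real.log (1 - 1/(msz a b : ℝ)) + 1) * (Cc Φ a b - 1) := by
    intro b
    have h0 : (msz a b : ℝ) ≠ 0 := by linarith [hs2 b]
    have h1 : ∀ i ∈ fib a b, ((1 - 1 / (msz a (a i) : ℝ)) * Real.log (1 - 1 / (msz a (a i) : ℝ))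
      - (Real.log (1 - 1 / (msz a (a i) : ℝ)) + 1) * (cn Φ i - 1 / (msz a (a i) : ℝ)))
      = ((1 - 1 / (msz a b : ℝ)) * Real.log (1 - 1 / (msz a b : ℝ))
      - (Real.log (1 - 1 / (msz a b : ℝ)) + 1) * (cn Φ i - 1 / (msz a b : ℝ))) := by
      intro i hi
      have : a i = b := by simpa [fib] using hi
      rw [this]
    rw [Finset.sum_congr rfl h1, Finset.sum_sub_distrib,
      ← Finset.mul_sum (fib a b) (fun i => cn Φ i - 1 / (msz a b : ℝ)), Finset.sum_sub_distrib,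
      Finset.sum_const, Finset.sum_const, nsmul_eq_mul, nsmul_eq_mul]
    have h2 : ((fib a b).card : ℝ) = msz a b := rfl
    rw [h2]
    have h3 : ∑ i ∈ fib a b, cn Φ i = Cc Φ a b := rfl
    rw [h3]
    have h4 : (msz a b : ℝ) * (1 / (msz a b : ℝ)) = 1 := by field_simp
    rw [h4, ← mul_assoc]
    have h5 : (msz a b : ℝ) * (1 - 1 / (msz a b : ℝ)) = msz a b - 1 := by field_simp
    rw [h5]
  rw [Finset.sum_congr rfl fun b _ => hb b, Finset.sum_sub_distrib]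
  congr 1
  have hC : ∑ b, (Cc Φ a b - 1) = 0 := by
    rw [Finset.sum_sub_distrib]
    have : ∑ b, Cc Φ a b = K := by
      rw [← hsum, hgrp]
      rfl
    rw [this]
    simp
  have : ∀ b, (Real.log (1 - 1/(msz a b : ℝ)) + 1) * (Cc Φ a b - 1)
      = Real.log (1 - 1/(msz a b : ℝ)) * (Cc Φ a b - 1) + (Cc Φ a b - 1) := fun b => by ring
  rw [Finset.sum_congr rfl fun b _ => this b, Finset.sum_add_distrib, hC, add_zero]

end Pool.LH73
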