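import Pool.Agent.Work.MP_1c7b0d_lh73.Interface
import Pool.Agent.Work.MP_1c7b0d_lh60.SPEC

/-! EIGX (helper58): spectral theorem. -/

open MeasureTheory Matrix Pool.LH60
open scoped BigOperators

namespace Pool.LH73

theorem EIGX_thm : Stmt_EIGX := by
  intro K D hD
  obtain ⟨Q, e, h1, -, h3, h4⟩ := Pool.LH60.SPEC.spectral D hD
  exact ⟨e, Q, ⟨h1, h4, h3⟩⟩

end Pool.LH73
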