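import Pool.Agent.Work.MP_1c7b0d_lh73.Interface

set_option autoImplicit false

open MeasureTheory Matrix Pool.LH60
open scoped BigOperators

namespace Pool.LH73

/-- second order bound for `L(u) = ((u-1)/2) log (1 - 1/u) + u` -/
theorem epz_L (m x : ℝ) (hm : 2 < m) (hx : m - 1 ≤ x) :
    (x - 1) / 2 * Real.log (1 - 1 / x) + x ≤
      (m - 1) / 2 * Real.log (1 - 1 / m) + m
        + (1/2 * Real.log (1 - 1/m) + 1 / (2*m) + 1) * (x - m)
        + (x - m)^2 / (2 * x * m * (m - 1)) := by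
  have hx1 : 1 < x := by linarith
  have hx0 : 0 < x := by linarith
  have hm0 : 0 < m := by linarith
  have hm1 : 0 < m - 1 := by linarith
  have hx11 : 0 < x - 1 := by linarith
  have h1 : 1 - 1 / x = (x-1)/x := by field_simp
  have h2 : 1 - 1 / m = (m-1)/m := by field_simp
  have h3 : Real.log ((x-1)/x) - Real.log ((m-1)/m) ≤ (x - m) / (x * (m-1)) := by
    rw [← Real.log_div (by positivity) (by positivity)]
    have h4 := Real.log_le_sub_one_of_pos (show 0 < ((x-1)/x) / ((m-1)/m) by positivity)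
    have h5 : ((x-1)/x) / ((m-1)/m) - 1 = (x - m) / (x * (m-1)) := by
      field_simp
      ring
    linarith
  rw [h1, h2]
  have h6 : (x-1)/2 * (Real.log ((x-1)/x) - Real.log ((m-1)/m)) ≤
      (x-1)/2 * ((x - m) / (x * (m-1))) :=
    mul_le_mul_of_nonneg_left h3 (by linarith)
  have h7 : (x-1)/2 * ((x - m) / (x * (m-1))) =
      (x - m)/(2*m) + (x - m)^2 / (2 * x * m * (m - 1)) := by
    field_simp
    ring
  rw [h7] at h6
  have h8 : (1/2 * Real.log ((m-1)/m) + 1 / (2*m) + 1) * (x - m) =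
      Real.log ((m-1)/m) / 2 * (x - m) + (x - m)/(2*m) + (x - m) := by ring
  rw [h8]
  linarith

theorem EPZ_thm (hSVM : Stmt_SVM) (hGM3 : Stmt_GM3) : Stmt_EPZ := by
  intro d K hK hd
  unfold Vne
  obtain ⟨q, hq⟩ : ∃ q, q = d / K := ⟨_, rfl⟩
  obtain ⟨r, hr⟩ : ∃ r, r = d % K := ⟨_, rfl⟩
  rw [← hq, ← hr]
  have hdq : K * q + r = d := by rw [hq, hr]; exact Nat.div_add_mod d K
  have hrK : r < K := by rw [hr]; exact Nat.mod_lt _ hK
  have hq10 : 10 ≤ q := by rw [hq]; exact (Nat.le_div_iff_mul_le hK).mpr hd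
  obtain ⟨hp1, hl1⟩ := hSVM (q+1) (by omega)
  obtain ⟨hp2, hl2⟩ := hSVM (q+2) (by omega)
  have e1 : q + 1 - 1 = q := by omega
  have e2 : q + 2 - 1 = q + 1 := by omega
  rw [e1] at hp1 hl1
  rw [e2] at hp2 hl2
  refine ⟨mul_pos (pow_pos hp1 _) (pow_pos hp2 _), ?_⟩
  rw [Real.log_mul (pow_pos hp1 _).ne' (pow_pos hp2 _).ne', Real.log_pow, Real.log_pow, hl1, hl2]
  have hKR : (0:ℝ) < K := by exact_mod_cast hK
  have hrR : (0:ℝ) ≤ r := Nat.cast_nonneg r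
  have hrKR : (r:ℝ) ≤ K := by exact_mod_cast hrK.le
  have hqR : (10:ℝ) ≤ q := by exact_mod_cast hq10
  have hdR : (d:ℝ) = K * q + r := by exact_mod_cast hdq.symm
  have hsub : ((K - r : ℕ) : ℝ) = (K:ℝ) - r := by
    rw [Nat.cast_sub hrK.le]
  rw [hsub]
  obtain ⟨m, hm⟩ : ∃ m, m = ((d:ℝ) + K) / K := ⟨_, rfl⟩
  have hmK : m * K = d + K := by rw [hm]; field_simp
  have hm1 : m = (q:ℝ) + 1 + r / K := by
    rw [hm, hdR]; field_simp; ring
  have hrk0 : 0 ≤ (r:ℝ) / K := div_nonneg hrR hKR.le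
  have hrk1 : (r:ℝ) / K ≤ 1 := by rw [div_le_one hKR]; exact hrKR
  have hm11 : 11 ≤ m := by rw [hm1]; linarith
  have hdn : 1 - 1 / m = (d:ℝ) / ((d:ℝ) + K) := by
    rw [hm]
    have hnpos : (0:ℝ) < (d:ℝ) + K := by positivity
    field_simp
    ring
  obtain ⟨p, -, -, hT⟩ := hGM3 m (by linarith)
  have hT1 := (hT ((q:ℝ) + 1) (by positivity)).1
  have hT2 := (hT ((q:ℝ) + 2) (by positivity)).1
  have hx1 : m - 1 ≤ (q:ℝ) + 1 := by rw [hm1]; linarith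
  have hx2 : m - 1 ≤ (q:ℝ) + 2 := by rw [hm1]; linarith
  have hE1 := epz_L m ((q:ℝ) + 1) (by linarith) hx1
  have hE2 := epz_L m ((q:ℝ) + 2) (by linarith) hx2
  have hm1pos : 0 < m - 1 := by linarith
  have hm0 : 0 < m := by linarith
  -- remainders
  have hR : ∀ x : ℝ, m - 1 ≤ x → (x - m)^2 / (2 * x * m * (m - 1)) ≤
      (x - m)^2 / (2 * (m - 1) * m * (m - 1)) := by
    intro x hx
    apply div_le_div_of_nonneg_left (sq_nonneg _) (by positivity)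
    have : 2 * (m - 1) * m ≤ 2 * x * m := by nlinarith
    nlinarith
  have hR1 := hR _ hx1
  have hR2 := hR _ hx2
  have hd1 : (q:ℝ) + 1 - m = - (r / K) := by rw [hm1]; ring
  have hd2 : (q:ℝ) + 2 - m = 1 - r / K := by rw [hm1]; ring
  obtain ⟨θ, hθ⟩ : ∃ θ, θ = (r:ℝ) / K := ⟨_, rfl⟩
  have hrθ : (r:ℝ) = θ * K := by rw [hθ]; field_simp
  rw [← hθ] at hd1 hd2 hrk0 hrk1
  have hsum : ((K:ℝ) - r) * (((q:ℝ) + 1 - m)^2 / (2 * (m - 1) * m * (m - 1))) +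
      r * (((q:ℝ) + 2 - m)^2 / (2 * (m - 1) * m * (m - 1))) ≤ (K:ℝ) / (2 * m^3) := by
    rw [hd1, hd2, hrθ]
    have h1 : ((K:ℝ) - θ * K) * ((-θ)^2 / (2 * (m - 1) * m * (m - 1))) +
      θ * K * ((1 - θ)^2 / (2 * (m - 1) * m * (m - 1))) =
        K * (θ * (1 - θ)) / (2 * (m - 1) * m * (m - 1)) := by
      field_simp
      ring
    rw [h1, div_le_div_iff₀ (by positivity) (by positivity)]
    have h2 : θ * (1 - θ) ≤ 1 / 4 := by nlinarith [sq_nonneg (θ - 1/2)]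
    have h3 : m^2 ≤ 4 * (m-1)^2 := by nlinarith
    have h4 : K * (θ * (1 - θ)) ≤ K * (1/4) := mul_le_mul_of_nonneg_left h2 hKR.le
    have h5 : 0 ≤ 2 * m^3 := by positivity
    calc K * (θ * (1 - θ)) * (2 * m^3) ≤ K * (1/4) * (2 * m^3) :=
          mul_le_mul_of_nonneg_right h4 h5
      _ = (K * m / 2) * m^2 := by ring
      _ ≤ (K * m / 2) * (4 * (m-1)^2) := mul_le_mul_of_nonneg_left h3 (by positivity)
      _ = K * (2 * (m - 1) * m * (m - 1)) := by ring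
  -- assembly
  have hKr : 0 ≤ (K:ℝ) - r := by linarith
  obtain ⟨A, hA⟩ : ∃ A, A = (m - 1) / 2 * Real.log (1 - 1 / m) + m := ⟨_, rfl⟩
  obtain ⟨S, hS⟩ : ∃ S, S = 1/2 * Real.log (1 - 1/m) + 1 / (2*m) + 1 := ⟨_, rfl⟩
  rw [← hA, ← hS] at hE1 hE2
  have hF1 : ((q:ℝ) + 1 - 1) / 2 * Real.log (1 - 1 / ((q:ℝ) + 1)) + ((q:ℝ) + 1)
      - Real.log (2 * Real.pi) / 2 - mu ((q:ℝ) + 1) ≤
      A + (S - p) * ((q:ℝ) + 1 - m) + ((q:ℝ) + 1 - m)^2 / (2 * (m - 1) * m * (m - 1))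
        - Real.log (2 * Real.pi) / 2 - mu m := by linarith
  have hF2 : ((q:ℝ) + 2 - 1) / 2 * Real.log (1 - 1 / ((q:ℝ) + 2)) + ((q:ℝ) + 2)
      - Real.log (2 * Real.pi) / 2 - mu ((q:ℝ) + 2) ≤
      A + (S - p) * ((q:ℝ) + 2 - m) + ((q:ℝ) + 2 - m)^2 / (2 * (m - 1) * m * (m - 1))
        - Real.log (2 * Real.pi) / 2 - mu m := by linarith
  have hG1 := mul_le_mul_of_nonneg_left hF1 hKr
  have hG2 := mul_le_mul_of_nonneg_left hF2 hrR
  have hlin : ((K:ℝ) - r) * ((q:ℝ) + 1 - m) + r * ((q:ℝ) + 2 - m) = 0 := by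
    rw [hd1, hd2, hrθ]; ring
  have hKA : K * A = (d:ℝ) / 2 * Real.log ((d:ℝ) / ((d:ℝ) + K)) + (d + K) := by
    rw [hA, hdn]
    have : (K:ℝ) * ((m - 1) / 2 * Real.log ((d:ℝ) / ((d:ℝ) + K)) + m) =
      (m * K - K) / 2 * Real.log ((d:ℝ) / ((d:ℝ) + K)) + m * K := by ring
    rw [this, hmK]
    ring
  unfold Nd
  rw [← hm]
  push_cast
  have hfin : ((K:ℝ) - r) * (A + (S - p) * ((q:ℝ) + 1 - m)
      + ((q:ℝ) + 1 - m)^2 / (2 * (m - 1) * m * (m - 1)) - Real.log (2 * Real.pi) / 2 - mu m) +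
      r * (A + (S - p) * ((q:ℝ) + 2 - m)
      + ((q:ℝ) + 2 - m)^2 / (2 * (m - 1) * m * (m - 1)) - Real.log (2 * Real.pi) / 2 - mu m) =
      K * A + (S - p) * (((K:ℝ) - r) * ((q:ℝ) + 1 - m) + r * ((q:ℝ) + 2 - m)) +
      (((K:ℝ) - r) * (((q:ℝ) + 1 - m)^2 / (2 * (m - 1) * m * (m - 1))) +
      r * (((q:ℝ) + 2 - m)^2 / (2 * (m - 1) * m * (m - 1)))) -
      K / 2 * Real.log (2 * Real.pi) - K * mu m := by ring
  rw [hlin, hKA] at hfin
  linarith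

end Pool.LH73
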