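import Pool.Agent.Work.MP_1c7b0d_lh73.Interface

/-! EXIG: existence of the product of near equal regular simplices. -/

set_option autoImplicit false

open MeasureTheory Matrix Pool.LH60
open scoped BigOperators

namespace Pool.LH73

namespace EXIG

/-- the columns of `[B|Φ]` are an orthonormal basis -/
theorem complete {d K : ℕ} (B : Matrix (Ix d K) (Fin d) ℝ) (Φ : Matrix (Ix d K) (Fin K) ℝ)
    (h1 : Bᵀ * B = 1) (h2 : Bᵀ * Φ = 0) (h3 : Φᵀ * Φ = 1) : B * Bᵀ + Φ * Φᵀ = 1 := by
  have h4 : Φᵀ * B = 0 := by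
    have : (Bᵀ * Φ)ᵀ = 0 := by rw [h2]; rfl
    rwa [transpose_mul, transpose_transpose] at this
  have h5 : (fromCols B Φ)ᵀ * fromCols B Φ = 1 := by
    rw [transpose_fromCols, fromRows_mul_fromCols, h1, h2, h3, h4, fromBlocks_one]
  have h6 : fromCols B Φ * (fromCols B Φ)ᵀ = 1 := mul_eq_one_comm.1 h5
  rwa [transpose_fromCols, fromCols_mul_fromRows] at h6

/-- a labelling with near equal classes -/
theorem exists_lab (d K : ℕ) (hK : 1 ≤ K) : ∃ p : Ix d K → Fin K,
    ∀ b, msz p b = d / K + 1 ∨ msz p b = d / K + 2 := by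
  have hK0 : 0 < K := hK
  refine ⟨fun i => ⟨(finSumFinEquiv i : Fin (d + K)).val % K, Nat.mod_lt _ hK0⟩, fun b => ?_⟩
  have h1 : msz (fun i : Ix d K => (⟨(finSumFinEquiv i : Fin (d + K)).val % K,
      Nat.mod_lt _ hK0⟩ : Fin K)) b =
      (Finset.univ.filter (fun x : Fin (d + K) => x.val % K = b.val)).card := by
    unfold msz fib
    refine Finset.card_bij (fun i _ => finSumFinEquiv i) ?_ ?_ ?_
    · intro i hi
      have := (Finset.mem_filter.1 hi).2
      refine Finset.mem_filter.2 ⟨Finset.mem_univ _, ?_⟩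
      exact congrArg Fin.val this
    · intro i _ j _ h
      exact finSumFinEquiv.injective h
    · intro x hx
      refine ⟨finSumFinEquiv.symm x, Finset.mem_filter.2 ⟨Finset.mem_univ _, ?_⟩, by simp⟩
      apply Fin.ext
      simpa using (Finset.mem_filter.1 hx).2
  have h2 : (Finset.univ.filter (fun x : Fin (d + K) => x.val % K = b.val)).card =
      Nat.count (fun x => x ≡ b.val [MOD K]) (d + K) := by
    rw [Nat.count_eq_card_filter_range]
    refine Finset.card_bij (fun x _ => x.val) ?_ ?_ ?_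
    · intro x hx
      refine Finset.mem_filter.2 ⟨Finset.mem_range.2 x.2, ?_⟩
      have := (Finset.mem_filter.1 hx).2
      show x.val % K = b.val % K
      rw [this, Nat.mod_eq_of_lt b.2]
    · intro x _ y _ h
      exact Fin.ext h
    · intro y hy
      obtain ⟨hy1, hy2⟩ := Finset.mem_filter.1 hy
      refine ⟨⟨y, Finset.mem_range.1 hy1⟩, Finset.mem_filter.2 ⟨Finset.mem_univ _, ?_⟩, rfl⟩
      have h3 : y % K = b.val % K := hy2
      rw [Nat.mod_eq_of_lt b.2] at h3
      exact h3
  rw [h1, h2, Nat.count_modEq_card (d + K) hK0, Nat.add_div_right _ hK0]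
  split_ifs
  · right; rfl
  · left; rfl

end EXIG

theorem EXIG_thm (hONC : Stmt_ONC) : Stmt_EXIG := by
  intro d K hK hKd
  obtain ⟨p, hp⟩ := EXIG.exists_lab d K hK
  have hdK : 1 ≤ d / K := (Nat.one_le_div_iff hK).2 hKd
  have hm2 : ∀ b, 2 ≤ msz p b := fun b => by rcases hp b with h | h <;> omega
  have hmr : ∀ b, (2 : ℝ) ≤ (msz p b : ℝ) := fun b => by exact_mod_cast hm2 b
  obtain ⟨s, hs⟩ : ∃ s : Fin K → ℝ, ∀ b, s b * s b = 1 / (msz p b : ℝ) := by
    refine ⟨fun b => 1 / Real.sqrt (msz p b : ℝ), fun b => ?_⟩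
    show 1 / Real.sqrt (msz p b : ℝ) * (1 / Real.sqrt (msz p b : ℝ)) = _
    rw [div_mul_div_comm, Real.mul_self_sqrt (by have := hmr b; linarith), one_mul]
  obtain ⟨Φ, hΦ⟩ : ∃ Φ : Matrix (Ix d K) (Fin K) ℝ,
      ∀ i a, Φ i a = if p i = a then s a else 0 :=
    ⟨Matrix.of fun i a => if p i = a then s a else 0, fun _ _ => rfl⟩
  have hΦ1 : Φᵀ * Φ = 1 := by
    ext a b
    rw [mul_apply]
    simp only [transpose_apply, hΦ, one_apply]
    by_cases hab : a = b
    · subst hab
      rw [if_pos rfl]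
      have h1 : ∀ i, ((if p i = a then s a else 0) * (if p i = a then s a else 0) : ℝ) =
          if p i = a then 1 / (msz p a : ℝ) else 0 := by
        intro i
        split_ifs
        · exact hs a
        · ring
      rw [Finset.sum_congr rfl fun i _ => h1 i, Finset.sum_ite, Finset.sum_const_zero, add_zero,
        Finset.sum_const, nsmul_eq_mul]
      have h2 : ((Finset.univ.filter (fun i => p i = a)).card : ℝ) = (msz p a : ℝ) := rfl
      rw [h2]
      have := hmr a
      field_simp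
    · rw [if_neg hab]
      refine Finset.sum_eq_zero fun i _ => ?_
      by_cases h1 : p i = a
      · have h2 : p i ≠ b := fun h => hab (h1.symm.trans h)
        rw [if_neg h2, mul_zero]
      · rw [if_neg h1, zero_mul]
  have hΦ2 : ∀ i j, (Φ * Φᵀ) i j = if p i = p j then 1 / (msz p (p i) : ℝ) else 0 := by
    intro i j
    rw [mul_apply]
    simp only [transpose_apply, hΦ]
    rw [Finset.sum_eq_single (p i)]
    · rw [if_pos rfl]
      by_cases h : p i = p j
      · rw [if_pos h, if_pos h.symm, hs]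
      · rw [if_neg h, if_neg (fun h' => h h'.symm), mul_zero]
    · intro c _ hc
      rw [if_neg (fun h => hc h.symm), zero_mul]
    · intro h
      exact absurd (Finset.mem_univ _) h
  obtain ⟨B, hB1, hB2⟩ := hONC (Ix d K) K d (by simp; ring) Φ
  have hW := EXIG.complete B Φ hB1 hB2 hΦ1
  have hBB : ∀ i j, (B * Bᵀ) i j = (1 : Matrix (Ix d K) (Ix d K) ℝ) i j - (Φ * Φᵀ) i j := by
    intro i j
    have := congrFun (congrFun hW i) j
    rw [Matrix.add_apply] at this
    linarith
  obtain ⟨r, hr⟩ : ∃ r : Fin K → ℝ, ∀ b, r b * r b = (msz p b : ℝ) / ((msz p b : ℝ) - 1) := by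
    refine ⟨fun b => Real.sqrt ((msz p b : ℝ) / ((msz p b : ℝ) - 1)), fun b => ?_⟩
    have := hmr b
    exact Real.mul_self_sqrt (div_nonneg (by linarith) (by linarith))
  obtain ⟨U, hU⟩ : ∃ U : Matrix (Ix d K) (Fin d) ℝ, ∀ i a, U i a = r (p i) * B i a :=
    ⟨Matrix.of fun i a => r (p i) * B i a, fun _ _ => rfl⟩
  have hUU : ∀ i j, (U * Uᵀ) i j = r (p i) * r (p j) * (B * Bᵀ) i j := by
    intro i j
    rw [mul_apply, mul_apply, Finset.mul_sum]
    refine Finset.sum_congr rfl fun a _ => ?_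
    rw [transpose_apply, transpose_apply, hU, hU]
    ring
  refine ⟨U, ?_, p, hp, ?_, ?_⟩
  · intro i
    have h1 := hUU i i
    rw [hBB, hΦ2, if_pos rfl, one_apply_eq, hr] at h1
    have h2 : (U * Uᵀ) i i = ∑ a, U i a ^ 2 := by
      rw [mul_apply]
      refine Finset.sum_congr rfl fun a _ => ?_
      rw [transpose_apply, sq]
    rw [← h2, h1]
    have h3 := hmr (p i)
    have h4 : (msz p (p i) : ℝ) - 1 ≠ 0 := by linarith
    have h5 : (msz p (p i) : ℝ) ≠ 0 := by linarith
    field_simp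
  · intro i j hij hpp
    rw [hUU, hBB, hΦ2, if_pos hpp, one_apply_ne hij, ← hpp, hr]
    have h3 := hmr (p i)
    have h4 : (msz p (p i) : ℝ) - 1 ≠ 0 := by linarith
    have h5 : (msz p (p i) : ℝ) ≠ 0 := by linarith
    field_simp
    ring
  · intro i j hpp
    have hij : i ≠ j := fun h => hpp (by rw [h])
    rw [hUU, hBB, hΦ2, if_neg hpp, one_apply_ne hij]
    ring

end Pool.LH73
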