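import Pool.Agent.Work.MP_1c7b0d_lh73.Interface

open MeasureTheory Matrix Pool.LH60
open scoped BigOperators

namespace Pool.LH73

namespace EXVG

variable {d K : ℕ}

/-- the frame of the pattern -/
noncomputable def Fr (p : Ix d K → Fin K) : Matrix (Ix d K) (Fin K) ℝ :=
  fun i b => if p i = b then 1 / Real.sqrt (msz p b) else 0

/-- `t_b = 1 - 1/m_b` -/
noncomputable def tb (p : Ix d K → Fin K) (b : Fin K) : ℝ := 1 - 1 / (msz p b : ℝ)

lemma tb_pos (p : Ix d K → Fin K) (hm : ∀ b, 2 ≤ msz p b) (b : Fin K) : 0 < tb p b := by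
  have h : (2:ℝ) ≤ msz p b := by exact_mod_cast hm b
  have : 1 / (msz p b : ℝ) ≤ 1 / 2 := one_div_le_one_div_of_le (by norm_num) h
  unfold tb
  linarith

lemma sum_fib (p : Ix d K → Fin K) (b : Fin K) (c : ℝ) :
    ∑ i, (if p i = b then c else 0) = msz p b * c := by
  rw [← Finset.sum_filter, Finset.sum_const, nsmul_eq_mul]
  rfl

lemma Fr_orth (p : Ix d K → Fin K) (hm : ∀ b, 2 ≤ msz p b) : (Fr p)ᵀ * Fr p = 1 := by
  ext a b
  rw [Matrix.mul_apply]
  by_cases h : a = b
  · subst h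
    rw [Matrix.one_apply_eq]
    have h2 : (0:ℝ) < msz p a := by
      have := hm a
      positivity
    calc ∑ i, (Fr p)ᵀ a i * Fr p i a = ∑ i, (if p i = a then 1 / (msz p a : ℝ) else 0) := by
          refine Finset.sum_congr rfl fun i _ => ?_
          simp only [Matrix.transpose_apply, Fr]
          split_ifs
          · rw [div_mul_div_comm, Real.mul_self_sqrt h2.le, one_mul]
          · simp
      _ = msz p a * (1 / (msz p a : ℝ)) := sum_fib p a _
      _ = 1 := by field_simp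
  · rw [Matrix.one_apply_ne h]
    refine Finset.sum_eq_zero fun i _ => ?_
    simp only [Matrix.transpose_apply, Fr]
    by_cases ha : p i = a
    · have : p i ≠ b := fun hb => h (ha.symm.trans hb)
      simp [this]
    · simp [ha]

lemma Fr_mul (p : Ix d K → Fin K) (i j : Ix d K) :
    (Fr p * (Fr p)ᵀ) i j = if p i = p j then 1 / (msz p (p i) : ℝ) else 0 := by
  rw [Matrix.mul_apply]
  simp only [Matrix.transpose_apply, Fr]
  by_cases h : p i = p j
  · rw [if_pos h, Finset.sum_eq_single (p i)]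
    · rw [if_pos rfl, if_pos h.symm, div_mul_div_comm, Real.mul_self_sqrt (by positivity), one_mul]
    · intro b _ hb
      rw [if_neg (fun h' => hb h'.symm), zero_mul]
    · simp
  · rw [if_neg h]
    refine Finset.sum_eq_zero fun b _ => ?_
    by_cases ha : p i = b
    · have : p j ≠ b := fun hb => h (ha.trans hb.symm)
      simp [this]
    · simp [ha]

/-- `V = diag(√t) U` -/
noncomputable def Vm (p : Ix d K → Fin K) (U : Matrix (Ix d K) (Fin d) ℝ) :
    Matrix (Ix d K) (Fin d) ℝ := fun i a => Real.sqrt (tb p (p i)) * U i a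

structure Dat (p : Ix d K → Fin K) (U : Matrix (Ix d K) (Fin d) ℝ) : Prop where
  unit : UnitRows U
  size : ∀ b, 2 ≤ msz p b
  inner : ∀ i j, i ≠ j → p i = p j → (U * Uᵀ) i j = -1 / ((msz p (p i) : ℝ) - 1)
  outer : ∀ i j, p i ≠ p j → (U * Uᵀ) i j = 0

lemma Vm_mul (p : Ix d K → Fin K) (U : Matrix (Ix d K) (Fin d) ℝ) (i j : Ix d K) :
    (Vm p U * (Vm p U)ᵀ) i j = Real.sqrt (tb p (p i)) * Real.sqrt (tb p (p j)) * (U * Uᵀ) i j := by
  rw [Matrix.mul_apply, Matrix.mul_apply, Finset.mul_sum]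
  refine Finset.sum_congr rfl fun a _ => ?_
  simp only [Matrix.transpose_apply, Vm]
  ring

lemma key (p : Ix d K → Fin K) (U : Matrix (Ix d K) (Fin d) ℝ) (h : Dat p U) :
    Vm p U * (Vm p U)ᵀ + Fr p * (Fr p)ᵀ = 1 := by
  ext i j
  rw [Matrix.add_apply, Vm_mul, Fr_mul]
  have hm : (2:ℝ) ≤ msz p (p i) := by exact_mod_cast h.size (p i)
  have ht := tb_pos p h.size (p i)
  by_cases hp : p i = p j
  · rw [if_pos hp, ← hp, Real.mul_self_sqrt ht.le]
    by_cases hij : i = j
    · subst hij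
      rw [Matrix.one_apply_eq, Matrix.mul_apply]
      have : ∑ a, U i a * Uᵀ a i = 1 := by
        rw [← h.unit i]
        refine Finset.sum_congr rfl fun a _ => ?_
        rw [Matrix.transpose_apply]
        ring
      rw [this]
      unfold tb
      ring
    · rw [Matrix.one_apply_ne hij, h.inner i j hij hp]
      unfold tb
      have h1 : (msz p (p i) : ℝ) - 1 ≠ 0 := by linarith
      have h2 : (msz p (p i) : ℝ) ≠ 0 := by linarith
      field_simp
      ring
  · have hij : i ≠ j := fun h => hp (by rw [h])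
    rw [if_neg hp, Matrix.one_apply_ne hij, h.outer i j hp]
    ring

lemma blocks (p : Ix d K → Fin K) (U : Matrix (Ix d K) (Fin d) ℝ) (h : Dat p U) :
    (Vm p U)ᵀ * Vm p U = 1 ∧ (Vm p U)ᵀ * Fr p = 0 ∧ (Fr p)ᵀ * Vm p U = 0 ∧
      (Matrix.fromCols (Vm p U) (Fr p))ᵀ * Matrix.fromCols (Vm p U) (Fr p) = 1 := by
  have h1 : Matrix.fromCols (Vm p U) (Fr p) * (Matrix.fromCols (Vm p U) (Fr p))ᵀ = 1 := by
    rw [Matrix.transpose_fromCols, Matrix.fromCols_mul_fromRows, key p U h]
  have h2 := mul_eq_one_comm.1 h1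
  have h3 := h2
  rw [Matrix.transpose_fromCols, Matrix.fromRows_mul_fromCols, ← Matrix.fromBlocks_one,
    Matrix.fromBlocks_inj] at h3
  exact ⟨h3.1, h3.2.1, h3.2.2.1, h2⟩

lemma Fr_mul_U (p : Ix d K → Fin K) (U : Matrix (Ix d K) (Fin d) ℝ) (h : Dat p U) (b : Fin K)
    (a : Fin d) : ∑ i, (if p i = b then U i a else 0) = 0 := by
  have h1 := congrFun (congrFun (blocks p U h).2.2.1 b) a
  rw [Matrix.mul_apply] at h1
  have hm : (2:ℝ) ≤ msz p b := by exact_mod_cast h.size b
  have ht := tb_pos p h.size b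
  have h2 : ∑ i, (Fr p)ᵀ b i * Vm p U i a =
      (1 / Real.sqrt (msz p b) * Real.sqrt (tb p b)) * ∑ i, (if p i = b then U i a else 0) := by
    rw [Finset.mul_sum]
    refine Finset.sum_congr rfl fun i _ => ?_
    simp only [Matrix.transpose_apply, Fr, Vm]
    split_ifs with hb
    · rw [hb]
      ring
    · simp
  rw [h2, Matrix.zero_apply] at h1
  rcases mul_eq_zero.1 h1 with h3 | h3
  · exfalso
    have : 0 < 1 / Real.sqrt (msz p b) * Real.sqrt (tb p b) := by positivity
    linarith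
  · exact h3

lemma Fr_mul_U' (p : Ix d K → Fin K) (U : Matrix (Ix d K) (Fin d) ℝ) (h : Dat p U) :
    (Fr p)ᵀ * U = 0 := by
  ext b a
  rw [Matrix.mul_apply, Matrix.zero_apply]
  have h2 : ∑ i, (Fr p)ᵀ b i * U i a =
      (1 / Real.sqrt (msz p b)) * ∑ i, (if p i = b then U i a else 0) := by
    rw [Finset.mul_sum]
    refine Finset.sum_congr rfl fun i _ => ?_
    simp only [Matrix.transpose_apply, Fr]
    split_ifs with hb
    · ring
    · simp
  rw [h2, Fr_mul_U p U h, mul_zero]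

lemma sum_y (p : Ix d K → Fin K) (U : Matrix (Ix d K) (Fin d) ℝ) (h : Dat p U) (x : Fin d → ℝ)
    (b : Fin K) : ∑ i, (if p i = b then yv U x i else 0) = msz p b := by
  have h1 : ∑ i, (if p i = b then yv U x i else 0) =
      ∑ i, (if p i = b then (1:ℝ) else 0) - ∑ a, (∑ i, (if p i = b then U i a else 0)) * x a := by
    simp_rw [Finset.sum_mul]
    rw [Finset.sum_comm, ← Finset.sum_sub_distrib]
    refine Finset.sum_congr rfl fun i _ => ?_
    unfold yv
    split_ifs with hb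
    · rfl
    · simp
  rw [h1, sum_fib]
  simp [Fr_mul_U p U h]

lemma Dm_one (p : Ix d K → Fin K) (U : Matrix (Ix d K) (Fin d) ℝ) (h : Dat p U)
    (x : Fin d → ℝ) : Dm (Fr p) (yv U x) = 1 := by
  ext a b
  unfold Dm
  rw [Matrix.mul_apply]
  simp only [Matrix.mul_diagonal, Matrix.transpose_apply]
  by_cases hab : a = b
  · subst hab
    rw [Matrix.one_apply_eq]
    have hm : (2:ℝ) ≤ msz p a := by exact_mod_cast h.size a
    calc ∑ i, Fr p i a * yv U x i * Fr p i a
        = (1 / (msz p a : ℝ)) * ∑ i, (if p i = a then yv U x i else 0) := by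
          rw [Finset.mul_sum]
          refine Finset.sum_congr rfl fun i _ => ?_
          simp only [Fr]
          split_ifs
          · rw [mul_assoc, mul_comm (yv U x i), ← mul_assoc, div_mul_div_comm,
              Real.mul_self_sqrt (by linarith), one_mul]
          · simp
      _ = 1 := by
          rw [sum_y p U h]
          field_simp
  · rw [Matrix.one_apply_ne hab]
    refine Finset.sum_eq_zero fun i _ => ?_
    simp only [Fr]
    by_cases ha : p i = a
    · have : p i ≠ b := fun hb => hab (ha.symm.trans hb)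
      simp [this]
    · simp [ha]

lemma prod_fib (p : Ix d K → Fin K) (f : Fin K → ℝ) :
    ∏ i, f (p i) = ∏ b, f b ^ (msz p b) := by
  rw [← Finset.prod_fiberwise (s := Finset.univ) (g := p)]
  refine Finset.prod_congr rfl fun b _ => ?_
  rw [Finset.prod_congr rfl (g := fun _ => f b)
    (fun i hi => by rw [(Finset.mem_filter.1 hi).2]), Finset.prod_const]
  rfl

lemma det_eq (p : Ix d K → Fin K) (U : Matrix (Ix d K) (Fin d) ℝ) (h : Dat p U) :
    (Uᵀ * U).det = ∏ b, (1 / tb p b) ^ (msz p b - 1) := by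
  obtain ⟨h1, h2, h3, h4⟩ := blocks p U h
  set W : Matrix (Ix d K) (Ix d K) ℝ := Matrix.fromCols (Vm p U) (Fr p) with hW
  set Dg : Matrix (Ix d K) (Ix d K) ℝ := Matrix.diagonal (fun i => 1 / tb p (p i)) with hDg
  have hc : Dg * Fr p = Fr p * Matrix.diagonal (fun b => 1 / tb p b) := by
    ext i b
    rw [hDg, Matrix.diagonal_mul, Matrix.mul_diagonal]
    simp only [Fr]
    split_ifs with hb
    · rw [hb]
      ring
    · simp
  have hVV : (Vm p U)ᵀ * (Dg * Vm p U) = Uᵀ * U := by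
    ext a b
    rw [Matrix.mul_apply, Matrix.mul_apply]
    refine Finset.sum_congr rfl fun i _ => ?_
    rw [hDg, Matrix.diagonal_mul]
    simp only [Matrix.transpose_apply, Vm]
    have ht := tb_pos p h.size (p i)
    calc Real.sqrt (tb p (p i)) * U i a * (1 / tb p (p i) * (Real.sqrt (tb p (p i)) * U i b))
        = (Real.sqrt (tb p (p i)) * Real.sqrt (tb p (p i))) * (1 / tb p (p i)) * (U i a * U i b) := by
          ring
      _ = U i a * U i b := by
          rw [Real.mul_self_sqrt ht.le]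
          field_simp
  have hFV : (Fr p)ᵀ * (Dg * Vm p U) = 0 := by
    have : (Fr p)ᵀ * Dg = Matrix.diagonal (fun b => 1 / tb p b) * (Fr p)ᵀ := by
      have := congrArg Matrix.transpose hc
      rw [Matrix.transpose_mul, Matrix.transpose_mul, hDg, Matrix.diagonal_transpose,
        Matrix.diagonal_transpose] at this
      exact this
    rw [← Matrix.mul_assoc, this, Matrix.mul_assoc, h3, Matrix.mul_zero]
  have hVF : (Vm p U)ᵀ * (Dg * Fr p) = 0 := by
    rw [hc, ← Matrix.mul_assoc, h2, Matrix.zero_mul]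
  have hFF : (Fr p)ᵀ * (Dg * Fr p) = Matrix.diagonal (fun b => 1 / tb p b) := by
    rw [hc, ← Matrix.mul_assoc, Fr_orth p h.size, Matrix.one_mul]
  have hB : Wᵀ * (Dg * W) =
      Matrix.fromBlocks (Uᵀ * U) 0 0 (Matrix.diagonal (fun b => 1 / tb p b)) := by
    rw [hW, Matrix.mul_fromCols, Matrix.transpose_fromCols, Matrix.fromRows_mul_fromCols,
      hVV, hVF, hFV, hFF]
  have hdet := congrArg Matrix.det hB
  rw [Matrix.det_fromBlocks_zero₂₁, Matrix.det_diagonal, Matrix.det_mul, Matrix.det_mul] at hdet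
  have hW1 : Wᵀ.det * W.det = 1 := by
    rw [← Matrix.det_mul, h4, Matrix.det_one]
  have hD : Dg.det = ∏ b, (1 / tb p b) ^ (msz p b) := by
    rw [hDg, Matrix.det_diagonal]
    exact prod_fib p (fun b => 1 / tb p b)
  have h5 : Dg.det = (Uᵀ * U).det * ∏ b, 1 / tb p b := by
    calc Dg.det = Wᵀ.det * W.det * Dg.det := by rw [hW1, one_mul]
      _ = Wᵀ.det * (Dg.det * W.det) := by ring
      _ = _ := hdet
  rw [hD] at h5
  have hpos : (∏ b, 1 / tb p b) ≠ 0 :=
    Finset.prod_ne_zero_iff.2 fun b _ => (one_div_pos.2 (tb_pos p h.size b)).ne'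
  apply mul_right_cancel₀ hpos
  rw [← h5, ← Finset.prod_mul_distrib]
  refine Finset.prod_congr rfl fun b _ => ?_
  rw [← pow_succ]
  congr 1
  have := h.size b
  omega

lemma isFrame (p : Ix d K → Fin K) (U : Matrix (Ix d K) (Fin d) ℝ) (h : Dat p U) :
    IsFrame U (Fr p) := by
  refine ⟨Fr_orth p h.size, Fr_mul_U' p U h, ?_⟩
  rw [det_eq p U h]
  exact Finset.prod_ne_zero_iff.2 fun b _ => pow_ne_zero _ (one_div_pos.2 (tb_pos p h.size b)).ne'

lemma sl_eq (p : Ix d K → Fin K) (f : Fin K → ℝ) (i : Ix d K) :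
    sl (Fr p) (fun _ => 0) f i = f (p i) / Real.sqrt (msz p (p i)) := by
  unfold sl
  rw [zero_add, Finset.sum_eq_single (p i)]
  · simp only [Fr, if_true]
    ring
  · intro b _ hb
    simp only [Fr]
    rw [if_neg (fun h => hb h.symm), zero_mul]
  · simp

lemma sum_split (p : Ix d K → Fin K) (f : Ix d K → ℝ) :
    ∑ i, f i = ∑ b, ∑ i, (if p i = b then f i else 0) := by
  rw [Finset.sum_comm]
  refine Finset.sum_congr rfl fun i _ => ?_
  rw [Finset.sum_ite_eq]
  simp

lemma expo (p : Ix d K → Fin K) (U : Matrix (Ix d K) (Fin d) ℝ) (h : Dat p U)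
    (x : Fin d → ℝ) (f : Fin K → ℝ) :
    ∑ i, (sl (Fr p) (fun _ => 0) f i - yv U x i * Real.exp (sl (Fr p) (fun _ => 0) f i)) =
      ∑ b, (f b / Real.sqrt (msz p b) - Real.exp (f b / Real.sqrt (msz p b))) /
        (1 / (msz p b : ℝ)) := by
  rw [sum_split p]
  refine Finset.sum_congr rfl fun b _ => ?_
  set t := f b / Real.sqrt (msz p b) with ht
  have h1 : ∀ i, (if p i = b then sl (Fr p) (fun _ => 0) f i -
      yv U x i * Real.exp (sl (Fr p) (fun _ => 0) f i) else 0) =
      (if p i = b then t else 0) - (if p i = b then yv U x i else 0) * Real.exp t := by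
    intro i
    rw [sl_eq]
    split_ifs with hb
    · rw [hb]
    · simp
  simp_rw [h1]
  rw [Finset.sum_sub_distrib, ← Finset.sum_mul, sum_y p U h, sum_fib]
  have hm : (2:ℝ) ≤ msz p b := by exact_mod_cast h.size b
  field_simp

/-- the one-dimensional factor -/
noncomputable def fac (m : ℕ) : ℝ := Real.sqrt m * ((m - 1).factorial * (1 / (m:ℝ)) ^ m)

lemma one_dim (hZ : Stmt_ZB) (m : ℕ) (hm : 2 ≤ m) :
    Integrable (fun u : ℝ => Real.exp ((u / Real.sqrt m - Real.exp (u / Real.sqrt m)) /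
      (1 / (m : ℝ)))) ∧
    ∫ u : ℝ, Real.exp ((u / Real.sqrt m - Real.exp (u / Real.sqrt m)) / (1 / (m : ℝ))) =
      fac m := by
  have h2 : (0:ℝ) < m := by positivity
  have hs : (0:ℝ) < Real.sqrt m := Real.sqrt_pos.2 h2
  obtain ⟨h3, h4⟩ := hZ (1 / (m:ℝ)) (by positivity)
  refine ⟨h3.comp_div hs.ne', ?_⟩
  rw [MeasureTheory.Measure.integral_comp_div
    (fun s : ℝ => Real.exp ((s - Real.exp s) / (1 / (m:ℝ)))) (Real.sqrt m), h4, abs_of_pos hs,
    smul_eq_mul, one_div_one_div, Real.rpow_natCast]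
  unfold fac
  congr 2
  have : (m:ℝ) = ((m - 1 : ℕ) : ℝ) + 1 := by
    have : (m - 1) + 1 = m := by omega
    exact_mod_cast this.symm
  rw [this, Real.Gamma_nat_eq_factorial]

lemma inner_int (hZ : Stmt_ZB) (p : Ix d K → Fin K) (U : Matrix (Ix d K) (Fin d) ℝ)
    (h : Dat p U) (x : Fin d → ℝ) :
    (∫⁻ f : Fin K → ℝ, ENNReal.ofReal (Real.exp (∑ i, (sl (Fr p) (fun _ => 0) f i -
      yv U x i * Real.exp (sl (Fr p) (fun _ => 0) f i))))) =
      ENNReal.ofReal (∏ b, fac (msz p b)) := by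
  have h1 : ∀ f : Fin K → ℝ, Real.exp (∑ i, (sl (Fr p) (fun _ => 0) f i -
      yv U x i * Real.exp (sl (Fr p) (fun _ => 0) f i))) =
      ∏ b, Real.exp ((f b / Real.sqrt (msz p b) - Real.exp (f b / Real.sqrt (msz p b))) /
        (1 / (msz p b : ℝ))) := by
    intro f
    rw [expo p U h x f, Real.exp_sum]
  simp_rw [h1]
  rw [← ofReal_integral_eq_lintegral_ofReal]
  · rw [integral_fintype_prod_volume_eq_prod (fun b (u : ℝ) =>
      Real.exp ((u / Real.sqrt (msz p b) - Real.exp (u / Real.sqrt (msz p b))) /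
        (1 / (msz p b : ℝ))))]
    congr 1
    exact Finset.prod_congr rfl fun b _ => (one_dim hZ _ (h.size b)).2
  · exact Integrable.fintype_prod_dep (f := fun b (u : ℝ) =>
      Real.exp ((u / Real.sqrt (msz p b) - Real.exp (u / Real.sqrt (msz p b))) /
        (1 / (msz p b : ℝ)))) (fun b => (one_dim hZ _ (h.size b)).1)
  · exact Filter.Eventually.of_forall fun f => Finset.prod_nonneg fun b _ => (Real.exp_pos _).le

open Pool.Agent.Work.MP_1c7b0d_gt in
lemma fac_sv (m : ℕ) (hm : 2 ≤ m) :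
    Real.sqrt ((1 / (1 - 1 / (m:ℝ))) ^ (m - 1)) * fac m = (sv (m - 1))⁻¹ := by
  obtain ⟨k, rfl⟩ : ∃ k, m = k + 1 := ⟨m - 1, by omega⟩
  have hk : (1:ℝ) ≤ k := by
    have : 1 ≤ k := by omega
    exact_mod_cast this
  have e0 : (k + 1 : ℕ) - 1 = k := by omega
  have hk1 : (0:ℝ) < (k:ℝ) + 1 := by linarith
  unfold fac sv
  rw [e0]
  push_cast
  have e1 : 1 / (1 - 1 / ((k:ℝ) + 1)) = ((k:ℝ) + 1) / k := by
    have h0 : (k:ℝ) ≠ 0 := by linarith
    have h1 : 1 - 1 / ((k:ℝ) + 1) = k / ((k:ℝ) + 1) := by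
      rw [eq_div_iff hk1.ne', sub_mul, one_div, inv_mul_cancel₀ hk1.ne']
      ring
    rw [h1, one_div_div]
  rw [e1]
  have hf : (0:ℝ) < (k.factorial : ℝ) := by exact_mod_cast Nat.factorial_pos k
  have e2 : Real.sqrt ((((k:ℝ) + 1) / k) ^ k) * Real.sqrt ((k:ℝ) + 1) *
      Real.sqrt ((k:ℝ) ^ k * ((k:ℝ) + 1) ^ (k + 1)) = ((k:ℝ) + 1) ^ (k + 1) := by
    rw [← Real.sqrt_mul (by positivity), ← Real.sqrt_mul (by positivity)]
    rw [show (((k:ℝ) + 1) / k) ^ k * ((k:ℝ) + 1) * ((k:ℝ) ^ k * ((k:ℝ) + 1) ^ (k + 1)) =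
      (((k:ℝ) + 1) ^ (k + 1)) * (((k:ℝ) + 1) ^ (k + 1)) by
        rw [div_pow]
        field_simp
        ring]
    exact Real.sqrt_mul_self (by positivity)
  have hsv : Real.sqrt ((k:ℝ) ^ k * ((k:ℝ) + 1) ^ (k + 1)) / (k.factorial : ℝ) ≠ 0 := by
    positivity
  rw [← mul_eq_one_iff_eq_inv₀ hsv]
  calc Real.sqrt ((((k:ℝ) + 1) / k) ^ k) * (Real.sqrt ((k:ℝ) + 1) *
        ((k.factorial : ℝ) * (1 / ((k:ℝ) + 1)) ^ (k + 1))) *
        (Real.sqrt ((k:ℝ) ^ k * ((k:ℝ) + 1) ^ (k + 1)) / (k.factorial : ℝ))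
      = (Real.sqrt ((((k:ℝ) + 1) / k) ^ k) * Real.sqrt ((k:ℝ) + 1) *
      Real.sqrt ((k:ℝ) ^ k * ((k:ℝ) + 1) ^ (k + 1))) * (1 / ((k:ℝ) + 1)) ^ (k + 1) *
        ((k.factorial : ℝ) / (k.factorial : ℝ)) := by ring
    _ = 1 := by
      rw [e2, div_self hf.ne', mul_one, ← mul_pow, mul_one_div_cancel hk1.ne', one_pow]

lemma sum_msz (p : Ix d K → Fin K) : ∑ b, msz p b = d + K := by
  have h := Finset.card_eq_sum_card_fiberwise (f := p) (s := Finset.univ) (t := Finset.univ)
    (fun i _ => Finset.mem_univ _)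
  rw [Finset.card_univ, Fintype.card_sum, Fintype.card_fin, Fintype.card_fin] at h
  exact h.symm

open Pool.Agent.Work.MP_1c7b0d_gt in
lemma prod_sv (p : Ix d K → Fin K) (hK : 1 ≤ K)
    (hs : ∀ b, msz p b = d / K + 1 ∨ msz p b = d / K + 2) :
    ∏ b, sv (msz p b - 1) = Vne d K := by
  classical
  have h1 : ∀ b, sv (msz p b - 1) =
      if msz p b = d / K + 1 then sv (d / K) else sv (d / K + 1) := by
    intro b
    rcases hs b with h | h
    · rw [if_pos h, h]
      rfl
    · rw [if_neg (by omega), h]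
      rfl
  have h2 : ∑ b, msz p b = ∑ b : Fin K, (d / K + 1 + if msz p b = d / K + 1 then 0 else 1) := by
    refine Finset.sum_congr rfl fun b _ => ?_
    rcases hs b with h | h
    · rw [if_pos h, h]
    · rw [if_neg (by omega), h]
  rw [sum_msz, Finset.sum_add_distrib, Finset.sum_const, Finset.card_univ, Fintype.card_fin,
    Finset.sum_ite, Finset.sum_const_zero, zero_add, Finset.sum_const, smul_eq_mul, smul_eq_mul,
    mul_one] at h2
  have h3 := Nat.div_add_mod d K
  have h4 := Finset.card_filter_add_card_filter_not (s := (Finset.univ : Finset (Fin K)))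
    (fun b => msz p b = d / K + 1)
  rw [Finset.card_univ, Fintype.card_fin] at h4
  have h5 : K * (d / K + 1) = K * (d / K) + K := by ring
  rw [h5] at h2
  have h6 : (Finset.univ.filter (fun b : Fin K => ¬ msz p b = d / K + 1)).card = d % K := by
    omega
  have h7 : (Finset.univ.filter (fun b : Fin K => msz p b = d / K + 1)).card = K - d % K := by
    omega
  simp_rw [h1]
  rw [Finset.prod_ite, Finset.prod_const, Finset.prod_const, h6, h7]
  rfl

end EXVG

open EXVG in
theorem EXVG_thm (hC : Stmt_CVT) (hZ : Stmt_ZB) : Stmt_EXVG := by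
  intro d K U hK hKd hun hP
  obtain ⟨p, hs, hi, ho⟩ := hP
  have hq : 1 ≤ d / K := (Nat.one_le_div_iff (by omega)).2 hKd
  have hm : ∀ b, 2 ≤ msz p b := by
    intro b
    rcases hs b with h | h <;> omega
  have h : Dat p U := ⟨hun, hm, hi, ho⟩
  have hc := hC d K U (Fr p) (fun _ => 0) (isFrame p U h)
  have h1 : ∀ x : Fin d → ℝ, (ENNReal.ofReal (Real.sqrt (Uᵀ * U).det *
      (Dm (Fr p) (yv U x)).det) * (∫⁻ f : Fin K → ℝ, ENNReal.ofReal (Real.exp
        (∑ i, (sl (Fr p) (fun _ => 0) f i - yv U x i *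
          Real.exp (sl (Fr p) (fun _ => 0) f i)))))) =
      ENNReal.ofReal ((∏ b, Pool.Agent.Work.MP_1c7b0d_gt.sv (msz p b - 1))⁻¹) := by
    intro x
    rw [inner_int hZ p U h x, Dm_one p U h x, Matrix.det_one, mul_one,
      ← ENNReal.ofReal_mul (Real.sqrt_nonneg _), det_eq p U h,
      Real.sqrt_prod _ (fun b _ => pow_nonneg (one_div_pos.2 (tb_pos p hm b)).le _),
      ← Finset.prod_mul_distrib, ← Finset.prod_inv_distrib]
    congr 1
    exact Finset.prod_congr rfl fun b _ => fac_sv _ (hm b)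
  simp_rw [h1] at hc
  rw [setLIntegral_const, prod_sv p hK hs] at hc
  have hpos : 0 < Vne d K := by
    rw [← prod_sv p hK hs]
    refine Finset.prod_pos fun b _ => ?_
    have h2 : (1:ℝ) ≤ ((msz p b - 1 : ℕ) : ℝ) := by
      have : 1 ≤ msz p b - 1 := by have := hm b; omega
      exact_mod_cast this
    unfold Pool.Agent.Work.MP_1c7b0d_gt.sv
    positivity
  rw [ENNReal.ofReal_inv_of_pos hpos] at hc
  have h3 : ENNReal.ofReal (Vne d K) ≠ 0 := by
    rw [ne_eq, ENNReal.ofReal_eq_zero, not_le]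
    exact hpos
  calc volume (Pol U) = ENNReal.ofReal (Vne d K) * ((ENNReal.ofReal (Vne d K))⁻¹ *
        volume (Pol U)) := by
        rw [← mul_assoc, ENNReal.mul_inv_cancel h3 ENNReal.ofReal_ne_top, one_mul]
    _ = ENNReal.ofReal (Vne d K) := by rw [hc, mul_one]

end Pool.LH73
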