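import Pool.Agent.Work.MP_1c7b0d_lh73.Interface
import Pool.Agent.Work.MP_1c7b0d_lh60.LOWER

/-!
Block FIN1 of `lhn_blocks` (row MP_1c7b0d_gt), helper43: consequences of near-minimality.
-/

open MeasureTheory Matrix Pool.LH60
open scoped BigOperators

namespace Pool.LH73

namespace FIN1

variable {d K : ℕ}

/-- `∑ (c_i - K/n)² = ∑ c_i² - K/m` -/
theorem sum_sq (c : Ix d K → ℝ) (hK : 1 ≤ K) (hs : ∑ i, c i = K) :
    ∑ i, (c i)^2 = ∑ i, (c i - K / ((d:ℝ) + K))^2 + K * (K / ((d:ℝ) + K)) := by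
  have hK0 : (0:ℝ) < K := by exact_mod_cast hK
  have hn : (0:ℝ) < (d:ℝ) + K := by positivity
  have hcard : ((Finset.univ : Finset (Ix d K)).card : ℝ) = (d:ℝ) + K := by
    simp [Finset.card_univ, Fintype.card_sum]
  have e : ∀ i, (c i - K / ((d:ℝ) + K))^2
      = (c i)^2 - 2 * (K / ((d:ℝ) + K)) * c i + (K / ((d:ℝ) + K))^2 := fun i => by ring
  simp only [e]
  rw [Finset.sum_add_distrib, Finset.sum_sub_distrib, ← Finset.mul_sum, hs, Finset.sum_const,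
    nsmul_eq_mul, hcard]
  field_simp
  ring

theorem dfc_le {ι : Type} [Fintype ι] [DecidableEq ι] (hDEF1 : Stmt_DEF1)
    (Φ : Matrix ι (Fin K) ℝ) (hΦ : Φᵀ * Φ = 1) : Dfc Φ ≤ 2 * ∑ i, (cn Φ i)^2 := by
  obtain ⟨h1, h2, h3, h4, h5, h6⟩ := hDEF1 ι K Φ hΦ
  rw [h5]
  have hb : ∀ i j, (pp Φ i j)^2 * (cn Φ i + cn Φ j - 2 * pp Φ i j)
      ≤ 2 * ((pp Φ i j)^2 * cn Φ i) + 2 * ((pp Φ i j)^2 * cn Φ j) := by
    intro i j
    have : cn Φ i + cn Φ j - 2 * pp Φ i j ≤ 2 * (cn Φ i + cn Φ j) := by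
      rw [h4 i j]
      unfold cn
      rw [← Finset.sum_add_distrib, Finset.mul_sum]
      apply Finset.sum_le_sum
      intro k _
      nlinarith [sq_nonneg (Φ i k + Φ j k)]
    nlinarith [sq_nonneg (pp Φ i j)]
  have hsym : ∀ i j, pp Φ i j = pp Φ j i := by
    intro i j
    unfold pp
    exact Finset.sum_congr rfl fun k _ => mul_comm _ _
  have e1 : ∑ i, ∑ j, (pp Φ i j)^2 * cn Φ i = ∑ i, (cn Φ i)^2 := by
    apply Finset.sum_congr rfl
    intro i _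
    rw [← Finset.sum_mul, h1 i]
    ring
  have e2 : ∑ i, ∑ j, (pp Φ i j)^2 * cn Φ j = ∑ i, (cn Φ i)^2 := by
    rw [Finset.sum_comm]
    apply Finset.sum_congr rfl
    intro j _
    rw [← Finset.sum_mul]
    have : ∑ i, (pp Φ i j)^2 = cn Φ j := by
      rw [← h1 j]
      exact Finset.sum_congr rfl fun i _ => by rw [hsym i j]
    rw [this]
    ring
  have hS : ∑ i, ∑ j, (pp Φ i j)^2 * (cn Φ i + cn Φ j - 2 * pp Φ i j)
      ≤ 4 * ∑ i, (cn Φ i)^2 := by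
    calc ∑ i, ∑ j, (pp Φ i j)^2 * (cn Φ i + cn Φ j - 2 * pp Φ i j)
        ≤ ∑ i, ∑ j, (2 * ((pp Φ i j)^2 * cn Φ i) + 2 * ((pp Φ i j)^2 * cn Φ j)) :=
          Finset.sum_le_sum fun i _ => Finset.sum_le_sum fun j _ => hb i j
      _ = 2 * ∑ i, ∑ j, (pp Φ i j)^2 * cn Φ i + 2 * ∑ i, ∑ j, (pp Φ i j)^2 * cn Φ j := by
          rw [Finset.mul_sum, Finset.mul_sum, ← Finset.sum_add_distrib]
          apply Finset.sum_congr rfl
          intro i _
          rw [Finset.sum_add_distrib, Finset.mul_sum, Finset.mul_sum]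
      _ = 4 * ∑ i, (cn Φ i)^2 := by rw [e1, e2]; ring
  linarith

end FIN1

open FIN1 in
theorem FIN1_thm (hEPZ : Stmt_EPZ) (hMAINA : Stmt_MAINA) (hISOT : Stmt_ISOT) (hCUT : Stmt_CUT)
    (hMAINB1 : Stmt_MAINB1) (hDEF1 : Stmt_DEF1) (hDETS : Stmt_DETS) (hFRI : Stmt_FRI)
    (hRHO : Stmt_RHO) : Stmt_FIN1 := by
  intro d K U Φ hK hdK hU hF hvol
  have hd : 1 ≤ d := by nlinarith
  have hd10 : 10 * K ≤ d := by nlinarith
  obtain ⟨hid, hpd, hsum, hnn, hrow⟩ := hFRI d K U Φ hF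
  have hrow := hrow hU
  have hd0 : (0:ℝ) < d := by exact_mod_cast hd
  have hK0 : (0:ℝ) < K := by exact_mod_cast hK
  have hK1 : (1:ℝ) ≤ K := by exact_mod_cast hK
  have hn : (0:ℝ) < (d:ℝ) + K := by positivity
  have hdKr : (10:ℝ)^9 * (K:ℝ)^2 ≤ d := by exact_mod_cast hdK
  set m : ℝ := ((d:ℝ) + K) / K with hm
  have hm0 : 0 < m := by positivity
  have hmK : m * K = (d:ℝ) + K := by rw [hm]; field_simp
  have hm9 : (10:ℝ)^9 * K ≤ m := by
    rw [hm, le_div_iff₀ hK0]; nlinarith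
  have hKm : (K:ℝ) / ((d:ℝ) + K) = 1 / m := by rw [hm, one_div_div]
  obtain ⟨hV0, hVl⟩ := hEPZ d K hK hd10
  obtain ⟨hdet, _⟩ := LOWER.logdet_le hRHO hDETS hFRI U Φ hd hK hU hF
  have hA := hMAINA d K U Φ hd hK hF
  have hdpos : 0 < (Uᵀ * U).det := hpd.det_pos
  set L : ℝ := Real.log ((d:ℝ) / ((d:ℝ) + K)) with hL
  set D : ℝ := Real.log (Uᵀ * U).det with hD
  set σ : ℝ := ∑ i, (cn Φ i - K / ((d:ℝ) + K))^2 with hσ
  have hσ0 : 0 ≤ σ := Finset.sum_nonneg fun i _ => sq_nonneg _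
  -- Step 2
  have h2 : Nd d K - D / 2 - σ / 5 ≤ Real.log (Vne d K) := by
    have h3 := hA.trans hvol
    have h4 := (ENNReal.ofReal_le_ofReal_iff hV0.le).1 h3
    have h5 := Real.log_le_log (Real.exp_pos _) h4
    rwa [Real.log_exp] at h5
  rw [← hm] at hVl
  have hσ1 : σ ≤ 10 * K / m^3 := by
    have e : (K:ℝ) / (2 * m^3) = (10 * K / m^3) / 20 := by field_simp; ring
    rw [e] at hVl
    linarith
  have hKm9 : (K:ℝ) / m ≤ 1 / 10^9 := by
    rw [div_le_div_iff₀ hm0 (by norm_num)]; linarith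
  have hm1 : 1 ≤ m := by nlinarith
  have hm3 : m ≤ m^3 := by
    have h1 : (1:ℝ) ≤ m^2 := by nlinarith
    calc m = m * 1 := by ring
      _ ≤ m * m^2 := mul_le_mul_of_nonneg_left h1 hm0.le
      _ = m^3 := by ring
  have hKm3 : (K:ℝ) / (2 * m^3) ≤ 1/10 := by
    rw [div_le_div_iff₀ (by positivity) (by norm_num)]
    linarith
  -- Step 3
  obtain ⟨V, hV, _, hVvol⟩ := hISOT d K U Φ hF
  have hsqrt : Real.sqrt (Uᵀ * U).det = Real.exp (D / 2) := by
    rw [hD, Real.sqrt_eq_rpow, Real.rpow_def_of_pos hdpos]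
    ring_nf
  have hVle : volume (Pol V) ≤ ENNReal.ofReal (Real.exp (D / 2 + Real.log (Vne d K))) := by
    rw [hVvol, hsqrt, Real.exp_add, Real.exp_log hV0, ENNReal.ofReal_mul (Real.exp_pos _).le]
    gcongr
  have hVtop : volume (Pol V) ≠ ⊤ := ne_top_of_le_ne_top ENNReal.ofReal_ne_top hVle
  have hVle2 : volume (Pol V) ≤ ENNReal.ofReal (Real.exp (Nd d K + 1/10)) := by
    refine hVle.trans (ENNReal.ofReal_le_ofReal (Real.exp_le_exp.2 ?_))
    linarith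
  -- the c_i
  have hci : ∀ i, |m * cn Φ i - 1| ≤ 1 / 10000 := by
    intro i
    have h1 : (cn Φ i - K / ((d:ℝ) + K))^2 ≤ σ :=
      Finset.single_le_sum (f := fun i => (cn Φ i - K / ((d:ℝ) + K))^2)
        (fun j _ => sq_nonneg _) (Finset.mem_univ i)
    rw [hKm] at h1
    have h2 : (m * cn Φ i - 1)^2 ≤ 10 * (K / m) := by
      have e1 : (m * cn Φ i - 1)^2 = m^2 * (cn Φ i - 1 / m)^2 := by field_simp
      have e2 : m^2 * (10 * K / m^3) = 10 * (K / m) := by field_simp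
      rw [e1, ← e2]
      exact mul_le_mul_of_nonneg_left (h1.trans hσ1) (by positivity)
    have h3 : (m * cn Φ i - 1)^2 ≤ (1/10000)^2 := by
      refine h2.trans ?_
      linarith
    exact abs_le_of_sq_le_sq h3 (by norm_num)
  have hc10 : ∀ i, cn Φ i ≤ 1/10 := by
    intro i
    have h1 := (abs_le.1 (hci i)).2
    have h2 : m * cn Φ i ≤ 2 := by linarith
    have h3 : 20 ≤ m := by nlinarith
    by_contra h4
    push Not at h4
    nlinarith
  have hsq : ∑ i, (cn Φ i)^2 ≤ 1/10 := by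
    rw [sum_sq (fun i => cn Φ i) hK hsum]
    have h1 : (10:ℝ) * K / m^3 ≤ 1/100 := by
      rw [div_le_div_iff₀ (by positivity) (by norm_num)]
      linarith
    have h2 : (K:ℝ) * (K / ((d:ℝ) + K)) ≤ 1/100 := by
      rw [hKm]
      have : (K:ℝ) * (1 / m) = K / m := by ring
      rw [this]
      linarith
    have h3 : ∑ i, ((fun i => cn Φ i) i - K / ((d:ℝ) + K))^2 = σ := rfl
    rw [h3]
    linarith
  have hKn : ((K:ℝ) + 1)^2 ≤ ((d:ℝ) + K + 1) / 10 := by nlinarith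
  have hcut := hCUT d K V Φ hd hK hV hc10 hsq hKn hVle2
  have hDfc : Dfc Φ ≤ 100 := by
    have := dfc_le hDEF1 Φ hF.1
    linarith
  have hB := hMAINB1 d K V Φ hd hK hV hc10 hcut hDfc hVtop
  rw [← hσ] at hB
  have hB2 : Nd d K - σ / 5 + Dfc Φ / 165000 ≤ D / 2 + Real.log (Vne d K) := by
    have h3 := hB.trans hVle
    have h4 := (ENNReal.ofReal_le_ofReal_iff (Real.exp_pos _).le).1 h3
    exact Real.exp_le_exp.1 h4
  have hDm : Dfc Φ / 165000 ≤ K / (2 * m^3) := by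
    linarith
  have hDm2 : m^2 * Dfc Φ ≤ 1/4000 := by
    have h1 : Dfc Φ ≤ 165000 * (K / (2 * m^3)) := by linarith
    have h2 : m^2 * Dfc Φ ≤ m^2 * (165000 * (K / (2 * m^3))) :=
      mul_le_mul_of_nonneg_left h1 (by positivity)
    have h3 : m^2 * (165000 * (K / (2 * m^3))) = 82500 * (K / m) := by field_simp; ring
    rw [h3] at h2
    linarith
  refine ⟨V, hV, hVvol, hVtop, hcut, hc10, hDfc, ?_, ?_⟩
  · have : σ = ∑ i, (cn Φ i - 1 / m)^2 := by rw [hσ, hKm]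
    rw [← this]
    exact hσ1
  · have h100 : (100:ℝ) ≤ m := by linarith
    refine ⟨hK, hF.1, h100, ?_, ?_, hDm2⟩
    · rw [hmK]
      simp [Fintype.card_sum]
    · intro i
      exact (hci i).trans (by norm_num)

end Pool.LH73
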