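import Pool.Agent.Work.MP_1c7b0d_lh73.Interface

/-!
Block GAIN of the L'huilier project (row MP_1c7b0d_gt), helper65: from the pointwise bound with
loss to the gain `D/165000`.
-/

open MeasureTheory Matrix Pool.LH60
open scoped BigOperators ENNReal

namespace Pool.LH73

namespace GAIN

variable {d K : ℕ}

/-- `w_ab = ∑_i φ_ia φ_ib v_i` -/
def wv (V : Matrix (Ix d K) (Fin d) ℝ) (Φ : Matrix (Ix d K) (Fin K) ℝ) (a b : Fin K)
    (k : Fin d) : ℝ := ∑ i, Φ i a * Φ i b * V i k

/-- `⟨w, x⟩` -/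
def ip (w x : Fin d → ℝ) : ℝ := ∑ k, w k * x k

theorem entry (V : Matrix (Ix d K) (Fin d) ℝ) (Φ : Matrix (Ix d K) (Fin K) ℝ)
    (h : Φᵀ * Φ = 1) (x : Fin d → ℝ) (a b : Fin K) :
    (Dm Φ (yv V x) - 1) a b = -ip (wv V Φ a b) x := by
  have h1 := congrFun (congrFun h a) b
  rw [Matrix.mul_apply] at h1
  have h2 : Dm Φ (yv V x) a b = ∑ i, Φ i a * yv V x i * Φ i b := by
    unfold Dm
    rw [Matrix.mul_apply]
    refine Finset.sum_congr rfl fun i _ => ?_
    rw [Matrix.mul_diagonal, Matrix.transpose_apply]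
  rw [Matrix.sub_apply, h2, ← h1]
  unfold ip wv yv
  rw [← Finset.sum_sub_distrib]
  have h3 : ∑ k, (∑ i, Φ i a * Φ i b * V i k) * x k
      = ∑ i, Φ i a * Φ i b * ∑ k, V i k * x k := by
    calc ∑ k, (∑ i, Φ i a * Φ i b * V i k) * x k
        = ∑ k, ∑ i, Φ i a * Φ i b * V i k * x k :=
          Finset.sum_congr rfl fun k _ => Finset.sum_mul _ _ _
      _ = ∑ i, ∑ k, Φ i a * Φ i b * V i k * x k := Finset.sum_comm
      _ = ∑ i, Φ i a * Φ i b * ∑ k, V i k * x k := by
          refine Finset.sum_congr rfl fun i _ => ?_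
          rw [Finset.mul_sum]
          exact Finset.sum_congr rfl fun k _ => by ring
  rw [h3, ← Finset.sum_neg_distrib]
  refine Finset.sum_congr rfl fun i _ => ?_
  rw [Matrix.transpose_apply]
  ring

theorem hs_eq (V : Matrix (Ix d K) (Fin d) ℝ) (Φ : Matrix (Ix d K) (Fin K) ℝ)
    (h : Φᵀ * Φ = 1) (x : Fin d → ℝ) :
    hs (Dm Φ (yv V x) - 1) = ∑ a, ∑ b, (ip (wv V Φ a b) x)^2 := by
  unfold hs
  refine Finset.sum_congr rfl fun a _ => Finset.sum_congr rfl fun b _ => ?_
  rw [entry V Φ h x a b, neg_sq]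

/-- sum of truncations -/
theorem min_sum {ι : Type} (s : Finset ι) (f c : ι → ℝ) (h1 : ∑ i ∈ s, c i ≤ 1) :
    ∑ i ∈ s, min (f i) (c i) ≤ min (∑ i ∈ s, f i) 1 :=
  le_min (Finset.sum_le_sum fun _ _ => min_le_left _ _)
    (le_trans (Finset.sum_le_sum fun _ _ => min_le_right _ _) h1)

theorem exp_bd (m : ℝ) (h0 : 0 ≤ m) (h1 : m ≤ 1) : Real.exp (-(m/32)) ≤ 1 - m/33 := by
  have h2 : Real.exp (-(m/32)) * Real.exp (m/32) = 1 := by
    rw [← Real.exp_add]; simp
  have h3 : 1 + m/32 ≤ Real.exp (m/32) := by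
    have := Real.add_one_le_exp (m/32); linarith
  have h4 : 0 < Real.exp (-(m/32)) := Real.exp_pos _
  have h5 : Real.exp (-(m/32)) * (1 + m/32) ≤ 1 := by nlinarith
  have h6 : (1:ℝ) ≤ (1 - m/33) * (1 + m/32) := by nlinarith
  have h7 : 0 < 1 + m/32 := by positivity
  by_contra hc
  push Not at hc
  nlinarith

end GAIN

theorem GAIN_thm (hCVT : Stmt_CVT) (hDEF2 : Stmt_DEF2) : Stmt_GAIN := by
  intro d K V Φ b C hd hK hiso hcut hD htop hpt
  have hiso' := hiso
  obtain ⟨hV, hΦ, hΦV⟩ := hiso'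
  have hfr : IsFrame V Φ := ⟨hΦ, hΦV, by rw [hV, Matrix.det_one]; norm_num⟩
  have hint := hCVT d K V Φ b hfr
  have hDfc := hDEF2 d K V Φ hiso
  -- measurability
  have hPol : MeasurableSet (Pol V) := by
    have : Pol V = ⋂ i, {x | 0 < yv V x i} := by
      ext x; simp [Pol]
    rw [this]
    refine MeasurableSet.iInter fun i => ?_
    refine measurableSet_lt measurable_const ?_
    unfold yv
    fun_prop
  have hipm : ∀ w : Fin d → ℝ, Measurable (fun x : Fin d → ℝ => GAIN.ip w x) := by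
    intro w; unfold GAIN.ip; fun_prop
  set m : (Fin d → ℝ) → ℝ := fun x => min (hs (Dm Φ (yv V x) - 1)) 1 with hm
  have hm0 : ∀ x, 0 ≤ m x := by
    intro x
    refine le_min ?_ zero_le_one
    unfold hs
    exact Finset.sum_nonneg fun a _ => Finset.sum_nonneg fun b _ => sq_nonneg _
  have hm1 : ∀ x, m x ≤ 1 := fun x => min_le_right _ _
  have hmm : Measurable m := by
    have : m = fun x => min (∑ a, ∑ b, (GAIN.ip (GAIN.wv V Φ a b) x)^2) 1 := by
      funext x
      simp only [hm]
      rw [GAIN.hs_eq V Φ hΦ x]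
    rw [this]
    refine Measurable.min ?_ measurable_const
    refine Finset.measurable_sum _ fun a _ => Finset.measurable_sum _ fun b _ => ?_
    exact (hipm _).pow_const 2
  -- squared norms of the w_ab
  set W : Fin K → Fin K → ℝ := fun a b => ∑ k, (GAIN.wv V Φ a b k)^2 with hW
  have hW0 : ∀ a b, 0 ≤ W a b := fun a b => Finset.sum_nonneg fun k _ => sq_nonneg _
  have hWD : ∑ a, ∑ b, W a b = Dfc Φ := hDfc.symm
  have hD0 : 0 ≤ Dfc Φ := by
    rw [← hWD]; exact Finset.sum_nonneg fun a _ => Finset.sum_nonneg fun b _ => hW0 a b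
  -- pointwise lower bound of m
  have hmlow : ∀ x, ∑ p : Fin K × Fin K, min ((GAIN.ip (GAIN.wv V Φ p.1 p.2) x)^2)
      (W p.1 p.2 / 100) ≤ m x := by
    intro x
    simp only [hm]
    rw [GAIN.hs_eq V Φ hΦ x]
    have e1 : ∑ a, ∑ b, (GAIN.ip (GAIN.wv V Φ a b) x)^2
        = ∑ p : Fin K × Fin K, (GAIN.ip (GAIN.wv V Φ p.1 p.2) x)^2 := by
      rw [Fintype.sum_prod_type]
    rw [e1]
    refine GAIN.min_sum Finset.univ _ _ ?_
    rw [← Finset.sum_div, Fintype.sum_prod_type, hWD]
    rw [div_le_one (by norm_num)]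
    exact hD
  -- the integral of one term
  have hterm : ∀ a b, ENNReal.ofReal (W a b / 165000) * volume (Pol V)
      ≤ ∫⁻ x in Pol V, ENNReal.ofReal
        (min ((GAIN.ip (GAIN.wv V Φ a b) x)^2) (W a b / 100) / 33) := by
    intro a b
    rcases eq_or_lt_of_le (hW0 a b) with h0 | hpos
    · rw [← h0]; simp
    set r := Real.sqrt (W a b) with hr
    have hr0 : 0 < r := Real.sqrt_pos.mpr hpos
    have hr2 : r^2 = W a b := Real.sq_sqrt hpos.le
    have hω : ∑ k, (GAIN.wv V Φ a b k / r) ^ 2 = 1 := by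
      have : ∀ k, (GAIN.wv V Φ a b k / r) ^ 2 = (GAIN.wv V Φ a b k)^2 / r^2 := fun k => by
        rw [div_pow]
      rw [Finset.sum_congr rfl fun k _ => this k, ← Finset.sum_div, hr2]
      exact div_self hpos.ne'
    have hc := hcut (fun k => GAIN.wv V Φ a b k / r) hω
    set S : Set (Fin d → ℝ) :=
      {x | x ∈ Pol V ∧ 1/10 ≤ |∑ k, GAIN.wv V Φ a b k / r * x k|} with hS
    have hSm : MeasurableSet S := by
      have h2 : MeasurableSet {x : Fin d → ℝ | 1/10 ≤ |∑ k, GAIN.wv V Φ a b k / r * x k|} :=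
        measurableSet_le measurable_const (by fun_prop)
      exact hPol.inter h2
    have hSsub : S ⊆ Pol V := fun x hx => hx.1
    have hval : ∀ x ∈ S, W a b / 100 / 33 ≤
        min ((GAIN.ip (GAIN.wv V Φ a b) x)^2) (W a b / 100) / 33 := by
      intro x hx
      refine div_le_div_of_nonneg_right (le_min ?_ le_rfl) (by norm_num)
      have e : ∑ k, GAIN.wv V Φ a b k / r * x k = GAIN.ip (GAIN.wv V Φ a b) x / r := by
        unfold GAIN.ip
        rw [Finset.sum_div]
        exact Finset.sum_congr rfl fun k _ => by ring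
      have h2 := hx.2
      rw [e, abs_div, abs_of_pos hr0, le_div_iff₀ hr0] at h2
      rw [← sq_abs (GAIN.ip (GAIN.wv V Φ a b) x), ← hr2]
      have h3 : 0 ≤ 1/10 * r := by positivity
      nlinarith
    calc ENNReal.ofReal (W a b / 165000) * volume (Pol V)
        ≤ ENNReal.ofReal (W a b / 165000) * (50 * volume S) := by
          gcongr
      _ = ENNReal.ofReal (W a b / 100 / 33) * volume S := by
          rw [← mul_assoc]
          congr 1
          have : (50 : ℝ≥0∞) = ENNReal.ofReal 50 := by norm_num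
          rw [this, ← ENNReal.ofReal_mul (by positivity)]
          congr 1
          ring
      _ = ∫⁻ x in S, ENNReal.ofReal (W a b / 100 / 33) := by
          rw [setLIntegral_const]
      _ ≤ ∫⁻ x in S, ENNReal.ofReal
            (min ((GAIN.ip (GAIN.wv V Φ a b) x)^2) (W a b / 100) / 33) := by
          refine setLIntegral_mono' hSm fun x hx => ?_
          exact ENNReal.ofReal_le_ofReal (hval x hx)
      _ ≤ _ := lintegral_mono_set hSsub
  -- the integral of m
  have hmint : ENNReal.ofReal (Dfc Φ / 165000) * volume (Pol V)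
      ≤ ∫⁻ x in Pol V, ENNReal.ofReal (m x / 33) := by
    have hmeas : ∀ p : Fin K × Fin K, Measurable (fun x : Fin d → ℝ => ENNReal.ofReal
        (min ((GAIN.ip (GAIN.wv V Φ p.1 p.2) x)^2) (W p.1 p.2 / 100) / 33)) := by
      intro p
      refine ENNReal.measurable_ofReal.comp ?_
      exact (((hipm _).pow_const 2).min measurable_const).div_const 33
    calc ENNReal.ofReal (Dfc Φ / 165000) * volume (Pol V)
        = ∑ p : Fin K × Fin K, ENNReal.ofReal (W p.1 p.2 / 165000) * volume (Pol V) := by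
          rw [← Finset.sum_mul, ← ENNReal.ofReal_sum_of_nonneg
            (fun p _ => div_nonneg (hW0 _ _) (by norm_num)), ← Finset.sum_div,
            Fintype.sum_prod_type, hWD]
      _ ≤ ∑ p : Fin K × Fin K, ∫⁻ x in Pol V, ENNReal.ofReal
            (min ((GAIN.ip (GAIN.wv V Φ p.1 p.2) x)^2) (W p.1 p.2 / 100) / 33) :=
          Finset.sum_le_sum fun p _ => hterm p.1 p.2
      _ = ∫⁻ x in Pol V, ∑ p : Fin K × Fin K, ENNReal.ofReal
            (min ((GAIN.ip (GAIN.wv V Φ p.1 p.2) x)^2) (W p.1 p.2 / 100) / 33) := by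
          rw [lintegral_finsetSum _ fun p _ => hmeas p]
      _ ≤ ∫⁻ x in Pol V, ENNReal.ofReal (m x / 33) := by
          refine lintegral_mono fun x => ?_
          change ∑ p : Fin K × Fin K, ENNReal.ofReal
            (min ((GAIN.ip (GAIN.wv V Φ p.1 p.2) x)^2) (W p.1 p.2 / 100) / 33)
              ≤ ENNReal.ofReal (m x / 33)
          rw [← ENNReal.ofReal_sum_of_nonneg (fun p _ => div_nonneg
            (le_min (sq_nonneg _) (div_nonneg (hW0 _ _) (by norm_num))) (by norm_num)),
            ← Finset.sum_div]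
          exact ENNReal.ofReal_le_ofReal
            (div_le_div_of_nonneg_right (hmlow x) (by norm_num))
  -- the complementary integral
  set A := ∫⁻ x in Pol V, ENNReal.ofReal (1 - m x / 33) with hA
  have hsum : A + ∫⁻ x in Pol V, ENNReal.ofReal (m x / 33) = volume (Pol V) := by
    rw [hA, ← lintegral_add_right _ (hmm.div_const 33).ennreal_ofReal]
    have : ∀ x, ENNReal.ofReal (1 - m x / 33) + ENNReal.ofReal (m x / 33) = 1 := by
      intro x
      rw [← ENNReal.ofReal_add (by linarith [hm1 x]) (by linarith [hm0 x])]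
      simp
    rw [lintegral_congr fun x => this x]
    simp
  have h1A : (1 : ℝ≥0∞) ≤ ENNReal.ofReal (Real.exp C) * A := by
    rw [← hint]
    calc (∫⁻ x in Pol V, (ENNReal.ofReal (Real.sqrt (Vᵀ * V).det * (Dm Φ (yv V x)).det) *
          (∫⁻ f : Fin K → ℝ, ENNReal.ofReal
            (Real.exp (∑ i, (sl Φ b f i - yv V x i * Real.exp (sl Φ b f i)))))))
        ≤ ∫⁻ x in Pol V, ENNReal.ofReal (Real.exp C) * ENNReal.ofReal (1 - m x / 33) := by
          refine setLIntegral_mono' hPol fun x hx => ?_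
          refine le_trans (hpt x hx) ?_
          rw [← ENNReal.ofReal_mul (Real.exp_pos C).le]
          refine ENNReal.ofReal_le_ofReal ?_
          have : C - min (hs (Dm Φ (yv V x) - 1)) 1 / 32 = C + -(m x / 32) := by
            simp only [hm]; ring
          rw [this, Real.exp_add]
          exact mul_le_mul_of_nonneg_left (GAIN.exp_bd (m x) (hm0 x) (hm1 x))
            (Real.exp_pos C).le
      _ = ENNReal.ofReal (Real.exp C) * A := by
          rw [lintegral_const_mul' _ _ ENNReal.ofReal_ne_top]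
  -- real numbers
  have hA_le : A ≤ volume (Pol V) := by
    rw [← hsum]; exact le_self_add
  have hAtop : A ≠ ⊤ := ne_top_of_le_ne_top htop hA_le
  set v := (volume (Pol V)).toReal with hv
  have hv0 : 0 ≤ v := ENNReal.toReal_nonneg
  have hvof : volume (Pol V) = ENNReal.ofReal v := (ENNReal.ofReal_toReal htop).symm
  have hAv : A.toReal + Dfc Φ / 165000 * v ≤ v := by
    have h2 : A + ENNReal.ofReal (Dfc Φ / 165000) * volume (Pol V) ≤ volume (Pol V) := by
      calc A + ENNReal.ofReal (Dfc Φ / 165000) * volume (Pol V)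
          ≤ A + ∫⁻ x in Pol V, ENNReal.ofReal (m x / 33) := by gcongr
        _ = volume (Pol V) := hsum
    have h3 := ENNReal.toReal_mono htop h2
    rw [ENNReal.toReal_add hAtop (ENNReal.mul_ne_top ENNReal.ofReal_ne_top htop),
      ENNReal.toReal_mul, ENNReal.toReal_ofReal (by positivity)] at h3
    exact h3
  have h1A' : 1 ≤ Real.exp C * A.toReal := by
    have h3 := ENNReal.toReal_mono (ENNReal.mul_ne_top ENNReal.ofReal_ne_top hAtop) h1A
    rw [ENNReal.toReal_mul, ENNReal.toReal_ofReal (Real.exp_pos C).le,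
      ENNReal.toReal_one] at h3
    exact h3
  rw [hvof]
  refine ENNReal.ofReal_le_ofReal ?_
  have hk : 1 ≤ Real.exp C * (v * Real.exp (-(Dfc Φ / 165000))) := by
    refine le_trans h1A' (mul_le_mul_of_nonneg_left ?_ (Real.exp_pos C).le)
    have h4 : A.toReal ≤ v * (1 - Dfc Φ / 165000) := by linarith
    refine le_trans h4 (mul_le_mul_of_nonneg_left ?_ hv0)
    have := Real.add_one_le_exp (-(Dfc Φ / 165000))
    linarith
  have hE : Real.exp (-C + Dfc Φ / 165000) * (Real.exp C * Real.exp (-(Dfc Φ / 165000))) = 1 := by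
    rw [← Real.exp_add, ← Real.exp_add]
    have : -C + Dfc Φ / 165000 + (C + -(Dfc Φ / 165000)) = 0 := by ring
    rw [this, Real.exp_zero]
  calc Real.exp (-C + Dfc Φ / 165000) = Real.exp (-C + Dfc Φ / 165000) * 1 := (mul_one _).symm
    _ ≤ Real.exp (-C + Dfc Φ / 165000) * (Real.exp C * (v * Real.exp (-(Dfc Φ / 165000)))) :=
        mul_le_mul_of_nonneg_left hk (Real.exp_pos _).le
    _ = (Real.exp (-C + Dfc Φ / 165000) * (Real.exp C * Real.exp (-(Dfc Φ / 165000)))) * v := by
        ring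
    _ = v := by rw [hE, one_mul]

end Pool.LH73
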