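import Pool.Agent.Work.MP_1c7b0d_lh73.Interface

open Matrix Pool.LH60
open scoped BigOperators

namespace Pool.LH73

theorem HSL_thm : Stmt_HSL := by
  intro K D e Q h
  have hQQ' : Q * Qᵀ = 1 := mul_eq_one_comm.mp h.orth
  have h1 : D - 1 = Q * Matrix.diagonal (fun k => e k - 1) * Qᵀ := by
    have e1 : Matrix.diagonal (fun k => e k - 1) = Matrix.diagonal e - (1 : Matrix _ _ ℝ) := by
      rw [← Matrix.diagonal_one, Matrix.diagonal_sub]
    rw [e1, Matrix.mul_sub, Matrix.sub_mul, ← h.eq, Matrix.mul_one, hQQ']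
  have hhs : ∀ M : Matrix (Fin K) (Fin K) ℝ, hs M = Matrix.trace (Mᵀ * M) := by
    intro M
    unfold hs Matrix.trace
    rw [Finset.sum_comm]
    refine Finset.sum_congr rfl fun b _ => ?_
    rw [Matrix.diag_apply, Matrix.mul_apply]
    refine Finset.sum_congr rfl fun a _ => ?_
    rw [Matrix.transpose_apply]; ring
  have h2 : hs (D - 1) = ∑ k, (e k - 1) ^ 2 := by
    rw [hhs, h1]
    set Δ : Matrix (Fin K) (Fin K) ℝ := Matrix.diagonal (fun k => e k - 1) with hΔ
    have e2 : (Q * Δ * Qᵀ)ᵀ * (Q * Δ * Qᵀ) = Q * (Δ * Δ * Qᵀ) := by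
      rw [Matrix.transpose_mul, Matrix.transpose_mul, Matrix.transpose_transpose]
      have : Δᵀ = Δ := by rw [hΔ, Matrix.diagonal_transpose]
      rw [this]
      calc Q * (Δ * Qᵀ) * (Q * Δ * Qᵀ) = Q * (Δ * (Qᵀ * Q) * Δ * Qᵀ) := by
            simp only [Matrix.mul_assoc]
        _ = Q * (Δ * Δ * Qᵀ) := by rw [h.orth, Matrix.mul_one]
    rw [e2, Matrix.trace_mul_comm, Matrix.mul_assoc, h.orth, Matrix.mul_one, hΔ,
      Matrix.diagonal_mul_diagonal, Matrix.trace_diagonal]
    exact Finset.sum_congr rfl fun k _ => by ring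
  have h3 : min (∑ k, (e k - 1) ^ 2) 1 ≤ ∑ k, min ((e k - 1) ^ 2) 1 := by
    by_cases hk : ∃ k, 1 ≤ (e k - 1) ^ 2
    · obtain ⟨k, hk⟩ := hk
      refine (min_le_right _ _).trans ?_
      have h4 : min ((e k - 1) ^ 2) 1 = 1 := min_eq_right hk
      refine h4.symm.le.trans ?_
      exact Finset.single_le_sum (f := fun k => min ((e k - 1) ^ 2) 1)
        (fun j _ => le_min (sq_nonneg _) zero_le_one) (Finset.mem_univ k)
    · push Not at hk
      refine (min_le_left _ _).trans ?_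
      refine Finset.sum_le_sum fun k _ => ?_
      exact le_min le_rfl (hk k).le
  rw [h2]
  unfold lam
  rw [← Finset.sum_div]
  exact div_le_div_of_nonneg_right h3 (by norm_num)

end Pool.LH73
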