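import Pool.Agent.Work.MP_1c7b0d_lh73.Interface
import Pool.Agent.Work.MP_1c7b0d_lh60.ISO

/-!
Block ISOG (helper94): two configurations with the pattern `PatG` give congruent polytopes.
Adapted from the block ISO (helper48).
-/

open MeasureTheory Matrix Pool.LH60
open scoped BigOperators

namespace Pool.LH73

namespace ISOGaux

section frame
variable {d : ℕ} {ι : Type*} [Fintype ι]

/-- a Parseval frame from the trace and the Frobenius norm of the Gram matrix -/
lemma tight {v : ι → EuclideanSpace ℝ (Fin d)} (hT : ∑ i, (inner ℝ (v i) (v i) : ℝ) = d)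
    (hF : ∑ i, ∑ j, (inner ℝ (v i) (v j) : ℝ) ^ 2 = d) :
    ∀ x y : EuclideanSpace ℝ (Fin d),
      ∑ i, inner ℝ (v i) x * inner ℝ (v i) y = inner ℝ x y := by
  classical
  have hin : ∀ x y : EuclideanSpace ℝ (Fin d), inner ℝ x y = ∑ a, x a * y a := by
    intro x y
    rw [PiLp.inner_apply]
    exact Finset.sum_congr rfl (fun i _ => by simp [mul_comm])
  set S : Fin d → Fin d → ℝ := fun a b => ∑ i, v i a * v i b with hS
  have hSS : ∑ a, ∑ b, S a b * S a b = d := by
    rw [← hF]
    have e1 : ∀ a b, S a b * S a b = ∑ i, ∑ j, (v i a * v j a) * (v i b * v j b) := by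
      intro a b
      rw [hS]
      simp only [Finset.sum_mul_sum]
      refine Finset.sum_congr rfl (fun i _ => Finset.sum_congr rfl (fun j _ => ?_))
      ring
    have e2 : ∀ i j, (inner ℝ (v i) (v j) : ℝ) ^ 2
        = ∑ a, ∑ b, (v i a * v j a) * (v i b * v j b) := by
      intro i j
      rw [hin, sq, Finset.sum_mul_sum]
    simp only [e1, e2]
    calc ∑ a, ∑ b, ∑ i, ∑ j, (v i a * v j a) * (v i b * v j b)
        = ∑ a, ∑ i, ∑ b, ∑ j, (v i a * v j a) * (v i b * v j b) :=
          Finset.sum_congr rfl (fun a _ => Finset.sum_comm)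
      _ = ∑ i, ∑ a, ∑ b, ∑ j, (v i a * v j a) * (v i b * v j b) := Finset.sum_comm
      _ = ∑ i, ∑ a, ∑ j, ∑ b, (v i a * v j a) * (v i b * v j b) :=
          Finset.sum_congr rfl (fun i _ => Finset.sum_congr rfl (fun a _ => Finset.sum_comm))
      _ = ∑ i, ∑ j, ∑ a, ∑ b, (v i a * v j a) * (v i b * v j b) :=
          Finset.sum_congr rfl (fun i _ => Finset.sum_comm)
  have hSt : ∑ a, S a a = d := by
    rw [hS]
    simp only
    rw [Finset.sum_comm, ← hT]
    exact Finset.sum_congr rfl (fun i _ => (hin _ _).symm)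
  have hz : ∑ a, ∑ b, (S a b - (if a = b then 1 else 0)) ^ 2 = 0 := by
    have e1 : ∀ a b, (S a b - (if a = b then 1 else 0)) ^ 2
        = S a b * S a b - (if a = b then 2 * S a a - 1 else 0) := by
      intro a b
      by_cases h : a = b
      · subst h; simp only [if_true]; ring
      · simp only [if_neg h]; ring
    simp only [e1, Finset.sum_sub_distrib, Finset.sum_ite_eq, Finset.mem_univ, if_true, hSS]
    rw [← Finset.mul_sum, hSt]
    simp only [Finset.sum_const, Finset.card_univ, Fintype.card_fin, nsmul_eq_mul]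
    ring
  have hSab : ∀ a b, S a b = if a = b then 1 else 0 := by
    intro a b
    have h1 := (Finset.sum_eq_zero_iff_of_nonneg
      (fun a _ => Finset.sum_nonneg (fun b _ => sq_nonneg _))).1 hz a (Finset.mem_univ _)
    have h2 := (Finset.sum_eq_zero_iff_of_nonneg (fun b _ => sq_nonneg _)).1 h1 b (Finset.mem_univ _)
    have h3 := pow_eq_zero_iff (two_ne_zero) |>.1 h2
    linarith
  intro x y
  have e1 : ∀ i, inner ℝ (v i) x * inner ℝ (v i) y
      = ∑ a, ∑ b, (v i a * v i b) * (x a * y b) := by
    intro i
    rw [hin, hin, Finset.sum_mul_sum]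
    refine Finset.sum_congr rfl (fun i _ => Finset.sum_congr rfl (fun j _ => ?_))
    ring
  simp only [e1]
  calc ∑ i, ∑ a, ∑ b, (v i a * v i b) * (x a * y b)
      = ∑ a, ∑ i, ∑ b, (v i a * v i b) * (x a * y b) := Finset.sum_comm
    _ = ∑ a, ∑ b, ∑ i, (v i a * v i b) * (x a * y b) :=
        Finset.sum_congr rfl (fun a _ => Finset.sum_comm)
    _ = ∑ a, ∑ b, S a b * (x a * y b) := by
        refine Finset.sum_congr rfl (fun a _ => Finset.sum_congr rfl (fun b _ => ?_))
        rw [hS, ← Finset.sum_mul]
    _ = ∑ a, (x a * y a) := by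
        refine Finset.sum_congr rfl (fun a _ => ?_)
        simp only [hSab, ite_mul, zero_mul, one_mul, Finset.sum_ite_eq, Finset.mem_univ, if_true]
    _ = inner ℝ x y := by rw [hin]

end frame

lemma sum_msz {d K : ℕ} (p : Ix d K → Fin K) : ∑ b, msz p b = d + K := by
  classical
  have h := Finset.card_eq_sum_card_fiberwise (f := p) (s := (Finset.univ : Finset (Ix d K)))
    (t := (Finset.univ : Finset (Fin K))) (fun _ _ => Finset.mem_coe.2 (Finset.mem_univ _))
  rw [Finset.card_univ, Fintype.card_sum, Fintype.card_fin, Fintype.card_fin] at h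
  rw [h]
  refine Finset.sum_congr rfl (fun b _ => ?_)
  unfold msz fib
  congr

lemma card_big {d K : ℕ} (p : Ix d K → Fin K)
    (hs : ∀ b, msz p b = d / K + 1 ∨ msz p b = d / K + 2) :
    (Finset.univ.filter (fun b => msz p b = d / K + 2)).card = d % K := by
  have h1 := sum_msz p
  have h2 : ∀ b, msz p b = (d / K + 1) + (if msz p b = d / K + 2 then 1 else 0) := by
    intro b
    rcases hs b with h | h
    · rw [if_neg (by omega), h]
    · rw [if_pos h, h]
  rw [Finset.sum_congr rfl (fun b _ => h2 b), Finset.sum_add_distrib, Finset.sum_const,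
    Finset.card_univ, Fintype.card_fin, smul_eq_mul, ← Finset.card_filter] at h1
  have h3 := Nat.div_add_mod d K
  have h4 : K * (d / K + 1) = K * (d / K) + K := by ring
  omega

end ISOGaux

open ISOGaux in
theorem ISOG_thm : Stmt_ISOG := by
  classical
  intro d K u u' hK hKd hu hu' hP hP'
  have hd : 1 ≤ d := le_trans hK hKd
  have hq : 1 ≤ d / K := (Nat.one_le_div_iff (by omega)).2 hKd
  obtain ⟨p, hs, hp1, hp2⟩ := hP
  obtain ⟨p', hs', hp1', hp2'⟩ := hP'
  -- a permutation of the labels matching the sizes
  have hcardL : ∀ n : ℕ, Fintype.card {b // msz p b = n} = Fintype.card {b // msz p' b = n} := by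
    intro n
    rw [Fintype.card_subtype, Fintype.card_subtype]
    by_cases h2 : n = d / K + 2
    · subst h2
      rw [card_big p hs, card_big p' hs']
    · by_cases h1 : n = d / K + 1
      · subst h1
        have e : ∀ p : Ix d K → Fin K, (∀ b, msz p b = d / K + 1 ∨ msz p b = d / K + 2) →
            (Finset.univ.filter (fun b => msz p b = d / K + 1)).card = K - d % K := by
          intro p hs
          have e1 : Finset.univ.filter (fun b => msz p b = d / K + 1)
              = (Finset.univ.filter (fun b => msz p b = d / K + 2))ᶜ := by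
            ext b
            simp only [Finset.mem_filter, Finset.mem_univ, true_and, Finset.mem_compl]
            rcases hs b with h | h <;> omega
          rw [e1, Finset.card_compl, Fintype.card_fin, card_big p hs]
        rw [e p hs, e p' hs']
      · have e : ∀ p : Ix d K → Fin K, (∀ b, msz p b = d / K + 1 ∨ msz p b = d / K + 2) →
            Finset.univ.filter (fun b => msz p b = n) = ∅ := by
          intro p hs
          ext b
          simp only [Finset.mem_filter, Finset.mem_univ, true_and, Finset.notMem_empty, iff_false]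
          rcases hs b with h | h <;> omega
        rw [e p hs, e p' hs']
  set π : Fin K ≃ Fin K := Equiv.ofFiberEquiv (fun n => Fintype.equivOfCardEq (hcardL n)) with hπ
  have hπs : ∀ b, msz p' (π b) = msz p b := fun b => Equiv.ofFiberEquiv_map _ b
  -- the permutation of the facets
  have hcard : ∀ b : Fin K,
      Fintype.card {i // p i = b} = Fintype.card {i // π.symm (p' i) = b} := by
    intro b
    rw [Fintype.card_subtype, Fintype.card_subtype]
    have h1 := hπs b
    unfold msz fib at h1
    have e1 : Finset.univ.filter (fun i => π.symm (p' i) = b)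
        = Finset.univ.filter (fun i => p' i = π b) := by
      ext i
      simp only [Finset.mem_filter, Finset.mem_univ, true_and]
      exact Equiv.symm_apply_eq π
    rw [e1]
    exact h1.symm
  set σ : Ix d K ≃ Ix d K := Equiv.ofFiberEquiv (f := p) (g := fun i => π.symm (p' i))
    (fun a => Fintype.equivOfCardEq (hcard a)) with hσ
  have hσp : ∀ i, π.symm (p' (σ i)) = p i := fun i =>
    Equiv.ofFiberEquiv_map (f := p) (g := fun i => π.symm (p' i)) _ i
  have hσp' : ∀ i, p' (σ i) = π (p i) := fun i => (Equiv.symm_apply_eq π).1 (hσp i)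
  -- Gram matrices
  have hG : ∀ i j : Ix d K, (inner ℝ (u (finSumFinEquiv i)) (u (finSumFinEquiv j)) : ℝ)
      = inner ℝ (u' (finSumFinEquiv (σ i))) (u' (finSumFinEquiv (σ j))) := by
    intro i j
    by_cases hij : i = j
    · subst hij
      rw [real_inner_self_eq_norm_sq, real_inner_self_eq_norm_sq, hu, hu']
    · have hij' : σ i ≠ σ j := fun h => hij (σ.injective h)
      rw [← matU_gram, ← matU_gram]
      by_cases hpp : p i = p j
      · rw [hp1 i j hij hpp, hp1' (σ i) (σ j) hij' (by rw [hσp', hσp', hpp]), hσp', hπs]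
      · rw [hp2 i j hpp, hp2' (σ i) (σ j) (by rw [hσp', hσp']; exact fun h => hpp (π.injective h))]
  -- weights
  set t : Ix d K → ℝ := fun i => ((msz p (p i) : ℝ) - 1) / (msz p (p i) : ℝ) with ht
  have hm2 : ∀ b, (2:ℝ) ≤ msz p b := by
    intro b
    have : 2 ≤ msz p b := by rcases hs b with h | h <;> omega
    exact_mod_cast this
  have htpos : ∀ i, 0 < t i := by
    intro i
    have := hm2 (p i)
    exact div_pos (by linarith) (by linarith)
  have hcI : (Fintype.card (Ix d K) : ℝ) = (d:ℝ) + K := by
    rw [Fintype.card_sum, Fintype.card_fin, Fintype.card_fin]; push_cast; ring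
  -- the sum of the weights
  have htsum : ∑ i, t i = d := by
    have e1 : ∀ i, t i = 1 - 1 / (msz p (p i) : ℝ) := by
      intro i
      have := hm2 (p i)
      rw [ht]; field_simp
    rw [Finset.sum_congr rfl (fun i _ => e1 i), Finset.sum_sub_distrib]
    have e2 : ∑ i, 1 / (msz p (p i) : ℝ) = K := by
      rw [← Finset.sum_fiberwise_of_maps_to (s := (Finset.univ : Finset (Ix d K)))
        (t := (Finset.univ : Finset (Fin K))) (g := p) (fun _ _ => Finset.mem_univ _)]
      have e3 : ∀ b : Fin K, ∑ i ∈ Finset.univ.filter (fun i => p i = b), 1 / (msz p (p i) : ℝ)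
          = 1 := by
        intro b
        have e4 : ∀ i ∈ Finset.univ.filter (fun i => p i = b), 1 / (msz p (p i) : ℝ)
            = 1 / (msz p b : ℝ) := by
          intro i hi
          rw [(Finset.mem_filter.1 hi).2]
        rw [Finset.sum_congr rfl e4, Finset.sum_const, nsmul_eq_mul]
        have e5 : ((Finset.univ.filter (fun i => p i = b)).card : ℝ) = msz p b := rfl
        rw [e5]
        have := hm2 b
        field_simp
      rw [Finset.sum_congr rfl (fun b _ => e3 b)]
      simp
    rw [e2, Finset.sum_const, Finset.card_univ, nsmul_eq_mul, mul_one, hcI]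
    ring
  set v : Ix d K → EuclideanSpace ℝ (Fin d) := fun i => Real.sqrt (t i) • u (finSumFinEquiv i)
    with hv
  set v' : Ix d K → EuclideanSpace ℝ (Fin d) :=
    fun i => Real.sqrt (t i) • u' (finSumFinEquiv (σ i)) with hv'
  have hvin : ∀ i j, (inner ℝ (v i) (v j) : ℝ)
      = Real.sqrt (t i) * Real.sqrt (t j) *
        inner ℝ (u (finSumFinEquiv i)) (u (finSumFinEquiv j)) := by
    intro i j
    rw [hv]
    simp only
    rw [inner_smul_left, inner_smul_right]
    simp only [conj_trivial]
    ring
  have hvin' : ∀ i j, (inner ℝ (v' i) (v' j) : ℝ)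
      = Real.sqrt (t i) * Real.sqrt (t j) *
        inner ℝ (u' (finSumFinEquiv (σ i))) (u' (finSumFinEquiv (σ j))) := by
    intro i j
    rw [hv']
    simp only
    rw [inner_smul_left, inner_smul_right]
    simp only [conj_trivial]
    ring
  have hT : ∑ i, (inner ℝ (v i) (v i) : ℝ) = d := by
    rw [← htsum]
    refine Finset.sum_congr rfl (fun i _ => ?_)
    rw [hvin, Real.mul_self_sqrt (htpos i).le, real_inner_self_eq_norm_sq, hu]
    ring
  have hrow : ∀ i : Ix d K, ∑ j : Ix d K, (inner ℝ (v i) (v j) : ℝ) ^ 2 = t i := by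
    intro i
    have hm := hm2 (p i)
    have e0 : ∀ j : Ix d K, (inner ℝ (v i) (v j) : ℝ) ^ 2
        = t i * t j * (inner ℝ (u (finSumFinEquiv i)) (u (finSumFinEquiv j))) ^ 2 := by
      intro j
      rw [hvin, mul_pow, mul_pow, Real.sq_sqrt (htpos i).le, Real.sq_sqrt (htpos j).le]
    have e1 : ∀ j : Ix d K, (inner ℝ (v i) (v j) : ℝ) ^ 2
        = (if p j = p i then (t i) ^ 2 * (1 / ((msz p (p i) : ℝ) - 1)) ^ 2 else 0)
          + (if j = i then (t i) ^ 2 * (1 - (1 / ((msz p (p i) : ℝ) - 1)) ^ 2) else 0) := by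
      intro j
      rw [e0]
      by_cases hij : j = i
      · subst hij
        rw [real_inner_self_eq_norm_sq, hu, if_pos rfl, if_pos rfl]; ring
      · rw [← matU_gram, if_neg hij]
        by_cases hpp : p j = p i
        · have ht2 : t j = t i := by rw [ht]; simp only [hpp]
          rw [hp1 i j (fun h => hij h.symm) hpp.symm, if_pos hpp, ht2]; ring
        · rw [hp2 i j (fun h => hpp h.symm), if_neg hpp]; ring
    simp only [e1, Finset.sum_add_distrib, Finset.sum_ite_eq', Finset.mem_univ, if_true]
    rw [← Finset.sum_filter, Finset.sum_const, nsmul_eq_mul]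
    have e5 : ((Finset.univ.filter (fun j => p j = p i)).card : ℝ) = msz p (p i) := rfl
    rw [e5, ht]
    simp only
    have h1 : ((msz p (p i) : ℝ) - 1) ≠ 0 := by linarith
    have h2 : ((msz p (p i) : ℝ)) ≠ 0 := by linarith
    field_simp
    ring
  have hF : ∑ i : Ix d K, ∑ j : Ix d K, (inner ℝ (v i) (v j) : ℝ) ^ 2 = d := by
    rw [Finset.sum_congr rfl (fun i _ => hrow i), htsum]
  have hfr := ISOGaux.tight hT hF
  obtain ⟨φ, hφ⟩ := iso_frame (v := v) (v' := v') (c := 1) one_ne_zero
    (fun x y => by rw [hfr, one_mul]) (fun i j => by rw [hvin, hvin', hG])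
  have hφ' : ∀ j x, (inner ℝ (u' (finSumFinEquiv (σ j))) (φ x) : ℝ)
      = inner ℝ (u (finSumFinEquiv j)) x := by
    intro j x
    have h := hφ j x
    rw [hv, hv'] at h
    simp only at h
    rw [inner_smul_left, inner_smul_left] at h
    simp only [conj_trivial] at h
    exact mul_left_cancel₀ (Real.sqrt_pos.2 (htpos j)).ne' h
  refine ⟨φ, ?_⟩
  have key : ∀ x, φ x ∈ Pool.Agent.Work.MP_1c7b0d_gt.circ u' ↔
      x ∈ Pool.Agent.Work.MP_1c7b0d_gt.circ u := by
    intro x
    constructor
    · intro h i
      have h1 := hφ' (finSumFinEquiv.symm i) x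
      simp only [Equiv.apply_symm_apply] at h1
      rw [← h1]
      exact h _
    · intro h i
      have h1 := hφ' (σ.symm (finSumFinEquiv.symm i)) x
      simp only [Equiv.apply_symm_apply] at h1
      rw [h1]
      exact h _
  ext y
  constructor
  · rintro ⟨x, hx, rfl⟩
    exact (key x).2 hx
  · intro hy
    refine ⟨φ.symm y, ?_, φ.apply_symm_apply y⟩
    rw [← key, φ.apply_symm_apply]
    exact hy

end Pool.LH73
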