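import Pool.Agent.Work.MP_1c7b0d_lh73.Interface

set_option autoImplicit false

open MeasureTheory Matrix Pool.LH60
open scoped BigOperators MatrixOrder

namespace Pool.LH73

/-- **ISOT**: passage to the isotropic position. -/
theorem ISOT_thm : Stmt_ISOT := by
  intro d K U Φ hF
  obtain ⟨hΦ, hΦU, hdet⟩ := hF
  have hpsd : (Uᵀ * U).PosSemidef := by
    have h := Matrix.posSemidef_conjTranspose_mul_self U
    rwa [conjTranspose_eq_transpose_of_trivial] at h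
  obtain ⟨B, hB⟩ := CStarAlgebra.nonneg_iff_eq_star_mul_self.mp hpsd.nonneg
  have hstar : star B = Bᵀ := by
    rw [star_eq_conjTranspose, conjTranspose_eq_transpose_of_trivial]
  rw [hstar] at hB
  have hdetB : (Uᵀ * U).det = B.det ^ 2 := by
    rw [hB, Matrix.det_mul, Matrix.det_transpose]
    ring
  have hBdet : B.det ≠ 0 := by
    intro h0
    rw [hdetB, h0] at hdet
    norm_num at hdet
  have hBu : IsUnit B.det := isUnit_iff_ne_zero.mpr hBdet
  have hBB : B * B⁻¹ = 1 := Matrix.mul_nonsing_inv B hBu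
  have hBB' : B⁻¹ * B = 1 := Matrix.nonsing_inv_mul B hBu
  have hBT : (B⁻¹)ᵀ * Bᵀ = 1 := by
    rw [← Matrix.transpose_mul, hBB, Matrix.transpose_one]
  have hBT' : Bᵀ * (B⁻¹)ᵀ = 1 := by
    rw [← Matrix.transpose_mul, hBB', Matrix.transpose_one]
  have hSinv : (Uᵀ * U)⁻¹ = B⁻¹ * (B⁻¹)ᵀ := by
    apply Matrix.inv_eq_right_inv
    rw [hB]
    calc (Bᵀ * B) * (B⁻¹ * (B⁻¹)ᵀ) = Bᵀ * (B * B⁻¹) * (B⁻¹)ᵀ := by simp only [Matrix.mul_assoc]
      _ = Bᵀ * (B⁻¹)ᵀ := by rw [hBB, Matrix.mul_one]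
      _ = 1 := hBT'
  refine ⟨U * B⁻¹, ⟨?_, hΦ, ?_⟩, ?_, ?_⟩
  · calc (U * B⁻¹)ᵀ * (U * B⁻¹) = (B⁻¹)ᵀ * (Uᵀ * U) * B⁻¹ := by
          rw [Matrix.transpose_mul]; simp only [Matrix.mul_assoc]
      _ = (B⁻¹)ᵀ * (Bᵀ * B) * B⁻¹ := by rw [hB]
      _ = ((B⁻¹)ᵀ * Bᵀ) * (B * B⁻¹) := by simp only [Matrix.mul_assoc]
      _ = 1 := by rw [hBB, hBT, Matrix.mul_one]
  · rw [← Matrix.mul_assoc, hΦU, Matrix.zero_mul]
  · rw [hSinv, Matrix.transpose_mul]
    simp only [Matrix.mul_assoc]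
  · have hpre : Pol (U * B⁻¹) = (Matrix.toLin' B⁻¹) ⁻¹' (Pol U) := by
      ext x
      have hy : ∀ i, yv (U * B⁻¹) x i = yv U (Matrix.toLin' B⁻¹ x) i := by
        intro i
        unfold yv
        congr 1
        have h1 : ((U * B⁻¹) *ᵥ x) i = (U *ᵥ (B⁻¹ *ᵥ x)) i := by
          rw [Matrix.mulVec_mulVec]
        simp only [Matrix.mulVec, dotProduct] at h1
        rw [Matrix.toLin'_apply]
        simp only [Matrix.mulVec, dotProduct]
        exact h1
      simp only [Pol, Set.mem_setOf_eq, Set.mem_preimage]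
      exact forall_congr' fun i => by rw [hy i]
    have hBinv : LinearMap.det (Matrix.toLin' B⁻¹) ≠ 0 := by
      rw [LinearMap.det_toLin']
      exact (Matrix.isUnit_nonsing_inv_det B hBu).ne_zero
    rw [hpre, MeasureTheory.Measure.addHaar_preimage_linearMap volume hBinv, LinearMap.det_toLin',
      Matrix.det_nonsing_inv, Ring.inverse_eq_inv', inv_inv, hdetB, Real.sqrt_sq_eq_abs]

end Pool.LH73
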