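import Pool.Agent.Work.MP_1c7b0d_lh73.Interface

/-! LOW73 (helper58): the lower bound and the pattern of the equality case. -/

open MeasureTheory Matrix Pool.LH60
open scoped BigOperators

namespace Pool.LH73

namespace LOW73

variable {d K : ℕ}

theorem sum_msz {ι : Type} [Fintype ι] [DecidableEq ι] {L : ℕ} (a : ι → Fin L) :
    ∑ b, msz a b = Fintype.card ι := by
  unfold msz fib
  rw [← Finset.card_univ]
  exact (Finset.card_eq_sum_card_fiberwise (f := a) (s := Finset.univ) (t := Finset.univ)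
    (fun i _ => Finset.mem_univ _)).symm

/-- The linear algebra of the equality case. -/
theorem pattern (hDEF1 : Stmt_DEF1) (hFRI : Stmt_FRI)
    (U : Matrix (Ix d K) (Fin d) ℝ) (Φ : Matrix (Ix d K) (Fin K) ℝ) (hF : IsFrame U Φ)
    (a : Ix d K → Fin K) (h2 : ∀ b, 2 ≤ msz a b) (hne : ∀ i j, a i = a j → pp Φ i j ≠ 0)
    (hD : Dfc Φ = 0) (hc : ∀ i, cn Φ i = 1 / (msz a (a i) : ℝ))
    (hE : ∀ i j, (U * (Uᵀ * U)⁻¹ * Uᵀ) i j = (U * (Uᵀ * U)⁻¹ * Uᵀ) i i * (U * Uᵀ) i j) :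
    (∀ i j, i ≠ j → a i = a j → (U * Uᵀ) i j = -1 / ((msz a (a i) : ℝ) - 1)) ∧
    (∀ i j, a i ≠ a j → (U * Uᵀ) i j = 0) := by
  obtain ⟨d1, d2, d3, d4, d5, d6⟩ := hDEF1 (Ix d K) K Φ hF.1
  obtain ⟨hid, -, -, -, -⟩ := hFRI d K U Φ hF
  have hm : ∀ i, (2:ℝ) ≤ (msz a (a i) : ℝ) := fun i => by exact_mod_cast h2 (a i)
  -- the products vanish
  have hz : ∀ i j, (pp Φ i j)^2 * (cn Φ i + cn Φ j - 2 * pp Φ i j) = 0 := by
    have hnn : ∀ i j, 0 ≤ (pp Φ i j)^2 * (cn Φ i + cn Φ j - 2 * pp Φ i j) := by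
      intro i j
      apply mul_nonneg (sq_nonneg _)
      rw [d4]
      exact Finset.sum_nonneg fun k _ => sq_nonneg _
    have hs : ∑ i, ∑ j, (pp Φ i j)^2 * (cn Φ i + cn Φ j - 2 * pp Φ i j) = 0 := by
      rw [hD] at d5
      linarith
    have h1 := (Finset.sum_eq_zero_iff_of_nonneg (fun i _ => Finset.sum_nonneg fun j _ => hnn i j)).1 hs
    intro i j
    have h3 := (Finset.sum_eq_zero_iff_of_nonneg (fun j _ => hnn i j)).1 (h1 i (Finset.mem_univ i))
    exact h3 j (Finset.mem_univ j)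
  -- inside a class
  have hin : ∀ i j, a i = a j → pp Φ i j = 1 / (msz a (a i) : ℝ) := by
    intro i j hij
    have h1 := hz i j
    have h3 : cn Φ i + cn Φ j - 2 * pp Φ i j = 0 := by
      rcases mul_eq_zero.1 h1 with h | h
      · exact absurd (pow_eq_zero_iff (two_ne_zero) |>.1 h) (hne i j hij)
      · exact h
    rw [hc i, hc j, ← hij] at h3
    linarith
  -- across the classes
  have hout : ∀ i j, a i ≠ a j → pp Φ i j = 0 := by
    intro i j hij
    have h1 := d1 i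
    have h3 : ∑ j, (pp Φ i j)^2 = ∑ j ∈ fib a (a i), (pp Φ i j)^2 +
        ∑ j ∈ Finset.univ.filter (fun j => ¬ a j = a i), (pp Φ i j)^2 := by
      unfold fib
      rw [Finset.sum_filter_add_sum_filter_not]
    have h4 : ∑ j ∈ fib a (a i), (pp Φ i j)^2 = cn Φ i := by
      have h5 : ∀ j ∈ fib a (a i), (pp Φ i j)^2 = (1 / (msz a (a i) : ℝ))^2 := by
        intro j hj
        unfold fib at hj
        rw [Finset.mem_filter] at hj
        rw [hin i j hj.2.symm]
      rw [Finset.sum_congr rfl h5, Finset.sum_const, nsmul_eq_mul, hc i]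
      have h6 := hm i
      have h7 : ((fib a (a i)).card : ℝ) = (msz a (a i) : ℝ) := rfl
      rw [h7]
      have h8 : (msz a (a i) : ℝ) ≠ 0 := by linarith
      field_simp
    rw [h3, h4] at h1
    have h5 : ∑ j ∈ Finset.univ.filter (fun j => ¬ a j = a i), (pp Φ i j)^2 = 0 := by linarith
    have h6 := (Finset.sum_eq_zero_iff_of_nonneg (fun j _ => sq_nonneg (pp Φ i j))).1 h5
    have h7 := h6 j (by rw [Finset.mem_filter]; exact ⟨Finset.mem_univ _, fun h => hij h.symm⟩)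
    exact pow_eq_zero_iff (two_ne_zero) |>.1 h7
  have hpp : ∀ i j, (Φ * Φᵀ) i j = pp Φ i j := by
    intro i j
    rw [Matrix.mul_apply]
    rfl
  have hcn : ∀ i, pp Φ i i = cn Φ i := by
    intro i
    unfold pp cn
    refine Finset.sum_congr rfl fun k _ => ?_
    ring
  have hproj : ∀ i j, (U * (Uᵀ * U)⁻¹ * Uᵀ) i j = (1 : Matrix (Ix d K) (Ix d K) ℝ) i j - pp Φ i j := by
    intro i j
    rw [← hid, Matrix.add_apply, hpp]
    ring
  have hkey : ∀ i j, i ≠ j → (1 - 1 / (msz a (a i) : ℝ)) * (U * Uᵀ) i j = - pp Φ i j := by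
    intro i j hij
    have h1 := hE i j
    rw [hproj i j, hproj i i, Matrix.one_apply_ne hij, Matrix.one_apply_eq, hcn, hc i] at h1
    linarith
  refine ⟨?_, ?_⟩
  · intro i j hij haij
    have h1 := hkey i j hij
    rw [hin i j haij] at h1
    have h3 := hm i
    have h4 : (msz a (a i) : ℝ) ≠ 0 := by linarith
    have h5 : (msz a (a i) : ℝ) - 1 ≠ 0 := by linarith
    have h6 : (1 - 1 / (msz a (a i) : ℝ)) = ((msz a (a i) : ℝ) - 1) / (msz a (a i) : ℝ) := by
      field_simp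
    rw [h6] at h1
    rw [eq_div_iff h5]
    field_simp at h1
    linarith
  · intro i j haij
    have hij : i ≠ j := fun h => haij (by rw [h])
    have h1 := hkey i j hij
    rw [hout i j haij, neg_zero] at h1
    have h3 := hm i
    have h4 : (1 - 1 / (msz a (a i) : ℝ)) ≠ 0 := by
      have h5 : 1 / (msz a (a i) : ℝ) ≤ 1 / 2 := by
        apply one_div_le_one_div_of_le
        · norm_num
        · exact h3
      linarith
    rcases mul_eq_zero.1 h1 with h | h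
    · exact absurd h h4
    · exact h

end LOW73

open LOW73 in
theorem LOW73_thm (hFIN2 : Stmt_FIN2) (hNEQ : Stmt_NEQ) (hEPZ : Stmt_EPZ) (hDEF1 : Stmt_DEF1)
    (hDETS : Stmt_DETS) (hDETE : Stmt_DETE) (hFRI : Stmt_FRI) (hONC : Stmt_ONC)
    (hDEGEN : Stmt_DEGEN) : Stmt_LOW73 := by
  intro d K U hK hd hU
  by_cases hdet : (Uᵀ * U).det = 0
  · have hv := hDEGEN d K U hdet
    refine ⟨by rw [hv]; exact le_top, fun h => ?_⟩
    rw [hv] at h
    exact absurd h.symm ENNReal.ofReal_ne_top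
  obtain ⟨Φ, hΦ1, hΦ2⟩ := hONC (Ix d K) d K (by simp [Fintype.card_sum]) U
  have hF : IsFrame U Φ := ⟨hΦ1, hΦ2, hdet⟩
  obtain ⟨hid, hpd, hsum, hnn, hrow⟩ := hFRI d K U Φ hF
  have hrow := hrow hU
  by_cases hvol : volume (Pol U) ≤ ENNReal.ofReal (Vne d K)
  swap
  · push Not at hvol
    exact ⟨hvol.le, fun h => absurd h hvol.ne'⟩
  have hKK : K ≤ K ^ 2 := by nlinarith
  have hd10 : 10 * K ≤ d := by
    have : 10 * K ≤ 10 ^ 9 * K ^ 2 := by
      calc 10 * K ≤ 10 * K ^ 2 := by omega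
        _ ≤ 10 ^ 9 * K ^ 2 := by
          apply Nat.mul_le_mul_right
          norm_num
    omega
  have hdK : K ≤ d := by omega
  obtain ⟨hV0, -⟩ := hEPZ d K hK hd10
  obtain ⟨a, ha1, ha2, ha3, ha4⟩ := hFIN2 d K U Φ hK hd hU hF hvol
  obtain ⟨n1, n2⟩ := hNEQ d K hK hdK (fun b => msz a b) ha2 (by
    rw [sum_msz]
    simp [Fintype.card_sum])
  obtain ⟨-, -, -, -, -, hD0⟩ := hDEF1 (Ix d K) K Φ hF.1
  have hdets := hDETS d K U hU hdet
  have ht : ∀ i, (U * (Uᵀ * U)⁻¹ * Uᵀ) i i = 1 - cn Φ i := fun i => by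
    have := (hrow i).2; linarith
  simp only [ht] at hdets
  have hsq : 0 ≤ ∑ i, (cn Φ i - 1 / (msz a (a i) : ℝ))^2 := Finset.sum_nonneg fun i _ => sq_nonneg _
  have hE0 := ha4.trans hvol
  have hE1 := (ENNReal.ofReal_le_ofReal_iff hV0.le).1 hE0
  have hE2 := (Real.log_le_log_iff (Real.exp_pos _) hV0).2 hE1
  rw [Real.log_exp] at hE2
  have hlow : ENNReal.ofReal (Vne d K) ≤ volume (Pol U) := by
    refine le_trans ?_ ha4
    apply ENNReal.ofReal_le_ofReal
    rw [← Real.exp_log hV0]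
    apply Real.exp_le_exp.2
    linarith
  refine ⟨hlow, fun _ => ?_⟩
  have e1 : Real.log (Vne d K) = ∑ b, Real.log (Pool.Agent.Work.MP_1c7b0d_gt.sv (msz a b - 1)) := by
    linarith
  have e2 : Dfc Φ = 0 := by linarith
  have e3 : ∑ i, (cn Φ i - 1 / (msz a (a i) : ℝ))^2 = 0 := by linarith
  have e4 : -Real.log (Uᵀ * U).det ≤ ∑ i, (1 - cn Φ i) * Real.log (1 - cn Φ i) := by linarith
  have hc : ∀ i, cn Φ i = 1 / (msz a (a i) : ℝ) := by
    intro i
    have h1 := (Finset.sum_eq_zero_iff_of_nonneg (fun i _ => sq_nonneg _)).1 e3 i (Finset.mem_univ i)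
    have h2 := pow_eq_zero_iff (two_ne_zero) |>.1 h1
    linarith
  have hE := hDETE d K U hU hdet (by simp only [ht]; exact e4)
  obtain ⟨p1, p2⟩ := pattern hDEF1 hFRI U Φ hF a ha2 ha3 e2 hc hE
  exact ⟨a, n2 e1, p1, p2⟩

end Pool.LH73
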