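import Pool.Agent.Work.MP_1c7b0d_lh73.Interface
import Pool.Agent.Work.MP_1c7b0d_lh60.MAIN1

/-!
Block MAINA of helper73 (`BLUEPRINT.md`): the bound for arbitrary (non-unit) rows.
-/

open MeasureTheory Matrix Pool.LH60
open scoped BigOperators

namespace Pool.LH73

/-- positivity of the determinant of the frame operator -/
lemma mainA_det {d K : ℕ} (U : Matrix (Ix d K) (Fin d) ℝ) (hU : (Uᵀ * U).det ≠ 0) :
    0 < (Uᵀ * U).det := by
  have h1 : (Uᵀ * U).PosSemidef := by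
    have := Matrix.posSemidef_conjTranspose_mul_self U
    rwa [Matrix.conjTranspose_eq_transpose_of_trivial] at this
  exact lt_of_le_of_ne h1.det_nonneg (Ne.symm hU)

/-- the value of the exponent -/
lemma mainA_sum {d K : ℕ} (hd : 1 ≤ d) (hK : 1 ≤ K) (U : Matrix (Ix d K) (Fin d) ℝ)
    (Φ : Matrix (Ix d K) (Fin K) ℝ) (hc : ∑ i, cn Φ i = K) (p : ℝ) :
    Real.log (Uᵀ * U).det / 2 + (K:ℝ) / 2 * Real.log (2 * Real.pi)
      + K * al (((d:ℝ) + K) / K) p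
      + (∑ i, Ac5 (((d:ℝ) + K) / K) p (cn Φ i) - ((d:ℝ) + K))
      = -(Nd d K - Real.log (Uᵀ * U).det / 2 - (∑ i, (cn Φ i - K / ((d:ℝ) + K))^2) / 5) := by
  have hK' : (0:ℝ) < K := by exact_mod_cast hK
  have hn : (0:ℝ) < (d:ℝ) + K := by positivity
  have h1 : (1:ℝ) / (((d:ℝ) + K) / K) = K / ((d:ℝ) + K) := by field_simp
  have h2 : ∑ i, Ac5 (((d:ℝ) + K) / K) p (cn Φ i)
      = (K:ℝ) / 2 + ((d:ℝ) + K) * p + (∑ i, (cn Φ i - K / ((d:ℝ) + K))^2) / 5 := by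
    have hcard : ((d:ℝ) + K) = ∑ i : Ix d K, (1:ℝ) := by
      simp [Ix, Fintype.card_sum]
    have e : ∀ i : Ix d K, Ac5 (((d:ℝ) + K) / K) p (cn Φ i)
        = cn Φ i / 2 + 1 * p + (cn Φ i - K / ((d:ℝ) + K))^2 / 5 := by
      intro i; unfold Ac5; rw [h1]; ring
    simp_rw [e]
    rw [Finset.sum_add_distrib, Finset.sum_add_distrib, ← Finset.sum_div, hc, ← Finset.sum_mul,
      ← hcard, ← Finset.sum_div]
  rw [h2]
  unfold Nd al
  have h3 : (K:ℝ) * (((d:ℝ) + K) / K * p) = ((d:ℝ) + K) * p := by field_simp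
  linear_combination (-1 : ℝ) * h3

/-- the pointwise bound -/
theorem mainA_ptw (hSCA5 : Stmt_SCA5) (hSPEC : Stmt_SPEC) (hBLG : Stmt_BLG)
    (hDEF1 : Stmt_DEF1) (hPDY : Stmt_PDY) {d K : ℕ} (hd : 1 ≤ d) (hK : 1 ≤ K)
    (U : Matrix (Ix d K) (Fin d) ℝ) (Φ : Matrix (Ix d K) (Fin K) ℝ) (hF : IsFrame U Φ)
    (p : ℝ) (b : Ix d K → ℝ) (hp : Tang (((d:ℝ) + K) / K) p)
    (hb : ∀ x : Fin d → ℝ, ∑ i, b i * (yv U x i - 1)
        = ∑ i, (Ac5 (((d:ℝ) + K) / K) p (cn Φ i) - 1) * (yv U x i - 1))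
    (x : Fin d → ℝ) (hx : x ∈ Pol U) :
    Itg U Φ b x ≤ ENNReal.ofReal (Real.exp (-(Nd d K - Real.log (Uᵀ * U).det / 2
      - (∑ i, (cn Φ i - K / ((d:ℝ) + K))^2) / 5))) := by
  obtain ⟨-, hcK, hc01, -, -, -⟩ := hDEF1 (Ix d K) K Φ hF.1
  have hK' : (0:ℝ) < K := by exact_mod_cast hK
  have hm : (1:ℝ) ≤ ((d:ℝ) + K) / K := by
    rw [le_div_iff₀ hK']; have : (0:ℝ) ≤ d := Nat.cast_nonneg d; linarith
  have hy : ∀ i, 0 < yv U x i := hx
  refine (main_ptw0 hBLG hPDY U Φ hF (mainA_det U hF.2.2)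
    (fun i => Ac5 (((d:ℝ) + K) / K) p (cn Φ i)) b hb x hx).trans ?_
  refine ENNReal.ofReal_le_ofReal (Real.exp_le_exp.mpr ?_)
  have h1 : Real.log (Dm Φ (yv U x)).det / 2 + ∑ i, yv U x i * g (qf Φ (Dm Φ (yv U x))⁻¹ i)
      ≤ K * al (((d:ℝ) + K) / K) p
        + ∑ i, Ac5 (((d:ℝ) + K) / K) p (cn Φ i) * yv U x i := by
    refine hSPEC (Ix d K) K Φ (yv U x) (fun i => Ac5 (((d:ℝ) + K) / K) p (cn Φ i)) _ hy
      (hPDY d K Φ _ hF.1 hy) ?_ ?_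
    · intro i hi
      show 0 ≤ Ac5 (((d:ℝ) + K) / K) p (cn Φ i)
      unfold Ac5
      rw [hi]
      have h1 := hp.2.1
      have h2 : (0 - 1 / (((d:ℝ) + K) / K))^2 / 5
          = 12/5 * (1 / (12 * (((d:ℝ) + K) / K)^2)) := by
        have : (0:ℝ) < ((d:ℝ) + K) / K := by positivity
        field_simp
        ring
      rw [h2]
      have h3 : (0:ℝ) ≤ 1 / (12 * (((d:ℝ) + K) / K)^2) := by positivity
      linarith
    · intro i hi e he
      exact hSCA5 _ p hm hp (cn Φ i) e hi (hc01 i).2 he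
  rw [← mainA_sum hd hK U Φ hcK p]
  unfold Ex
  linarith

theorem MAINA_thm (hGM3 : Stmt_GM3) (hSCA5 : Stmt_SCA5) (hSPEC : Stmt_SPEC) (hBLG : Stmt_BLG)
    (hCVT : Stmt_CVT) (hDEF1 : Stmt_DEF1) (hPDY : Stmt_PDY) (hLINB : Stmt_LINB) :
    Stmt_MAINA := by
  intro d K U Φ hd hK hF
  have hK' : (0:ℝ) < K := by exact_mod_cast hK
  obtain ⟨p, hp⟩ := hGM3 (((d:ℝ) + K) / K) (by positivity)
  obtain ⟨b, hb⟩ := hLINB d K U (fun i => Ac5 (((d:ℝ) + K) / K) p (cn Φ i) - 1) hF.2.2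
  have h1 : ∫⁻ x in Pol U, Itg U Φ b x = 1 := hCVT d K U Φ b hF
  set C : ℝ := Nd d K - Real.log (Uᵀ * U).det / 2
    - (∑ i, (cn Φ i - K / ((d:ℝ) + K))^2) / 5 with hC
  have h2 : (1:ENNReal) ≤ ENNReal.ofReal (Real.exp (-C)) * volume (Pol U) := by
    rw [← h1]
    refine (setLIntegral_mono measurable_const
      (fun x hx => mainA_ptw hSCA5 hSPEC hBLG hDEF1 hPDY hd hK U Φ hF p b hp hb x hx)).trans ?_
    rw [setLIntegral_const]
  calc ENNReal.ofReal (Real.exp C) = ENNReal.ofReal (Real.exp C) * 1 := (mul_one _).symm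
    _ ≤ ENNReal.ofReal (Real.exp C) * (ENNReal.ofReal (Real.exp (-C)) * volume (Pol U)) := by
        gcongr
    _ = volume (Pol U) := by
        rw [← mul_assoc, ← ENNReal.ofReal_mul (Real.exp_pos _).le, ← Real.exp_add, add_neg_cancel,
          Real.exp_zero, ENNReal.ofReal_one, one_mul]

end Pool.LH73
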