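import Pool.Agent.Work.MP_1c7b0d_lh73.MAINB2

/-! Block MAINB1 (helper74): uniform tangent point. -/

open MeasureTheory Matrix Pool.LH60
open scoped BigOperators

namespace Pool.LH73

theorem MAINB1_thm (hGM3 : Stmt_GM3) (hSCAL : Stmt_SCAL) (hSPECL : Stmt_SPECL)
    (hEIGX : Stmt_EIGX) (hHSL : Stmt_HSL) (hTRK : Stmt_TRK) (hBLG : Stmt_BLG)
    (hLINB : Stmt_LINB) (hPDY : Stmt_PDY) (hGAIN : Stmt_GAIN) (hDEF1 : Stmt_DEF1) :
    Stmt_MAINB1 := by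
  intro d K V Φ hd hK hIso hc hCut hD hvol
  obtain ⟨-, hcK, hc01, -, -, -⟩ := hDEF1 (Ix d K) K Φ hIso.2.1
  have hK' : (0:ℝ) < K := by exact_mod_cast hK
  have hd' : (0:ℝ) < d := by exact_mod_cast hd
  have hn : (0:ℝ) < (d:ℝ) + K := by positivity
  have hm0 : (0:ℝ) < ((d:ℝ) + K) / K := by positivity
  have hm1 : (1:ℝ) ≤ ((d:ℝ) + K) / K := by
    rw [le_div_iff₀ hK']; linarith
  obtain ⟨p, hp⟩ := hGM3 (((d:ℝ) + K) / K) hm0
  have key := mainb_common hSPECL hEIGX hHSL hBLG hLINB hPDY hGAIN V Φ hd hK hIso hCut hD hvol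
    (fun i => Ac5 (((d:ℝ) + K) / K) p (cn Φ i))
    (fun i => Ac5 (((d:ℝ) + K) / K) p (cn Φ i))
    (fun _ => al (((d:ℝ) + K) / K) p)
    (K * al (((d:ℝ) + K) / K) p)
    (by
      intro i hi
      show 0 ≤ Ac5 (((d:ℝ) + K) / K) p (cn Φ i)
      rw [hi]
      exact mainb_Ac5_nonneg hm0 hp)
    (by
      intro i hi t ht
      exact hSCAL _ _ hm1 hp (cn Φ i) t hi (hc i) ht)
    (by
      intro y e Q hy hE
      have h1 := hTRK (Ix d K) K Φ y (hPDY d K Φ y hIso.2.1 hy)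
      have h2 : 0 ≤ ∑ k, lam (e k) := Finset.sum_nonneg fun k _ => mainb_lam_nonneg _
      rw [← Finset.mul_sum, h1]
      linarith)
  refine le_trans (le_of_eq ?_) key
  congr 2
  have h1 : (1:ℝ) / (((d:ℝ) + K) / K) = K / ((d:ℝ) + K) := by field_simp
  have hcard : ∑ i : Ix d K, (1:ℝ) = ((d:ℝ) + K) := by
    simp [Ix, Fintype.card_sum]
  have e1 : ∑ i, Ac5 (((d:ℝ) + K) / K) p (cn Φ i)
      = (K:ℝ) / 2 + ((d:ℝ) + K) * p + (∑ i, (cn Φ i - K / ((d:ℝ) + K))^2) / 5 := by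
    have e : ∀ i : Ix d K, Ac5 (((d:ℝ) + K) / K) p (cn Φ i)
        = cn Φ i / 2 + 1 * p + (cn Φ i - K / ((d:ℝ) + K))^2 / 5 := by
      intro i; unfold Ac5; rw [h1]; ring
    simp_rw [e]
    rw [Finset.sum_add_distrib, Finset.sum_add_distrib, ← Finset.sum_div, hcK, ← Finset.sum_mul,
      hcard, ← Finset.sum_div]
  rw [e1]
  unfold Nd al
  have h3 : (K:ℝ) * (((d:ℝ) + K) / K * p) = ((d:ℝ) + K) * p := by field_simp
  linear_combination (-1 : ℝ) * h3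

end Pool.LH73
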