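import Pool.Agent.Work.MP_1c7b0d_lh73.Interface
import Pool.Agent.Work.MP_1c7b0d_lh60.MAIN1

/-! Block MAINB2 (helper74): tangent points = class sizes. -/

open MeasureTheory Matrix Pool.LH60
open scoped BigOperators

namespace Pool.LH73

lemma mainb_frame {d K : ℕ} {V : Matrix (Ix d K) (Fin d) ℝ} {Φ : Matrix (Ix d K) (Fin K) ℝ}
    (h : IsoFrame V Φ) : IsFrame V Φ := by
  refine ⟨h.2.1, h.2.2, ?_⟩
  rw [h.1, Matrix.det_one]
  exact one_ne_zero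

lemma mainb_lam_nonneg (e : ℝ) : 0 ≤ lam e := by
  unfold lam
  have : (0:ℝ) ≤ min ((e - 1)^2) 1 := le_min (sq_nonneg _) zero_le_one
  positivity

/-- the common part of MAINB1 and MAINB2 -/
theorem mainb_common (hSPECL : Stmt_SPECL) (hEIGX : Stmt_EIGX) (hHSL : Stmt_HSL)
    (hBLG : Stmt_BLG) (hLINB : Stmt_LINB) (hPDY : Stmt_PDY) (hGAIN : Stmt_GAIN)
    {d K : ℕ} (V : Matrix (Ix d K) (Fin d) ℝ) (Φ : Matrix (Ix d K) (Fin K) ℝ)
    (hd : 1 ≤ d) (hK : 1 ≤ K) (hIso : IsoFrame V Φ) (hCut : CutP V) (hD : Dfc Φ ≤ 100)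
    (hvol : volume (Pol V) ≠ ⊤) (A A' α : Ix d K → ℝ) (κ : ℝ)
    (hA0 : ∀ i, cn Φ i = 0 → 0 ≤ A i)
    (hsc : ∀ i, 0 < cn Φ i → ∀ t : ℝ, 0 < t →
      Real.log t / 2 + mu (t / cn Φ i) + lam t ≤ α i + A i / cn Φ i * t)
    (hR : ∀ (y : Ix d K → ℝ) (e : Fin K → ℝ) (Q : Matrix (Fin K) (Fin K) ℝ), (∀ i, 0 < y i) →
      EigD (Dm Φ y) e Q →
      ∑ i, α i * (y i * qf Φ (Dm Φ y)⁻¹ i) + ∑ i, A i * y i - ∑ k, lam (e k) ≤
        κ + ∑ i, A' i * y i - (∑ k, lam (e k)) / 2) :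
    ENNReal.ofReal (Real.exp (-((K:ℝ) / 2 * Real.log (2 * Real.pi) + κ
      + (∑ i, A' i - ((d:ℝ) + K))) + Dfc Φ / 165000)) ≤ volume (Pol V) := by
  have hF := mainb_frame hIso
  have hdet : (Vᵀ * V).det = 1 := by rw [hIso.1, Matrix.det_one]
  obtain ⟨b, hb⟩ := hLINB d K V (fun i => A' i - 1) hF.2.2
  refine hGAIN d K V Φ b _ hd hK hIso hCut hD hvol ?_
  intro x hx
  have hy : ∀ i, 0 < yv V x i := hx
  have h1 : Ing V Φ b x ≤ ENNReal.ofReal (Real.exp (Ex V Φ A' (yv V x))) :=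
    main_ptw0 hBLG hPDY V Φ hF (by rw [hdet]; exact one_pos) A' b hb x hx
  refine h1.trans (ENNReal.ofReal_le_ofReal (Real.exp_le_exp.mpr ?_))
  have hPD : (Dm Φ (yv V x)).PosDef := hPDY d K Φ _ hF.1 hy
  obtain ⟨e, Q, hE⟩ := hEIGX K (Dm Φ (yv V x)) hPD
  have h2 := hSPECL (Ix d K) K Φ (yv V x) A α e Q hy hE hA0 hsc
  have h3 := hHSL K (Dm Φ (yv V x)) e Q hE
  have h4 := hR (yv V x) e Q hy hE
  unfold Ex
  rw [hdet, Real.log_one]
  linarith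

/-- sums over the classes -/
lemma mainb_class {ι : Type} [Fintype ι] [DecidableEq ι] {L : ℕ} (a : ι → Fin L)
    (f : Fin L → ℝ) : ∑ i, f (a i) = ∑ b, (msz a b : ℝ) * f b := by
  rw [← Finset.sum_fiberwise (s := Finset.univ) (g := a) (f := fun i => f (a i))]
  refine Finset.sum_congr rfl fun b _ => ?_
  rw [Finset.sum_congr rfl (g := fun _ => f b) (fun i hi => by
    rw [(Finset.mem_filter.1 hi).2])]
  rw [Finset.sum_const, nsmul_eq_mul]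
  rfl

lemma mainb_Ac5_nonneg {m p : ℝ} (hm : 0 < m) (hp : Tang m p) : 0 ≤ Ac5 m p 0 := by
  unfold Ac5
  have h1 := hp.2.1
  have h2 : (0 - 1 / m)^2 / 5 = 12 / 5 * (1 / (12 * m^2)) := by
    field_simp
    ring
  rw [h2]
  have h3 : (0:ℝ) ≤ 1 / (12 * m^2) := by positivity
  linarith

theorem MAINB2_thm (hSCAL : Stmt_SCAL) (hSPECL : Stmt_SPECL)
    (hEIGX : Stmt_EIGX) (hHSL : Stmt_HSL) (hRCL : Stmt_RCL) (hBLG : Stmt_BLG)
    (hLINB : Stmt_LINB) (hPDY : Stmt_PDY) (hGAIN : Stmt_GAIN) (hDEF1 : Stmt_DEF1) :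
    Stmt_MAINB2 := by
  intro d K V Φ hd hK hIso hc hCut hD hvol a pt α0 Λ ha hT hα hΛ
  obtain ⟨-, hcK, hc01, -, -, -⟩ := hDEF1 (Ix d K) K Φ hIso.2.1
  have hmpos : ∀ b, 1 ≤ msz a b := by
    intro b
    obtain ⟨i, hi⟩ := ha b
    exact Finset.card_pos.2 ⟨i, Finset.mem_filter.2 ⟨Finset.mem_univ _, hi⟩⟩
  have hm1 : ∀ b, (1:ℝ) ≤ (msz a b : ℝ) := fun b => by exact_mod_cast hmpos b
  have hΛ0 : 0 ≤ Λ := (abs_nonneg _).trans (hα ⟨0, hK⟩)
  set sc : Ix d K → ℝ := fun i => ∑ k, (Φ i k - vbar Φ a (a i) k)^2 with hsc_def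
  have key := mainb_common hSPECL hEIGX hHSL hBLG hLINB hPDY hGAIN V Φ hd hK hIso hCut hD hvol
    (fun i => Ac5 (msz a (a i)) (pt (a i)) (cn Φ i))
    (fun i => Ac5 (msz a (a i)) (pt (a i)) (cn Φ i) + 4 * Λ * sc i)
    (fun i => al (msz a (a i)) (pt (a i)))
    (∑ b, al (msz a b) (pt b))
    (by
      intro i hi
      show 0 ≤ Ac5 (msz a (a i)) (pt (a i)) (cn Φ i)
      rw [hi]
      exact mainb_Ac5_nonneg (by linarith [hm1 (a i)]) (hT (a i)))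
    (by
      intro i hi t ht
      exact hSCAL _ _ (hm1 (a i)) (hT (a i)) (cn Φ i) t hi (hc i) ht)
    (by
      intro y e Q hy hE
      have h1 := hRCL (Ix d K) K Φ y e Q a (vbar Φ a) (fun b => al (msz a b) (pt b)) α0 Λ hy hE
        hα hΛ0
      have h2 : 0 ≤ ∑ k, lam (e k) := Finset.sum_nonneg fun k _ => mainb_lam_nonneg _
      have h3 : ∑ i, (Ac5 (msz a (a i)) (pt (a i)) (cn Φ i) + 4 * Λ * sc i) * y i
          = ∑ i, Ac5 (msz a (a i)) (pt (a i)) (cn Φ i) * y i + 4 * Λ * ∑ i, y i * sc i := by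
        rw [Finset.mul_sum, ← Finset.sum_add_distrib]
        refine Finset.sum_congr rfl fun i _ => ?_
        ring
      rw [h3]
      have h4 : 128 * Λ * ∑ k, lam (e k) ≤ (∑ k, lam (e k)) / 2 := by
        have : 128 * Λ ≤ 1 / 2 := by linarith
        have := mul_le_mul_of_nonneg_right this h2
        linarith
      simp only [hsc_def]
      linarith)
  refine le_trans (le_of_eq ?_) key
  congr 2
  have e1 : ∑ i, (Ac5 (msz a (a i)) (pt (a i)) (cn Φ i) + 4 * Λ * sc i)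
      = (K:ℝ) / 2 + ∑ b, (msz a b : ℝ) * pt b
        + (∑ i, (cn Φ i - 1 / (msz a (a i) : ℝ))^2) / 5 + 4 * Λ * Eps Φ a := by
    rw [← mainb_class a pt]
    unfold Eps Ac5
    rw [Finset.sum_add_distrib, Finset.sum_add_distrib, Finset.sum_add_distrib,
      ← Finset.sum_div, ← Finset.sum_div, ← Finset.mul_sum, hcK]
  have e2 : ∑ b, al (msz a b) (pt b) = ∑ b, mu (msz a b) - (K:ℝ) / 2
      - ∑ b, (msz a b : ℝ) * pt b := by
    unfold al
    rw [Finset.sum_sub_distrib, Finset.sum_sub_distrib]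
    simp
    ring
  rw [e1, e2]
  ring

end Pool.LH73
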