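import Pool.Agent.Work.MP_1c7b0d_lh73.Interface

/-! Block NEQ (helper87): near equal sizes are optimal. -/

set_option autoImplicit false

open Pool.LH60
open scoped BigOperators

namespace Pool.LH73

namespace NEQ

lemma sv_pos87 (k : ℕ) (hk : 1 ≤ k) : 0 < Pool.Agent.Work.MP_1c7b0d_gt.sv k := by
  unfold Pool.Agent.Work.MP_1c7b0d_gt.sv
  have : (0:ℝ) < k := by exact_mod_cast hk
  positivity

/-- tangent line to the right -/
lemma tangent_right (f : ℕ → ℝ) (hf : ∀ q, 1 ≤ q → 2 * f (q + 1) < f q + f (q + 2)) (q : ℕ)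
    (hq : 1 ≤ q) (n : ℕ) :
    f (q + 1) - f q ≤ f (q + n + 1) - f (q + n) ∧
      (1 ≤ n → f (q + 1) - f q < f (q + n + 1) - f (q + n)) ∧
      f q + (f (q + 1) - f q) * n ≤ f (q + n) ∧
      (2 ≤ n → f q + (f (q + 1) - f q) * n < f (q + n)) := by
  induction n with
  | zero => simp
  | succ n ih =>
    obtain ⟨h1, h2, h3, h4⟩ := ih
    have h5 := hf (q + n) (by omega)
    have e1 : q + (n + 1) = q + n + 1 := by ring
    rw [e1]
    push_cast
    refine ⟨by linarith, fun _ => by linarith, by linarith, fun hn => ?_⟩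
    have := h2 (by omega)
    linarith

/-- tangent line to the left -/
lemma tangent_left (f : ℕ → ℝ) (hf : ∀ q, 1 ≤ q → 2 * f (q + 1) < f q + f (q + 2)) (j : ℕ)
    (hj : 1 ≤ j) (n : ℕ) :
    f (j + n) - (f (j + n + 1) - f (j + n)) * n ≤ f j ∧
      (1 ≤ n → f (j + n) - (f (j + n + 1) - f (j + n)) * n < f j) := by
  induction n with
  | zero => simp
  | succ n ih =>
    obtain ⟨h1, h2⟩ := ih
    have h5 := hf (j + n) (by omega)
    have e1 : j + (n + 1) = j + n + 1 := by ring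
    rw [e1]
    push_cast
    have h6 : f (j + n + 1) - (f (j + n + 1 + 1) - f (j + n + 1)) * ((n:ℝ) + 1) < f j := by
      have h7 : f (j + n + 1) - (f (j + n + 1 + 1) - f (j + n + 1)) * ((n:ℝ) + 1) =
          (f (j + n) - (f (j + n + 1) - f (j + n)) * n) -
          (f (j + n) + f (j + n + 2) - 2 * f (j + n + 1)) * ((n:ℝ) + 1) := by
        have : j + n + 1 + 1 = j + n + 2 := by ring
        rw [this]; ring
      rw [h7]
      have h8 : (0:ℝ) < (f (j + n) + f (j + n + 2) - 2 * f (j + n + 1)) * ((n:ℝ) + 1) :=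
        mul_pos (by linarith) (by positivity)
      linarith
    exact ⟨h6.le, fun _ => h6⟩

lemma tangent (f : ℕ → ℝ) (hf : ∀ q, 1 ≤ q → 2 * f (q + 1) < f q + f (q + 2)) (q j : ℕ)
    (hq : 1 ≤ q) (hj : 1 ≤ j) :
    f q + (f (q + 1) - f q) * ((j:ℝ) - q) ≤ f j ∧
      (f q + (f (q + 1) - f q) * ((j:ℝ) - q) = f j → j = q ∨ j = q + 1) := by
  rcases le_total q j with h | h
  · obtain ⟨n, rfl⟩ := Nat.exists_eq_add_of_le h
    obtain ⟨-, -, h3, h4⟩ := tangent_right f hf q hq n
    have e : (((q + n : ℕ) : ℝ) - q) = n := by push_cast; ring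
    rw [e]
    refine ⟨h3, fun heq => ?_⟩
    by_contra hne
    push Not at hne
    have := h4 (by omega)
    linarith
  · obtain ⟨n, rfl⟩ := Nat.exists_eq_add_of_le h
    obtain ⟨h1, h2⟩ := tangent_left f hf j hj n
    have e : ((j:ℝ) - ((j + n : ℕ) : ℝ)) = -n := by push_cast; ring
    rw [e]
    refine ⟨by linarith, fun heq => ?_⟩
    by_contra hne
    push Not at hne
    have := h2 (by omega)
    linarith

end NEQ

theorem NEQ_thm (hSVC : Stmt_SVC) : Stmt_NEQ := by
  intro d K hK hKd s hs hsum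
  set f : ℕ → ℝ := fun j => Real.log (Pool.Agent.Work.MP_1c7b0d_gt.sv j) with hfdef
  have hf : ∀ q, 1 ≤ q → 2 * f (q + 1) < f q + f (q + 2) := hSVC
  set q := d / K with hq
  have hq1 : 1 ≤ q := (Nat.one_le_div_iff (by omega)).mpr hKd
  have hr : d % K < K := Nat.mod_lt _ (by omega)
  have hdiv : K * q + d % K = d := Nat.div_add_mod d K
  have hV : Real.log (Vne d K) = ((K - d % K : ℕ) : ℝ) * f q + ((d % K : ℕ) : ℝ) * f (q + 1) := by
    unfold Vne
    rw [Real.log_mul (pow_ne_zero _ (NEQ.sv_pos87 _ hq1).ne')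
      (pow_ne_zero _ (NEQ.sv_pos87 _ (by omega)).ne'), Real.log_pow, Real.log_pow]
  have hVt : Real.log (Vne d K) =
      ∑ b, (f q + (f (q + 1) - f q) * (((s b - 1 : ℕ) : ℝ) - q)) := by
    rw [Finset.sum_add_distrib, ← Finset.mul_sum, Finset.sum_sub_distrib]
    have h1 : ∑ b, ((s b - 1 : ℕ) : ℝ) = d := by
      have h2 : ∑ b, (((s b - 1 : ℕ) : ℝ) + 1) = (d:ℝ) + K := by
        have h3 : ∀ b, (((s b - 1 : ℕ) : ℝ) + 1) = (s b : ℝ) := by
          intro b
          have := hs b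
          have h4 : s b - 1 + 1 = s b := by omega
          exact_mod_cast h4
        rw [Finset.sum_congr rfl (fun b _ => h3 b)]
        exact_mod_cast hsum
      rw [Finset.sum_add_distrib] at h2
      simp at h2
      linarith
    rw [h1]
    simp only [Finset.sum_const, Finset.card_univ, Fintype.card_fin, nsmul_eq_mul]
    rw [hV, Nat.cast_sub hr.le]
    have h5 : (d:ℝ) = (K:ℝ) * q + ((d % K : ℕ) : ℝ) := by exact_mod_cast hdiv.symm
    have h6 : (d:ℝ) - (K:ℝ) * q = ((d % K : ℕ) : ℝ) := by linarith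
    rw [h6]
    ring
  have ht : ∀ b, f q + (f (q + 1) - f q) * (((s b - 1 : ℕ) : ℝ) - q) ≤ f (s b - 1) := fun b =>
    (NEQ.tangent f hf q (s b - 1) hq1 (by have := hs b; omega)).1
  refine ⟨?_, ?_⟩
  · rw [hVt]
    exact Finset.sum_le_sum (fun b _ => ht b)
  · intro heq b
    rw [hVt] at heq
    have h := (Finset.sum_eq_sum_iff_of_le (fun b _ => ht b)).mp heq b (Finset.mem_univ b)
    have h2 := (NEQ.tangent f hf q (s b - 1) hq1 (by have := hs b; omega)).2 h
    have := hs b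
    omega

end Pool.LH73
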