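import Pool.Agent.Work.MP_1c7b0d_lh73.Interface
import Pool.Agent.Work.MP_1c7b0d_gt_helper74.Binet4

/-! Blocks SCA5 and SCAL (helper74). No hypotheses. -/

open MeasureTheory Matrix Pool.LH60

namespace Pool.LH73

theorem SCA5_thm : Stmt_SCA5 := by
  intro m p hm hT c e hc0 hc1 he
  have h := Pool.LH60.H74.sca5 hm hT hc0 hc1 he
  unfold Ac5
  exact h

theorem SCAL_thm : Stmt_SCAL := by
  intro m p hm hT c e hc0 hc1 he
  have h := Pool.LH60.H74.scal hm hT hc0 hc1 he
  unfold Ac5 lam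
  exact h

end Pool.LH73
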