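import Pool.Agent.Work.MP_1c7b0d_lh73.Interface
import Pool.Agent.Work.MP_1c7b0d_lh60.SPEC

/-! SPECL (helper58): the spectral step with individual constants and with the loss. -/

open MeasureTheory Matrix Pool.LH60
open scoped BigOperators

namespace Pool.LH73

namespace SPECL

section mat
variable {ι : Type} [Fintype ι] [DecidableEq ι] {K : ℕ}

/-- the data of the core inequality for given eigenvectors -/
theorem data (Φ : Matrix ι (Fin K) ℝ) (y : ι → ℝ) (e : Fin K → ℝ)
    (Q : Matrix (Fin K) (Fin K) ℝ) (hE : EigD (Dm Φ y) e Q) :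
    (∀ i, ∑ k, ((Φ * Q) i k) ^ 2 = cn Φ i) ∧ (∀ k, ∑ i, y i * ((Φ * Q) i k) ^ 2 = e k) ∧
      Real.log (Dm Φ y).det = ∑ k, Real.log (e k) ∧
      (∀ i, qf Φ (Dm Φ y)⁻¹ i = ∑ k, ((Φ * Q) i k) ^ 2 / e k) := by
  have hQ1 := hE.orth
  have hQ2 : Q * Qᵀ = 1 := mul_eq_one_comm.mp hQ1
  have he := hE.pos
  have hDe := hE.eq
  have hdet : (diagonal e * diagonal (fun k => 1 / e k) : Matrix (Fin K) (Fin K) ℝ) = 1 := by
    rw [diagonal_mul_diagonal, ← diagonal_one]
    refine congrArg diagonal ?_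
    funext k
    rw [mul_one_div, div_self (he k).ne']
  have hinv : (Dm Φ y)⁻¹ = Q * diagonal (fun k => 1 / e k) * Qᵀ := by
    refine Matrix.inv_eq_right_inv ?_
    rw [hDe]
    calc Q * diagonal e * Qᵀ * (Q * diagonal (fun k => 1 / e k) * Qᵀ)
        = Q * diagonal e * (Qᵀ * Q) * diagonal (fun k => 1 / e k) * Qᵀ := by
          simp only [Matrix.mul_assoc]
      _ = Q * (diagonal e * diagonal (fun k => 1 / e k)) * Qᵀ := by
          rw [hQ1, Matrix.mul_one, Matrix.mul_assoc Q]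
      _ = 1 := by rw [hdet, Matrix.mul_one, hQ2]
  refine ⟨?_, ?_, ?_, ?_⟩
  · intro i
    have h1 : ((Φ * Q) * (Φ * Q)ᵀ) i i = ∑ k, ((Φ * Q) i k) ^ 2 := by
      rw [Matrix.mul_apply]
      refine Finset.sum_congr rfl fun k _ => ?_
      rw [Matrix.transpose_apply]
      ring
    rw [← h1]
    have h2 : (Φ * Q) * (Φ * Q)ᵀ = Φ * Φᵀ := by
      rw [Matrix.transpose_mul]
      calc Φ * Q * (Qᵀ * Φᵀ) = Φ * (Q * Qᵀ) * Φᵀ := by simp only [Matrix.mul_assoc]
        _ = Φ * Φᵀ := by rw [hQ2, Matrix.mul_one]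
    rw [h2, Matrix.mul_apply]
    unfold cn
    refine Finset.sum_congr rfl fun k _ => ?_
    rw [Matrix.transpose_apply]
    ring
  · intro k
    have h1 := Pool.LH60.SPEC.diag_form' (Φ * Q) y k
    rw [← h1]
    have h2 : (Φ * Q)ᵀ * diagonal y * (Φ * Q) = diagonal e := by
      rw [Matrix.transpose_mul]
      calc Qᵀ * Φᵀ * diagonal y * (Φ * Q) = Qᵀ * (Φᵀ * diagonal y * Φ) * Q := by
            simp only [Matrix.mul_assoc]
        _ = Qᵀ * (Q * diagonal e * Qᵀ) * Q := by
            rw [← hDe]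
            rfl
        _ = (Qᵀ * Q) * diagonal e * (Qᵀ * Q) := by simp only [Matrix.mul_assoc]
        _ = diagonal e := by rw [hQ1, Matrix.one_mul, Matrix.mul_one]
    rw [h2, diagonal_apply_eq]
  · have h1 : (Dm Φ y).det = ∏ k, e k := by
      have hQd : Q.det * Q.det = 1 := by
        have h2 : (Q * Qᵀ).det = 1 := by rw [hQ2, det_one]
        rwa [det_mul, det_transpose] at h2
      rw [hDe, det_mul, det_mul, det_transpose, det_diagonal]
      calc Q.det * (∏ k, e k) * Q.det = Q.det * Q.det * ∏ k, e k := by ring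
        _ = ∏ k, e k := by rw [hQd, one_mul]
    rw [h1, Real.log_prod]
    intro k _
    exact (he k).ne'
  · intro i
    unfold qf
    rw [hinv]
    have h2 : Φ * (Q * diagonal (fun k => 1 / e k) * Qᵀ) * Φᵀ =
        (Φ * Q) * diagonal (fun k => 1 / e k) * (Φ * Q)ᵀ := by
      rw [Matrix.transpose_mul]
      simp only [Matrix.mul_assoc]
    rw [h2, Pool.LH60.SPEC.diag_form]
    refine Finset.sum_congr rfl fun k _ => ?_
    rw [mul_one_div]

end mat

theorem core {ι : Type} [Fintype ι] {K : ℕ} {a : ι → Fin K → ℝ} {e : Fin K → ℝ}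
    {y c A α : ι → ℝ}
    (hg : ConvexOn ℝ (Set.Ioi 0) g) (hy : ∀ i, 0 < y i) (he : ∀ k, 0 < e k)
    (ha : ∀ i k, 0 ≤ a i k) (hsum : ∀ i, ∑ k, a i k = c i) (hes : ∀ k, ∑ i, y i * a i k = e k)
    (hA : ∀ i, c i = 0 → 0 ≤ A i)
    (hsc : ∀ i, 0 < c i → ∀ t : ℝ, 0 < t →
      Real.log t / 2 + mu (t / c i) + lam t ≤ α i + A i / c i * t) :
    (∑ k, Real.log (e k)) / 2 + ∑ i, y i * g (∑ k, a i k / e k) + ∑ k, lam (e k) ≤
      ∑ i, α i * (y i * ∑ k, a i k / e k) + ∑ i, A i * y i := by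
  have h1 := Pool.LH60.SPEC.lhs_le hg hy he ha hsum hes
  have h2 : ∑ k, lam (e k) = ∑ i, ∑ k, y i * a i k / e k * lam (e k) := by
    rw [Finset.sum_comm]
    refine Finset.sum_congr rfl fun k _ => ?_
    rw [← Finset.sum_mul, ← Finset.sum_div, hes k, div_self (he k).ne', one_mul]
  have h3 : ∀ i k, Pool.LH60.SPEC.TT a e y c i k + y i * a i k / e k * lam (e k) ≤
      y i * a i k / e k * α i + y i * a i k * (A i / c i) := by
    intro i k
    unfold Pool.LH60.SPEC.TT
    rcases (Pool.LH60.SPEC.c_nonneg ha hsum i).eq_or_lt' with hc | hc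
    · rw [Pool.LH60.SPEC.a_zero ha hsum hc k]
      simp
    · have h4 := mul_le_mul_of_nonneg_left (hsc i hc _ (he k))
        (div_nonneg (mul_nonneg (hy i).le (ha i k)) (he k).le)
      have h5 : y i * a i k / e k * (α i + A i / c i * e k) =
          y i * a i k / e k * α i + y i * a i k * (A i / c i) := by
        have := (he k).ne'
        rw [mul_add]
        refine congrArg _ ?_
        rw [div_mul_eq_mul_div, div_eq_iff this]
        ring
      rw [h5] at h4
      calc y i * a i k / e k * (Real.log (e k) / 2 + mu (e k / c i)) + y i * a i k / e k * lam (e k)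
          = y i * a i k / e k * (Real.log (e k) / 2 + mu (e k / c i) + lam (e k)) := by ring
        _ ≤ _ := h4
  have h6 : ∑ i, ∑ k, (y i * a i k / e k * α i + y i * a i k * (A i / c i)) ≤
      ∑ i, α i * (y i * ∑ k, a i k / e k) + ∑ i, A i * y i := by
    rw [← Finset.sum_add_distrib]
    refine Finset.sum_le_sum fun i _ => ?_
    rw [Finset.sum_add_distrib, ← Finset.sum_mul, ← Finset.sum_mul, ← Finset.mul_sum, hsum i]
    have h7 : (∑ k, y i * a i k / e k) * α i = α i * (y i * ∑ k, a i k / e k) := by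
      rw [mul_comm, Finset.mul_sum (a := y i)]
      refine congrArg _ (Finset.sum_congr rfl fun k _ => ?_)
      ring
    rw [h7]
    refine add_le_add_right ?_ _
    rcases (Pool.LH60.SPEC.c_nonneg ha hsum i).eq_or_lt' with hc | hc
    · rw [hc, mul_zero, zero_mul]
      exact mul_nonneg (hA i hc) (hy i).le
    · refine le_of_eq ?_
      have := hc.ne'
      field_simp
  calc (∑ k, Real.log (e k)) / 2 + ∑ i, y i * g (∑ k, a i k / e k) + ∑ k, lam (e k)
      ≤ ∑ i, ∑ k, Pool.LH60.SPEC.TT a e y c i k + ∑ i, ∑ k, y i * a i k / e k * lam (e k) := by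
        rw [← h2]
        exact add_le_add_left h1 _
    _ = ∑ i, ∑ k, (Pool.LH60.SPEC.TT a e y c i k + y i * a i k / e k * lam (e k)) := by
        rw [← Finset.sum_add_distrib]
        refine Finset.sum_congr rfl fun i _ => ?_
        rw [← Finset.sum_add_distrib]
    _ ≤ ∑ i, ∑ k, (y i * a i k / e k * α i + y i * a i k * (A i / c i)) :=
        Finset.sum_le_sum fun i _ => Finset.sum_le_sum fun k _ => h3 i k
    _ ≤ _ := h6

end SPECL

theorem SPECL_thm (hGCV : Stmt_GCV) : Stmt_SPECL := by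
  intro ι _ _ K Φ y A α e Q hy hE hA hsc
  obtain ⟨hsum, hes, hdet, hqf⟩ := SPECL.data Φ y e Q hE
  have h1 := SPECL.core (α := α) hGCV hy hE.pos (fun i k => sq_nonneg ((Φ * Q) i k)) hsum hes hA hsc
  rw [hdet]
  simp only [hqf]
  exact h1

end Pool.LH73
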