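import Pool.Agent.Work.MP_1c7b0d_lh73.Interface

/-! Block SVC (helper74). No hypotheses. -/

open MeasureTheory Matrix Pool.LH60 Set

namespace Pool.LH73

lemma svc_log_sv (k : ℕ) (hk : 1 ≤ k) : Real.log (Pool.Agent.Work.MP_1c7b0d_gt.sv k) =
    ((k:ℝ) * Real.log k + ((k:ℝ) + 1) * Real.log ((k:ℝ) + 1)) / 2 -
      Real.log (k.factorial : ℝ) := by
  have hk0 : (0:ℝ) < k := by exact_mod_cast hk
  have hf : (0:ℝ) < (k.factorial : ℝ) := by exact_mod_cast k.factorial_pos
  unfold Pool.Agent.Work.MP_1c7b0d_gt.sv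
  rw [Real.log_div (Real.sqrt_pos.2 (by positivity)).ne' hf.ne', Real.log_sqrt (by positivity),
    Real.log_mul (by positivity) (by positivity), Real.log_pow, Real.log_pow]
  push_cast
  ring

/-- twice the second difference -/
noncomputable def svcF (x : ℝ) : ℝ :=
  x * Real.log x + (x + 3) * Real.log (x + 3) - (x - 1) * Real.log (x + 1)
    - (x + 4) * Real.log (x + 2)

lemma svcF_deriv {x : ℝ} (hx : 0 < x) : HasDerivAt svcF
    (Real.log x + Real.log (x + 3) - Real.log (x + 1) - Real.log (x + 2)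
      + 2 / ((x + 1) * (x + 2))) x := by
  have key : ∀ a c : ℝ, 0 < x + c → HasDerivAt (fun x : ℝ => (x + a) * Real.log (x + c))
      (Real.log (x + c) + (x + a) / (x + c)) x := by
    intro a c hc
    have h1 : HasDerivAt (fun x : ℝ => x + a) 1 x := (hasDerivAt_id x).add_const a
    have h2 : HasDerivAt (fun x : ℝ => x + c) 1 x := (hasDerivAt_id x).add_const c
    have h3 : HasDerivAt (fun x : ℝ => Real.log (x + c)) (1 / (x + c)) x := h2.log hc.ne'
    have h4 := h1.mul h3
    refine h4.congr_deriv ?_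
    ring
  have k1 := key 0 0 (by linarith)
  have k2 := key 3 3 (by linarith)
  have k3 := key (-1) 1 (by linarith)
  have k4 := key 4 2 (by linarith)
  have h := ((k1.add k2).sub k3).sub k4
  have e : svcF = fun x : ℝ => (x + 0) * Real.log (x + 0) + (x + 3) * Real.log (x + 3)
      - (x + -1) * Real.log (x + 1) - (x + 4) * Real.log (x + 2) := by
    funext y
    unfold svcF
    rw [add_zero]
    ring
  rw [e]
  refine h.congr_deriv ?_
  have hx1 : x + 1 ≠ 0 := by linarith
  have hx2 : x + 2 ≠ 0 := by linarith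
  have hx3 : x + 3 ≠ 0 := by linarith
  rw [add_zero]
  field_simp
  ring

lemma svc_quot {x : ℝ} (hx : 0 < x) :
    Real.log x + Real.log (x + 3) - Real.log (x + 1) - Real.log (x + 2)
      = Real.log (x * (x + 3) / ((x + 1) * (x + 2))) := by
  have hx1 : x + 1 ≠ 0 := by linarith
  have hx2 : x + 2 ≠ 0 := by linarith
  have hx3 : x + 3 ≠ 0 := by linarith
  rw [Real.log_div (mul_ne_zero hx.ne' hx3) (mul_ne_zero hx1 hx2),
    Real.log_mul hx.ne' hx3, Real.log_mul hx1 hx2]
  ring

lemma svcF_anti : StrictAntiOn svcF (Ioi 0) := by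
  refine strictAntiOn_of_deriv_neg (convex_Ioi 0) ?_ ?_
  · intro x hx
    exact (svcF_deriv hx).continuousAt.continuousWithinAt
  · intro x hx
    rw [interior_Ioi] at hx
    have hx0 : 0 < x := hx
    rw [(svcF_deriv hx0).deriv, svc_quot hx0]
    have hs : 0 < x * (x + 3) / ((x + 1) * (x + 2)) := by positivity
    have e : x * (x + 3) / ((x + 1) * (x + 2)) - 1 = -(2 / ((x + 1) * (x + 2))) := by
      field_simp
      ring
    have hne : x * (x + 3) / ((x + 1) * (x + 2)) ≠ 1 := by
      intro h
      rw [h] at e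
      have : 0 < 2 / ((x + 1) * (x + 2)) := by positivity
      linarith
    have := Real.log_lt_sub_one_of_pos hs hne
    linarith

lemma svcF_lower {y : ℝ} (hy : 0 < y) : -(3 / y) ≤ svcF y := by
  have e : svcF y = y * Real.log (y * (y + 3) / ((y + 1) * (y + 2)))
      + 3 * (Real.log (y + 3) - Real.log (y + 2)) - (Real.log (y + 2) - Real.log (y + 1)) := by
    rw [← svc_quot hy]
    unfold svcF
    ring
  have hs : 0 < y * (y + 3) / ((y + 1) * (y + 2)) := by positivity
  have h1 := Real.one_sub_inv_le_log_of_pos hs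
  have h2 : y * (1 - (y * (y + 3) / ((y + 1) * (y + 2)))⁻¹) = -(2 / (y + 3)) := by
    field_simp
    ring
  have h3 := mul_le_mul_of_nonneg_left h1 hy.le
  rw [h2] at h3
  have h4 : Real.log (y + 2) ≤ Real.log (y + 3) := Real.log_le_log (by linarith) (by linarith)
  have h5 : Real.log (y + 2) - Real.log (y + 1) ≤ 1 / (y + 1) := by
    rw [← Real.log_div (by linarith) (by linarith)]
    have := Real.log_le_sub_one_of_pos (show 0 < (y + 2) / (y + 1) by positivity)
    have e3 : (y + 2) / (y + 1) - 1 = 1 / (y + 1) := by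
      field_simp
      ring
    linarith
  have h6 : 2 / (y + 3) ≤ 2 / y := by
    apply div_le_div_of_nonneg_left (by norm_num) hy (by linarith)
  have h7 : 1 / (y + 1) ≤ 1 / y := by
    apply div_le_div_of_nonneg_left (by norm_num) hy (by linarith)
  have h8 : 2 / y + 1 / y = 3 / y := by ring
  linarith

lemma svcF_pos {x : ℝ} (hx : 0 < x) : 0 < svcF x := by
  have h1 : svcF (x + 1) < svcF x := svcF_anti hx (show (0:ℝ) < x + 1 by linarith) (by linarith)
  have h2 : 0 ≤ svcF (x + 1) := by
    by_contra hneg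
    push Not at hneg
    set δ := -svcF (x + 1) with hδ
    have hδ0 : 0 < δ := by linarith
    have h3 : 0 < 3 / δ := by positivity
    set y := x + 2 + 3 / δ with hy
    have hy0 : 0 < y := by linarith
    have h4 : svcF y < svcF (x + 1) :=
      svcF_anti (show (0:ℝ) < x + 1 by linarith) hy0 (by linarith)
    have h5 := svcF_lower hy0
    have h6 : 3 / y < δ := by
      rw [div_lt_iff₀ hy0]
      have : 3 = 3 / δ * δ := by field_simp
      nlinarith
    linarith
  linarith

theorem SVC_thm : Stmt_SVC := by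
  intro q hq
  have hq0 : (0:ℝ) < q := by exact_mod_cast hq
  have hF := svcF_pos hq0
  rw [svc_log_sv q hq, svc_log_sv (q + 1) (by omega), svc_log_sv (q + 2) (by omega)]
  have hf : (0:ℝ) < (q.factorial : ℝ) := by exact_mod_cast q.factorial_pos
  have f1 : Real.log (((q + 1).factorial : ℕ) : ℝ) =
      Real.log ((q:ℝ) + 1) + Real.log (q.factorial : ℝ) := by
    rw [Nat.factorial_succ, Nat.cast_mul, Real.log_mul (by positivity) hf.ne']
    push_cast
    ring
  have f2 : Real.log (((q + 2).factorial : ℕ) : ℝ) =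
      Real.log ((q:ℝ) + 2) + (Real.log ((q:ℝ) + 1) + Real.log (q.factorial : ℝ)) := by
    rw [Nat.factorial_succ, Nat.cast_mul, Real.log_mul (by positivity)
      (by exact_mod_cast (q + 1).factorial_pos.ne'), f1]
    push_cast
    rw [show (q:ℝ) + 1 + 1 = q + 2 by ring]
  rw [f1, f2]
  push_cast
  rw [show (q:ℝ) + 1 + 1 = q + 2 by ring, show (q:ℝ) + 2 + 1 = q + 3 by ring]
  unfold svcF at hF
  nlinarith

end Pool.LH73
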