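import Pool.Agent.Work.MP_1c7b0d_lh73.Interface

/-! Block SVM (helper87): `log sv (j - 1)` in terms of Binet's function. -/

set_option autoImplicit false

open Pool.LH60
open scoped BigOperators

namespace Pool.LH73

lemma SVM.sv_pos87 (k : ℕ) (hk : 1 ≤ k) : 0 < Pool.Agent.Work.MP_1c7b0d_gt.sv k := by
  unfold Pool.Agent.Work.MP_1c7b0d_gt.sv
  have : (0:ℝ) < k := by exact_mod_cast hk
  positivity

theorem SVM_thm : Stmt_SVM := by
  intro j hj
  obtain ⟨k, rfl⟩ : ∃ k, j = k + 1 := ⟨j - 1, by omega⟩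
  have hk : 1 ≤ k := by omega
  have hk0 : (0:ℝ) < k := by exact_mod_cast hk
  rw [Nat.add_sub_cancel]
  refine ⟨SVM.sv_pos87 k hk, ?_⟩
  unfold Pool.Agent.Work.MP_1c7b0d_gt.sv mu
  have h1 : (0:ℝ) < (k:ℝ) ^ k := by positivity
  have h2 : (0:ℝ) < ((k:ℝ) + 1) ^ (k + 1) := by positivity
  have h3 : (0:ℝ) < (k.factorial : ℝ) := by exact_mod_cast k.factorial_pos
  rw [Real.log_div (Real.sqrt_ne_zero'.mpr (by positivity)) h3.ne', Real.log_sqrt (by positivity),
    Real.log_mul h1.ne' h2.ne', Real.log_pow, Real.log_pow]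
  have h4 : Real.Gamma ((k + 1 : ℕ) : ℝ) = (k.factorial : ℝ) := by
    have := Real.Gamma_nat_eq_factorial k
    push_cast
    exact this
  rw [h4]
  have h5 : (1:ℝ) - 1 / ((k + 1 : ℕ) : ℝ) = (k:ℝ) / ((k:ℝ) + 1) := by
    push_cast
    field_simp
    ring
  rw [h5, Real.log_div hk0.ne' (by positivity)]
  push_cast
  ring

end Pool.LH73
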