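import Pool.Agent.Work.MP_1c7b0d_lh73.Interface

/-! SZ: the sizes of the classes. -/

set_option autoImplicit false

open MeasureTheory Matrix Pool.LH60
open scoped BigOperators

namespace Pool.LH73

theorem SZ_thm (hCLU3 : Stmt_CLU3) (hCLU5 : Stmt_CLU5) : Stmt_SZ := by
  intro ι _ _ K Φ m a hC hCl hS b
  obtain ⟨hsz, -, hEps⟩ := hCLU3 ι K K Φ m a hC hCl
  obtain ⟨hK, hΦ, hm, -, -, hD⟩ := hC
  obtain ⟨-, h5, -⟩ := hCLU5 ι K Φ a hΦ hCl.1
  have hm0 : (0:ℝ) < m := by linarith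
  have hK1 : (1:ℝ) ≤ K := by exact_mod_cast hK
  set M : ℝ := (msz a b : ℝ) with hM
  have hM2 : M ≤ 108/100 * m := (hsz b).2
  have hM0 : 0 ≤ M := by rw [hM]; positivity
  -- Cauchy-Schwarz
  have h1 : (∑ i ∈ fib a b, (cn Φ i - 1/m))^2 ≤ M * (10 * K / m^3) := by
    have h2 := sq_sum_le_card_mul_sum_sq (s := fib a b) (f := fun i => cn Φ i - 1/m)
    refine h2.trans ?_
    have h3 : (((fib a b).card : ℕ) : ℝ) = M := rfl
    rw [h3]
    refine mul_le_mul_of_nonneg_left (le_trans ?_ hS) hM0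
    exact Finset.sum_le_sum_of_subset_of_nonneg (Finset.subset_univ _) fun _ _ _ => sq_nonneg _
  have h2 : ∑ i ∈ fib a b, (cn Φ i - 1/m) = Cc Φ a b - M / m := by
    rw [Finset.sum_sub_distrib, Finset.sum_const, nsmul_eq_mul]
    have h3 : (((fib a b).card : ℕ) : ℝ) = M := rfl
    rw [h3]
    unfold Cc
    ring
  rw [h2] at h1
  have h3 : M * (10 * K / m^3) ≤ (33/10 * Real.sqrt K / m)^2 := by
    rw [div_pow, mul_pow, Real.sq_sqrt (by linarith : (0:ℝ) ≤ K)]
    rw [← mul_div_assoc, div_le_div_iff₀ (by positivity) (by positivity)]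
    have : M * (10 * K) ≤ 108/100 * m * (10 * K) :=
      mul_le_mul_of_nonneg_right hM2 (by linarith)
    calc M * (10 * K) * m^2 ≤ 108/100 * m * (10 * K) * m^2 :=
          mul_le_mul_of_nonneg_right this (by positivity)
      _ ≤ (33/10)^2 * K * m^3 := by nlinarith [mul_pos (by linarith : (0:ℝ) < K) (pow_pos hm0 3)]
  have hsq : (1:ℝ) ≤ Real.sqrt K := by
    rw [show (1:ℝ) = Real.sqrt 1 by simp]
    exact Real.sqrt_le_sqrt hK1
  have h4 : |Cc Φ a b - M / m| ≤ 33/10 * Real.sqrt K / m :=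
    abs_le_of_sq_le_sq (h1.trans h3) (by positivity)
  have h6 : Eps Φ a ≤ 11/40000 / m := by
    refine hEps.trans ?_
    rw [le_div_iff₀ hm0]
    nlinarith
  have h7 := h5 b
  have h8 : |M / m - 1| ≤ 33/10 * Real.sqrt K / m + 11/40000 / m := by
    have h9 : M / m - 1 = (Cc Φ a b - 1) - (Cc Φ a b - M / m) := by ring
    rw [h9]
    refine (abs_sub _ _).trans ?_
    linarith
  have h10 : M - m = (M / m - 1) * m := by field_simp
  rw [h10, abs_mul, abs_of_pos hm0]
  calc |M / m - 1| * m ≤ (33/10 * Real.sqrt K / m + 11/40000 / m) * m :=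
        mul_le_mul_of_nonneg_right h8 hm0.le
    _ = 33/10 * Real.sqrt K + 11/40000 := by field_simp
    _ ≤ 4 * Real.sqrt K := by linarith

end Pool.LH73
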