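import Pool.Agent.Work.MP_1c7b0d_lh73.Interface

open MeasureTheory Matrix Pool.LH60
open scoped BigOperators

namespace Pool.LH73

namespace TOP73

open Pool.Agent.Work.MP_1c7b0d_gt

lemma matU_mul_apply {d K : ℕ} (u : Fin (d + K) → EuclideanSpace ℝ (Fin d)) (i j : Ix d K) :
    (matU u * (matU u)ᵀ) i j = inner ℝ (u (finSumFinEquiv i)) (u (finSumFinEquiv j)) := by
  rw [Matrix.mul_apply, PiLp.inner_apply]
  refine Finset.sum_congr rfl fun a _ => ?_
  simp only [matU, Matrix.transpose_apply, RCLike.inner_apply, conj_trivial]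
  ring

lemma msz_comp {ι κ : Type} [Fintype ι] [DecidableEq ι] [Fintype κ] [DecidableEq κ] {L : ℕ}
    (e : ι ≃ κ) (p : κ → Fin L) (b : Fin L) : msz (fun i => p (e i)) b = msz p b := by
  unfold msz fib
  refine Finset.card_bij (fun i _ => e i) ?_ ?_ ?_
  · intro i hi
    simpa using hi
  · intro i _ j _ h
    exact e.injective h
  · intro k hk
    exact ⟨e.symm k, by simpa using hk, by simp⟩

lemma patG_iff {d K : ℕ} (u : Fin (d + K) → EuclideanSpace ℝ (Fin d)) :
    PatG (matU u) ↔ ∃ p : Fin (d + K) → Fin K,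
        (∀ b, msz p b = d / K + 1 ∨ msz p b = d / K + 2) ∧
        (∀ i j, i ≠ j → p i = p j → inner ℝ (u i) (u j) = -1 / ((msz p (p i) : ℝ) - 1)) ∧
        (∀ i j, p i ≠ p j → inner ℝ (u i) (u j) = 0) := by
  constructor
  · rintro ⟨p, h0, h1, h2⟩
    have hm : ∀ b, msz (fun i => p (finSumFinEquiv.symm i)) b = msz p b :=
      fun b => msz_comp finSumFinEquiv.symm p b
    refine ⟨fun i => p (finSumFinEquiv.symm i), ?_, ?_, ?_⟩
    · intro b
      rw [hm]
      exact h0 b
    · intro i j hij hp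
      have := h1 (finSumFinEquiv.symm i) (finSumFinEquiv.symm j)
        (fun h => hij (finSumFinEquiv.symm.injective h)) hp
      rw [matU_mul_apply] at this
      rw [hm]
      simpa using this
    · intro i j hp
      have := h2 (finSumFinEquiv.symm i) (finSumFinEquiv.symm j) hp
      rw [matU_mul_apply] at this
      simpa using this
  · rintro ⟨p, h0, h1, h2⟩
    have hm : ∀ b, msz (fun i : Ix d K => p (finSumFinEquiv i)) b = msz p b :=
      fun b => msz_comp finSumFinEquiv p b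
    refine ⟨fun i => p (finSumFinEquiv i), ?_, ?_, ?_⟩
    · intro b
      rw [hm]
      exact h0 b
    · intro i j hij hp
      rw [matU_mul_apply, hm]
      exact h1 _ _ (fun h => hij (finSumFinEquiv.injective h)) hp
    · intro i j hp
      rw [matU_mul_apply]
      exact h2 _ _ hp

/-- the vectors of a matrix -/
noncomputable def vecU {d K : ℕ} (U : Matrix (Ix d K) (Fin d) ℝ) (i : Fin (d + K)) :
    EuclideanSpace ℝ (Fin d) := WithLp.toLp 2 (fun a => U (finSumFinEquiv.symm i) a)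

lemma matU_vecU {d K : ℕ} (U : Matrix (Ix d K) (Fin d) ℝ) : matU (vecU U) = U := by
  ext i a
  simp [matU, vecU]

lemma norm_vecU {d K : ℕ} (U : Matrix (Ix d K) (Fin d) ℝ) (h : UnitRows U) (i) :
    ‖vecU U i‖ = 1 := by
  rw [EuclideanSpace.norm_eq]
  have := h (finSumFinEquiv.symm i)
  simp only [vecU, Real.norm_eq_abs, sq_abs]
  rw [this, Real.sqrt_one]

end TOP73

open TOP73 in
theorem TOP73_thm (hL : Stmt_LOW73) (hX : Stmt_EXVG) (hE : Stmt_EXIG) (hI : Stmt_ISOG)
    (hT : Stmt_TRF) : Stmt_TOP73 := by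
  intro d K hK hd
  have hKd : K ≤ d := by nlinarith
  refine ⟨?_, ?_, ?_⟩
  · intro u hu
    obtain ⟨hv, hun⟩ := hT d K u hu
    obtain ⟨h1, h2⟩ := hL d K (matU u) hK hd hun
    rw [hv]
    refine ⟨h1, ?_⟩
    rw [← patG_iff]
    exact ⟨h2, fun h => hX d K (matU u) hK hKd hun h⟩
  · obtain ⟨U, hU, hp⟩ := hE d K hK hKd
    have hn := norm_vecU U hU
    refine ⟨vecU U, hn, ?_⟩
    obtain ⟨hv, hun⟩ := hT d K (vecU U) hn
    rw [hv, matU_vecU]
    exact hX d K U hK hKd hU hp
  · intro u u' hu hu' h h'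
    obtain ⟨hv, hun⟩ := hT d K u hu
    obtain ⟨hv', hun'⟩ := hT d K u' hu'
    refine hI d K u u' hK hKd hu hu' ?_ ?_
    · exact (hL d K (matU u) hK hd hun).2 (hv ▸ h)
    · exact (hL d K (matU u') hK hd hun').2 (hv' ▸ h')

end Pool.LH73
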