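import Pool.Agent.Work.MP_1c7b0d_lh73.SPECL
import Pool.Agent.Work.MP_1c7b0d_lh73.EIGX

/-! TRK (helper58): the trace identity. -/

open MeasureTheory Matrix Pool.LH60
open scoped BigOperators

namespace Pool.LH73

theorem TRK_thm : Stmt_TRK := by
  intro ι _ _ K Φ y hD
  obtain ⟨e, Q, hE⟩ := EIGX_thm K _ hD
  obtain ⟨-, hes, -, hqf⟩ := SPECL.data Φ y e Q hE
  have h1 : ∑ i, y i * qf Φ (Dm Φ y)⁻¹ i = ∑ i, ∑ k, y i * ((Φ * Q) i k) ^ 2 / e k := by
    refine Finset.sum_congr rfl fun i _ => ?_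
    rw [hqf i, Finset.mul_sum]
    refine Finset.sum_congr rfl fun k _ => ?_
    ring
  rw [h1, Finset.sum_comm]
  have h2 : ∀ k, ∑ i, y i * ((Φ * Q) i k) ^ 2 / e k = 1 := by
    intro k
    rw [← Finset.sum_div, hes k, div_self (hE.pos k).ne']
  rw [Finset.sum_congr rfl fun k _ => h2 k]
  simp

end Pool.LH73
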