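import Pool.Agent.Work.MP_1c7b0d_lh60.GLIM
import Pool.Agent.Work.MP_1c7b0d_lh60.GM1
import Pool.Agent.Work.MP_1c7b0d_lh60.GM2
import Pool.Agent.Work.MP_1c7b0d_lh60.GM3
import Pool.Agent.Work.MP_1c7b0d_lh60.GCV
import Pool.Agent.Work.MP_1c7b0d_lh60.SPEC
import Pool.Agent.Work.MP_1c7b0d_lh60.BLI
import Pool.Agent.Work.MP_1c7b0d_lh60.BLG
import Pool.Agent.Work.MP_1c7b0d_lh60.CVI
import Pool.Agent.Work.MP_1c7b0d_lh60.CVS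
import Pool.Agent.Work.MP_1c7b0d_lh60.CVD
import Pool.Agent.Work.MP_1c7b0d_lh60.CVT
import Pool.Agent.Work.MP_1c7b0d_lh60.PDY
import Pool.Agent.Work.MP_1c7b0d_lh60.LINB
import Pool.Agent.Work.MP_1c7b0d_lh60.ONC
import Pool.Agent.Work.MP_1c7b0d_lh60.FRI
import Pool.Agent.Work.MP_1c7b0d_lh60.DETS
import Pool.Agent.Work.MP_1c7b0d_lh60.RHO
import Pool.Agent.Work.MP_1c7b0d_lh60.DEGEN
import Pool.Agent.Work.MP_1c7b0d_lh60.TRF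
import Pool.Agent.Work.MP_1c7b0d_lh60.ZB
import Pool.Agent.Work.MP_1c7b0d_lh73.ALD
import Pool.Agent.Work.MP_1c7b0d_lh73.CLU1
import Pool.Agent.Work.MP_1c7b0d_lh73.CLU2
import Pool.Agent.Work.MP_1c7b0d_lh73.CLU3
import Pool.Agent.Work.MP_1c7b0d_lh73.CLU4
import Pool.Agent.Work.MP_1c7b0d_lh73.CLU5
import Pool.Agent.Work.MP_1c7b0d_lh73.CUT
import Pool.Agent.Work.MP_1c7b0d_lh73.CUTC
import Pool.Agent.Work.MP_1c7b0d_lh73.CUTD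
import Pool.Agent.Work.MP_1c7b0d_lh73.DEF1
import Pool.Agent.Work.MP_1c7b0d_lh73.DEF2
import Pool.Agent.Work.MP_1c7b0d_lh73.DETC
import Pool.Agent.Work.MP_1c7b0d_lh73.DETE
import Pool.Agent.Work.MP_1c7b0d_lh73.EIGX
import Pool.Agent.Work.MP_1c7b0d_lh73.EPZ
import Pool.Agent.Work.MP_1c7b0d_lh73.EXIG
import Pool.Agent.Work.MP_1c7b0d_lh73.EXVG
import Pool.Agent.Work.MP_1c7b0d_lh73.FIN1
import Pool.Agent.Work.MP_1c7b0d_lh73.FIN2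
import Pool.Agent.Work.MP_1c7b0d_lh73.GAIN
import Pool.Agent.Work.MP_1c7b0d_lh73.HSL
import Pool.Agent.Work.MP_1c7b0d_lh73.ISOG
import Pool.Agent.Work.MP_1c7b0d_lh73.ISOT
import Pool.Agent.Work.MP_1c7b0d_lh73.LOW73
import Pool.Agent.Work.MP_1c7b0d_lh73.MAINA
import Pool.Agent.Work.MP_1c7b0d_lh73.MAINB1
import Pool.Agent.Work.MP_1c7b0d_lh73.MAINB2
import Pool.Agent.Work.MP_1c7b0d_lh73.NEQ
import Pool.Agent.Work.MP_1c7b0d_lh73.RCL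
import Pool.Agent.Work.MP_1c7b0d_lh73.SCA5
import Pool.Agent.Work.MP_1c7b0d_lh73.SPECL
import Pool.Agent.Work.MP_1c7b0d_lh73.SVC
import Pool.Agent.Work.MP_1c7b0d_lh73.SVM
import Pool.Agent.Work.MP_1c7b0d_lh73.SZ
import Pool.Agent.Work.MP_1c7b0d_lh73.TOP73
import Pool.Agent.Work.MP_1c7b0d_lh73.TRK

/-! Assembly (helper73). -/

namespace Pool.LH73

open Pool.LH60

theorem final : Stmt_TOP73 := by
  have hGM1 : Stmt_GM1 := GM1_thm GLIM_thm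
  have hGM2 : Stmt_GM2 := GM2_thm GLIM_thm
  have hGM3 : Stmt_GM3 := GM3_thm hGM1 hGM2
  have hGCV : Stmt_GCV := GCV_thm hGM2
  have hSPEC : Stmt_SPEC := SPEC_thm hGCV
  have hBLG : Stmt_BLG := BLG_thm BLI_thm
  have hCVT : Stmt_CVT := CVT_thm CVI_thm (CVS_thm FRI_thm) CVD_thm PDY_thm
  have hMAINA : Stmt_MAINA := MAINA_thm hGM3 SCA5_thm hSPEC hBLG hCVT DEF1_thm PDY_thm LINB_thm
  have hCUT : Stmt_CUT := CUT_thm CUTD_thm CUTC_thm hMAINA ONC_thm hGM1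
  have hGAIN : Stmt_GAIN := GAIN_thm hCVT DEF2_thm
  have hSPECL : Stmt_SPECL := SPECL_thm hGCV
  have hB1 : Stmt_MAINB1 := MAINB1_thm hGM3 SCAL_thm hSPECL EIGX_thm HSL_thm TRK_thm hBLG LINB_thm
    PDY_thm hGAIN DEF1_thm
  have hB2 : Stmt_MAINB2 := MAINB2_thm SCAL_thm hSPECL EIGX_thm HSL_thm RCL_thm hBLG LINB_thm
    PDY_thm hGAIN DEF1_thm
  have hCLU2 : Stmt_CLU2 := CLU2_thm (CLU1_thm DEF1_thm) DEF1_thm
  have hCLU3 : Stmt_CLU3 := CLU3_thm DEF1_thm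
  have hCLU4 : Stmt_CLU4 := CLU4_thm DEF1_thm hCLU3
  have hCLU5 : Stmt_CLU5 := CLU5_thm DEF1_thm
  have hSZ : Stmt_SZ := SZ_thm hCLU3 hCLU5
  have hEPZ : Stmt_EPZ := EPZ_thm SVM_thm hGM3
  have hFIN1 : Stmt_FIN1 := FIN1_thm hEPZ hMAINA ISOT_thm hCUT hB1 DEF1_thm DETS_thm FRI_thm RHO_thm
  have hFIN2 : Stmt_FIN2 := FIN2_thm hFIN1 hCLU2 hCLU3 hCLU4 hCLU5 hSZ ALD_thm hGM3 hB2
    (DETC_thm RHO_thm FRI_thm) SVM_thm DEF1_thm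
  have hLOW : Stmt_LOW73 := LOW73_thm hFIN2 (NEQ_thm SVC_thm) hEPZ DEF1_thm DETS_thm DETE_thm FRI_thm
    ONC_thm DEGEN_thm
  exact TOP73_thm hLOW (EXVG_thm hCVT ZB_thm) (EXIG_thm ONC_thm) ISOG_thm TRF_thm

end Pool.LH73
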