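import Pool.Agent.Work.MP_1c7b0d_lh73.Interface

set_option autoImplicit false

/-!
Block CUTD (helper96): the determinant of the frame operator of the cut polytope.
-/

open Matrix Pool.LH60
open scoped BigOperators

namespace Pool.LH73

namespace CUTD

/-- `log det ≤ trace - d` for a Gram matrix with positive determinant. -/
lemma log_det_le {ι : Type} [Fintype ι] {d : ℕ} (G : Matrix ι (Fin d) ℝ)
    (h : 0 < (Gᵀ * G).det) :
    Real.log (Gᵀ * G).det ≤ (∑ i, ∑ a, G i a ^ 2) - d := by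
  have hps : (Gᵀ * G).PosSemidef := by
    have := Matrix.posSemidef_conjTranspose_mul_self G
    rwa [Matrix.conjTranspose_eq_transpose_of_trivial] at this
  have hH := hps.isHermitian
  have hdet : (Gᵀ * G).det = ∏ i, hH.eigenvalues i := by
    have := hH.det_eq_prod_eigenvalues
    simpa using this
  have htr : (Gᵀ * G).trace = ∑ i, hH.eigenvalues i := by
    have := hH.trace_eq_sum_eigenvalues
    simpa using this
  have hnn : ∀ i, 0 ≤ hH.eigenvalues i := fun i => hps.eigenvalues_nonneg i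
  have hpos : ∀ i, 0 < hH.eigenvalues i := by
    intro i
    refine lt_of_le_of_ne (hnn i) (fun h0 => ?_)
    rw [hdet, Finset.prod_eq_zero (Finset.mem_univ i) h0.symm] at h
    exact lt_irrefl _ h
  have htr2 : (Gᵀ * G).trace = ∑ i, ∑ a, G i a ^ 2 := by
    rw [Finset.sum_comm]
    simp only [Matrix.trace, Matrix.diag, Matrix.mul_apply, Matrix.transpose_apply]
    apply Finset.sum_congr rfl
    intro a _
    apply Finset.sum_congr rfl
    intro i _
    ring
  rw [hdet, Real.log_prod (fun i _ => (hpos i).ne'), ← htr2, htr]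
  calc ∑ i, Real.log (hH.eigenvalues i) ≤ ∑ i, (hH.eigenvalues i - 1) :=
        Finset.sum_le_sum (fun i _ => Real.log_le_sub_one_of_pos (hpos i))
    _ = _ := by
        rw [Finset.sum_sub_distrib]
        simp

/-- splitting off the last facet -/
lemma sum_split {d K : ℕ} (f : Ix d (K + 1) → ℝ) :
    ∑ i, f i = ∑ i : Ix d K, f (emb i) + f (Sum.inr (Fin.last K)) := by
  rw [Fintype.sum_sum_type, Fintype.sum_sum_type, Fin.sum_univ_castSucc]
  simp only [emb, Sum.map_inl, Sum.map_inr, id]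
  ring

lemma cutU_emb {d K : ℕ} (V : Matrix (Ix d K) (Fin d) ℝ) (ω : Fin d → ℝ) (i : Ix d K)
    (b : Fin d) : cutU V ω (emb i) b = V i b / (1 - tau V ω i / 5) := by
  rcases i with a | k
  · rfl
  · simp [cutU, emb]

lemma cutU_last {d K : ℕ} (V : Matrix (Ix d K) (Fin d) ℝ) (ω : Fin d → ℝ) (b : Fin d) :
    cutU V ω (Sum.inr (Fin.last K)) b = -10 * ω b := by
  simp [cutU]

end CUTD

open CUTD

theorem CUTD_thm : Stmt_CUTD := by
  classical
  intro d K V hd hV ω hω hsign
  obtain ⟨τ, hτ⟩ : ∃ τ : Ix d K → ℝ, τ = tau V ω := ⟨_, rfl⟩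
  rw [← hτ] at hsign
  have hτi : ∀ i, τ i = ∑ a, V i a * ω a := fun i => by rw [hτ]; rfl
  -- columns orthonormal
  have hVab : ∀ a b, ∑ i, V i a * V i b = if a = b then 1 else 0 := by
    intro a b
    have := congrFun (congrFun hV a) b
    simpa [Matrix.mul_apply, Matrix.one_apply] using this
  have hform : ∀ x : Fin d → ℝ, ∑ i, (∑ a, V i a * x a) ^ 2 = ∑ a, x a ^ 2 := by
    intro x
    have h1 : ∀ i, (∑ a, V i a * x a) ^ 2 = ∑ a, ∑ b, (V i a * V i b) * (x a * x b) := by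
      intro i
      rw [sq, Finset.sum_mul_sum]
      apply Finset.sum_congr rfl
      intro a _
      apply Finset.sum_congr rfl
      intro b _
      ring
    rw [Finset.sum_congr rfl (fun i _ => h1 i), Finset.sum_comm]
    apply Finset.sum_congr rfl
    intro a _
    rw [Finset.sum_comm]
    have h2 : ∀ b, ∑ i, V i a * V i b * (x a * x b) = (if a = b then 1 else 0) * (x a * x b) := by
      intro b
      rw [← Finset.sum_mul, hVab]
    rw [Finset.sum_congr rfl (fun b _ => h2 b)]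
    simp [sq]
  have hτ2 : ∑ i, τ i ^ 2 = 1 := by
    rw [← hω, ← hform ω]
    exact Finset.sum_congr rfl (fun i _ => by rw [hτi])
  -- rows have norm at most one
  have hrow : ∀ i, ∑ a, V i a ^ 2 ≤ 1 := by
    intro i
    obtain ⟨N, hN⟩ : ∃ N, N = ∑ a, V i a ^ 2 := ⟨_, rfl⟩
    have h1 := hform (fun a => V i a)
    have h2 : (∑ a, V i a * V i a) ^ 2 ≤ ∑ j, (∑ a, V j a * V i a) ^ 2 :=
      Finset.single_le_sum (f := fun j => (∑ a, V j a * V i a) ^ 2)
        (fun j _ => sq_nonneg _) (Finset.mem_univ i)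
    rw [h1] at h2
    have h3 : ∑ a, V i a * V i a = ∑ a, V i a ^ 2 :=
      Finset.sum_congr rfl (fun a _ => by ring)
    rw [h3, ← hN] at h2
    have h4 : 0 ≤ N := by rw [hN]; positivity
    rw [← hN]
    nlinarith
  have hτrow : ∀ i, τ i ^ 2 ≤ ∑ a, V i a ^ 2 := by
    intro i
    rw [hτi]
    have := Finset.sum_mul_sq_le_sq_mul_sq Finset.univ (fun a => V i a) ω
    rw [hω, mul_one] at this
    exact this
  have hτ1 : ∀ i, -1 ≤ τ i ∧ τ i ≤ 1 := by
    intro i
    have h1 : τ i ^ 2 ≤ 1 := (hτrow i).trans (hrow i)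
    constructor <;> nlinarith
  have hz : ∀ i, 0 < 1 - τ i / 5 := fun i => by
    have := (hτ1 i).2
    linarith
  obtain ⟨U, hU⟩ : ∃ U, U = cutU V ω := ⟨_, rfl⟩
  rw [← hU]
  have hUe : ∀ i b, U (emb i) b = V i b / (1 - τ i / 5) := by
    intro i b; rw [hU, hτ]; exact cutU_emb V ω i b
  have hUl : ∀ b, U (Sum.inr (Fin.last K)) b = -10 * ω b := by
    intro b; rw [hU]; exact cutU_last V ω b
  -- positive definite
  have hpd : (Uᵀ * U).PosDef := by
    have hps : (Uᵀ * U).PosSemidef := by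
      have := Matrix.posSemidef_conjTranspose_mul_self U
      rwa [Matrix.conjTranspose_eq_transpose_of_trivial] at this
    refine Matrix.PosDef.of_dotProduct_mulVec_pos hps.isHermitian ?_
    intro x hx
    have h1 : star x ⬝ᵥ (Uᵀ * U) *ᵥ x = ∑ i, (∑ a, U i a * x a) ^ 2 := by
      rw [star_trivial, ← Matrix.mulVec_mulVec, Matrix.dotProduct_mulVec, Matrix.vecMul_transpose]
      simp only [dotProduct, Matrix.mulVec]
      exact Finset.sum_congr rfl (fun i _ => by ring)
    rw [h1, sum_split]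
    have h2 : ∀ i : Ix d K, (25 / 36) * (∑ a, V i a * x a) ^ 2 ≤ (∑ a, U (emb i) a * x a) ^ 2 := by
      intro i
      have h3 : ∑ a, U (emb i) a * x a = (∑ a, V i a * x a) / (1 - τ i / 5) := by
        rw [Finset.sum_div]
        exact Finset.sum_congr rfl (fun a _ => by rw [hUe]; ring)
      rw [h3, div_pow, le_div_iff₀ (pow_pos (hz i) 2)]
      have h4 : (1 - τ i / 5) ^ 2 ≤ 36 / 25 := by
        have := hτ1 i
        have h5 := hz i
        nlinarith
      have h6 : 0 ≤ (∑ a, V i a * x a) ^ 2 := sq_nonneg _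
      nlinarith
    have h3 : (25 / 36) * ∑ a, x a ^ 2 ≤ ∑ i : Ix d K, (∑ a, U (emb i) a * x a) ^ 2 := by
      rw [← hform x, Finset.mul_sum]
      exact Finset.sum_le_sum (fun i _ => h2 i)
    have h4 : 0 < ∑ a, x a ^ 2 := by
      obtain ⟨a, ha⟩ : ∃ a, x a ≠ 0 := by
        by_contra hcon
        push Not at hcon
        exact hx (funext hcon)
      exact Finset.sum_pos' (fun b _ => sq_nonneg _) ⟨a, Finset.mem_univ a, by positivity⟩
    have h5 : 0 ≤ (∑ a, U (Sum.inr (Fin.last K)) a * x a) ^ 2 := sq_nonneg _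
    linarith
  refine ⟨hpd, ?_⟩
  -- the square root of the inverse of `1 + 100 ω ωᵀ`
  obtain ⟨c, hc⟩ : ∃ c : ℝ, c = 1 - 1 / Real.sqrt 101 := ⟨_, rfl⟩
  have hc1 : (1 - c) ^ 2 = 1 / 101 := by
    rw [hc]
    have : (1 - (1 - 1 / Real.sqrt 101)) ^ 2 = 1 / (Real.sqrt 101) ^ 2 := by
      rw [sub_sub_cancel, div_pow, one_pow]
    rw [this, Real.sq_sqrt (by norm_num)]
  have hc2 : 2 * c - c ^ 2 = 100 / 101 := by linarith [hc1]
  obtain ⟨C, hC⟩ : ∃ C : Matrix (Fin d) (Fin d) ℝ, C = 1 - c • vecMulVec ω ω := ⟨_, rfl⟩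
  have hCT : Cᵀ = C := by
    rw [hC]
    ext a b
    simp [Matrix.vecMulVec_apply, Matrix.one_apply, eq_comm, mul_comm]
  have hCdet : C.det = 1 - c := by
    have h1 : C = 1 + replicateCol Unit ((-c) • ω) * replicateRow Unit ω := by
      rw [hC, ← Matrix.vecMulVec_eq]
      ext a b
      simp [Matrix.vecMulVec_apply]
      ring
    rw [h1, Matrix.det_one_add_replicateCol_mul_replicateRow]
    have : ω ⬝ᵥ ((-c) • ω) = -c := by
      rw [dotProduct_smul, smul_eq_mul]
      have : ω ⬝ᵥ ω = 1 := by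
        rw [← hω, dotProduct]
        exact Finset.sum_congr rfl (fun a _ => by ring)
      rw [this, mul_one]
    rw [this]; ring
  have hM : (U * C)ᵀ * (U * C) = C * (Uᵀ * U) * C := by
    rw [Matrix.transpose_mul, hCT]
    simp only [Matrix.mul_assoc]
  have hMdet : ((U * C)ᵀ * (U * C)).det = 1 / 101 * (Uᵀ * U).det := by
    rw [hM, Matrix.det_mul, Matrix.det_mul, hCdet, ← hc1]
    ring
  have hdetpos : 0 < (Uᵀ * U).det := hpd.det_pos
  have hle := log_det_le (U * C) (by rw [hMdet]; positivity)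
  have hUC : ∀ i a, (U * C) i a = U i a - c * (∑ b, U i b * ω b) * ω a := by
    intro i a
    rw [Matrix.mul_apply, hC]
    have : ∀ b, U i b * (1 - c • vecMulVec ω ω) b a
        = (if b = a then U i b else 0) - c * (U i b * ω b) * ω a := by
      intro b
      rw [Matrix.sub_apply, Matrix.smul_apply, Matrix.vecMulVec_apply, Matrix.one_apply]
      split_ifs <;> simp <;> ring
    rw [Finset.sum_congr rfl (fun b _ => this b), Finset.sum_sub_distrib]
    simp [Finset.mul_sum, Finset.sum_mul]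
  have hrowUC : ∀ i, ∑ a, (U * C) i a ^ 2
      = ∑ a, U i a ^ 2 - 100 / 101 * (∑ b, U i b * ω b) ^ 2 := by
    intro i
    obtain ⟨ρ, hρ⟩ : ∃ ρ, ρ = ∑ b, U i b * ω b := ⟨_, rfl⟩
    have h1 : ∀ a, (U * C) i a ^ 2 = U i a ^ 2 - 2 * c * ρ * (U i a * ω a) + c ^ 2 * ρ ^ 2 * ω a ^ 2 := by
      intro a
      rw [hUC, ← hρ]; ring
    rw [Finset.sum_congr rfl (fun a _ => h1 a), Finset.sum_add_distrib, Finset.sum_sub_distrib,
      ← Finset.mul_sum, ← Finset.mul_sum, ← hρ, hω, ← hc2]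
    ring
  -- evaluation of the trace
  obtain ⟨w, hw⟩ : ∃ w : Ix d K → ℝ, w = fun i => (∑ a, V i a ^ 2) - 100 / 101 * τ i ^ 2 :=
    ⟨_, rfl⟩
  have hw0 : ∀ i, 0 ≤ w i := by
    intro i
    rw [hw]
    have := hτrow i
    have h2 : 0 ≤ τ i ^ 2 := sq_nonneg _
    show 0 ≤ (∑ a, V i a ^ 2) - 100 / 101 * τ i ^ 2
    linarith
  have hw1 : ∀ i, w i ≤ 1 := by
    intro i
    rw [hw]
    have := hrow i
    have h2 : 0 ≤ τ i ^ 2 := sq_nonneg _
    show (∑ a, V i a ^ 2) - 100 / 101 * τ i ^ 2 ≤ 1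
    linarith
  have hsumw : ∑ i, w i = (d : ℝ) - 100 / 101 := by
    rw [hw]
    show ∑ i, ((∑ a, V i a ^ 2) - 100 / 101 * τ i ^ 2) = (d : ℝ) - 100 / 101
    rw [Finset.sum_sub_distrib, ← Finset.mul_sum, hτ2, Finset.sum_comm]
    have : ∀ a, ∑ i, V i a ^ 2 = 1 := by
      intro a
      have := hVab a a
      rw [if_pos rfl] at this
      rw [← this]
      exact Finset.sum_congr rfl (fun i _ => by ring)
    rw [Finset.sum_congr rfl (fun a _ => this a)]
    simp
  have htrace : ∑ i, ∑ a, (U * C) i a ^ 2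
      = ∑ i, w i / (1 - τ i / 5) ^ 2 + 100 / 101 := by
    rw [Finset.sum_congr rfl (fun i _ => hrowUC i), sum_split]
    congr 1
    · apply Finset.sum_congr rfl
      intro i _
      have h1 : ∑ a, U (emb i) a ^ 2 = (∑ a, V i a ^ 2) / (1 - τ i / 5) ^ 2 := by
        rw [Finset.sum_div]
        exact Finset.sum_congr rfl (fun a _ => by rw [hUe, div_pow])
      have h2 : ∑ b, U (emb i) b * ω b = τ i / (1 - τ i / 5) := by
        rw [hτi, Finset.sum_div]
        exact Finset.sum_congr rfl (fun a _ => by rw [hUe, ← hτi]; ring)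
      rw [h1, h2, hw]
      field_simp
    · have h1 : ∑ a, U (Sum.inr (Fin.last K)) a ^ 2 = 100 := by
        have : ∀ a, U (Sum.inr (Fin.last K)) a ^ 2 = 100 * ω a ^ 2 := by
          intro a; rw [hUl]; ring
        rw [Finset.sum_congr rfl (fun a _ => this a), ← Finset.mul_sum, hω, mul_one]
      have h2 : ∑ b, U (Sum.inr (Fin.last K)) b * ω b = -10 := by
        have : ∀ a, U (Sum.inr (Fin.last K)) a * ω a = -10 * ω a ^ 2 := by
          intro a; rw [hUl]; ring
        rw [Finset.sum_congr rfl (fun a _ => this a), ← Finset.mul_sum, hω, mul_one]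
      rw [h1, h2]; norm_num
  have hterm : ∀ i, w i / (1 - τ i / 5) ^ 2
      ≤ w i + 2 / 5 * (τ i * w i) + 65 / 400 * τ i ^ 2 := by
    intro i
    have h1 := hτ1 i
    have hz' := hz i
    have h2 : 1 ≤ (1 + 2 * (τ i / 5) + 65 / 16 * (τ i / 5) ^ 2) * (1 - τ i / 5) ^ 2 := by
      obtain ⟨z, hz⟩ : ∃ z, z = τ i / 5 := ⟨_, rfl⟩
      rw [← hz]
      have hz1 : -(1 / 5) ≤ z := by rw [hz]; linarith
      have hz2 : z ≤ 1 / 5 := by rw [hz]; linarith
      have h3 : (1 + 2 * z + 65 / 16 * z ^ 2) * (1 - z) ^ 2 - 1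
          = z ^ 2 * ((1 / 5 - z) * (85 / 16 - 65 / 16 * z)) := by
        ring
      have h4 : 0 ≤ z ^ 2 * ((1 / 5 - z) * (85 / 16 - 65 / 16 * z)) := by
        apply mul_nonneg (sq_nonneg _)
        apply mul_nonneg
        · linarith
        · linarith
      linarith
    have h3 : w i / (1 - τ i / 5) ^ 2 ≤ w i * (1 + 2 * (τ i / 5) + 65 / 16 * (τ i / 5) ^ 2) := by
      rw [div_le_iff₀ (pow_pos hz' 2), mul_assoc]
      nlinarith [hw0 i, mul_le_mul_of_nonneg_left h2 (hw0 i)]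
    have h4 : w i * τ i ^ 2 ≤ 1 * τ i ^ 2 := mul_le_mul_of_nonneg_right (hw1 i) (sq_nonneg _)
    have h5 : w i * (1 + 2 * (τ i / 5) + 65 / 16 * (τ i / 5) ^ 2)
        = w i + 2 / 5 * (τ i * w i) + 65 / 400 * (w i * τ i ^ 2) := by ring
    linarith
  have hsum : ∑ i, w i / (1 - τ i / 5) ^ 2 ≤ ((d : ℝ) - 100 / 101) + 65 / 400 := by
    calc ∑ i, w i / (1 - τ i / 5) ^ 2
        ≤ ∑ i, (w i + 2 / 5 * (τ i * w i) + 65 / 400 * τ i ^ 2) :=
          Finset.sum_le_sum (fun i _ => hterm i)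
      _ = ∑ i, w i + 2 / 5 * ∑ i, τ i * w i + 65 / 400 * ∑ i, τ i ^ 2 := by
          rw [Finset.sum_add_distrib, Finset.sum_add_distrib, Finset.mul_sum, Finset.mul_sum]
      _ ≤ ((d : ℝ) - 100 / 101) + 65 / 400 := by
          have : ∑ i, τ i * w i ≤ 0 := by
            rw [hw]; exact hsign
          rw [hsumw, hτ2]
          linarith
  rw [htrace, hMdet, Real.log_mul (by norm_num) hdetpos.ne'] at hle
  have hlog : Real.log (1 / 101) = - Real.log 101 := by
    rw [one_div, Real.log_inv]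
  rw [hlog] at hle
  linarith

end Pool.LH73
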