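import Pool.Agent.Work.MP_1c7b0d_lh73.Interface

/-! Block FIN2 (helper73): the exact local step. -/

open MeasureTheory Matrix Pool.LH60
open scoped BigOperators

namespace Pool.LH73

namespace FIN2

theorem log_sub_le {x y : ℝ} (hx : 100 ≤ x) (hy : 100 ≤ y) :
    Real.log (1 - 1/x) - Real.log (1 - 1/y) ≤ 100/99 * (|x - y| / (x * y)) := by
  have hx0 : 0 < x := by linarith
  have hy0 : 0 < y := by linarith
  have h1x : 1/x ≤ 1/100 := one_div_le_one_div_of_le (by norm_num) hx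
  have h1y : 1/y ≤ 1/100 := one_div_le_one_div_of_le (by norm_num) hy
  have hA : 0 < 1 - 1/x := by linarith
  have hB : 0 < 1 - 1/y := by linarith
  have h1 : Real.log (1 - 1/x) - Real.log (1 - 1/y) ≤ (1 - 1/x) / (1 - 1/y) - 1 := by
    rw [← Real.log_div hA.ne' hB.ne']
    exact Real.log_le_sub_one_of_pos (div_pos hA hB)
  have h2 : (1 - 1/x) / (1 - 1/y) - 1 = (x - y) / (x * y) * (1 / (1 - 1/y)) := by
    have hB' : 1 - 1/y ≠ 0 := hB.ne'
    have : y - 1 ≠ 0 := by
      intro h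
      linarith
    field_simp
    ring
  have h3 : 1 / (1 - 1/y) ≤ 100/99 := by
    rw [div_le_iff₀ hB]
    linarith
  have h4 : (x - y) / (x * y) ≤ |x - y| / (x * y) :=
    div_le_div_of_nonneg_right (le_abs_self _) (mul_pos hx0 hy0).le
  have h5 : 0 ≤ |x - y| / (x * y) := div_nonneg (abs_nonneg _) (mul_pos hx0 hy0).le
  have h6 : 0 ≤ 1 / (1 - 1/y) := by positivity
  calc Real.log (1 - 1/x) - Real.log (1 - 1/y) ≤ (x - y) / (x * y) * (1 / (1 - 1/y)) := by
        rw [← h2]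
        exact h1
    _ ≤ |x - y| / (x * y) * (1 / (1 - 1/y)) := mul_le_mul_of_nonneg_right h4 h6
    _ ≤ |x - y| / (x * y) * (100/99) := mul_le_mul_of_nonneg_left h3 h5
    _ = 100/99 * (|x - y| / (x * y)) := mul_comm _ _

theorem abs_log_sub_le {x y : ℝ} (hx : 100 ≤ x) (hy : 100 ≤ y) :
    |Real.log (1 - 1/x) - Real.log (1 - 1/y)| ≤ 100/99 * (|x - y| / (x * y)) := by
  rw [abs_le]
  constructor
  · have := log_sub_le hy hx
    rw [abs_sub_comm, mul_comm y x] at this
    linarith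
  · exact log_sub_le hx hy

end FIN2

open FIN2 in
theorem FIN2_thm (hFIN1 : Stmt_FIN1) (hCLU2 : Stmt_CLU2) (hCLU3 : Stmt_CLU3) (hCLU4 : Stmt_CLU4)
    (hCLU5 : Stmt_CLU5) (hSZ : Stmt_SZ) (hALD : Stmt_ALD) (hGM3 : Stmt_GM3)
    (hMAINB2 : Stmt_MAINB2) (hDETC : Stmt_DETC) (hSVM : Stmt_SVM) (hDEF1 : Stmt_DEF1) :
    Stmt_FIN2 := by
  intro d K U Φ hK hdK hU hF hvol
  obtain ⟨V, hV, hVvol, hVtop, hcut, hc10, hD100, hsq, hCH⟩ := hFIN1 d K U Φ hK hdK hU hF hvol
  set m : ℝ := ((d:ℝ) + K) / K with hm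
  have hK0 : (0:ℝ) < K := by exact_mod_cast hK
  have hK1 : (1:ℝ) ≤ K := by exact_mod_cast hK
  have hd1 : 1 ≤ d := by
    have : 1 ≤ 10^9 * K^2 := Nat.one_le_iff_ne_zero.mpr (by positivity)
    omega
  have hdR : (10:ℝ)^9 * K^2 ≤ d := by exact_mod_cast hdK
  have hmK : (10:ℝ)^9 * K ≤ m := by
    rw [hm, le_div_iff₀ hK0]
    nlinarith
  have hm0 : 0 < m := by nlinarith
  have hm9 : (10:ℝ)^9 ≤ m := by nlinarith
  obtain ⟨L, a, hClus⟩ := hCLU2 (Ix d K) K Φ m hCH
  have hL : L = K := hCLU4 (Ix d K) K L Φ m a hCH hClus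
  subst hL
  obtain ⟨hszs, -, hEps⟩ := hCLU3 (Ix d L) L L Φ m a hCH hClus
  have hPhi : Φᵀ * Φ = 1 := hCH.2.1
  obtain ⟨hC0, -, hC2⟩ := hCLU5 (Ix d L) L Φ a hPhi hClus.1
  have hSZ' := hSZ (Ix d L) L Φ m a hCH hClus hsq
  have hD0 : 0 ≤ Dfc Φ := (hDEF1 (Ix d L) L Φ hPhi).2.2.2.2.2
  have hE0 : 0 ≤ Eps Φ a := by
    unfold Eps
    exact Finset.sum_nonneg fun i _ => Finset.sum_nonneg fun k _ => sq_nonneg _
  -- sizes
  have hs100 : ∀ b, (100:ℝ) ≤ msz a b := fun b => by
    have := (hszs b).1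
    linarith
  have hs2 : ∀ b, 2 ≤ msz a b := fun b => by
    have := hs100 b
    have h2 : (2:ℝ) ≤ msz a b := by linarith
    exact_mod_cast h2
  have hsumsz : ∑ b, (msz a b : ℝ) = (d:ℝ) + L := by
    have h1 : ∑ b, msz a b = Fintype.card (Ix d L) := by
      unfold msz fib
      rw [← Finset.card_univ]
      exact (Finset.card_eq_sum_card_fiberwise (fun x _ => Finset.mem_coe.mpr (Finset.mem_univ _))).symm
    have h2 : Fintype.card (Ix d L) = d + L := by simp
    rw [h2] at h1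
    exact_mod_cast h1
  -- tangents
  obtain ⟨p0, hp0⟩ := hGM3 m hm0
  have hpt : ∀ b, ∃ p, Tang (msz a b) p := fun b => hGM3 _ (by have := hs100 b; linarith)
  choose pt hpt using hpt
  set Λ : ℝ := Real.sqrt L / m^2 with hΛ
  have hsq1 : 1 ≤ Real.sqrt L := by
    rw [Real.one_le_sqrt]
    exact hK1
  have hsq0 : 0 ≤ Real.sqrt L := Real.sqrt_nonneg _
  have hsqL : Real.sqrt L ≤ L := by
    rw [Real.sqrt_le_left (by linarith)]
    nlinarith
  have hsqm : 10^9 * Real.sqrt L ≤ m := by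
    linarith
  have hΛ0 : 0 ≤ Λ := by positivity
  have hal : ∀ b, |al (msz a b) (pt b) - al m p0| ≤ Λ := by
    intro b
    have hx0 : (0:ℝ) < msz a b := by have := hs100 b; linarith
    have h1 := hALD m (msz a b) p0 (pt b) hm0 hx0 hp0 (hpt b)
    refine h1.trans ?_
    have hab := hSZ' b
    have hlo := (hszs b).1
    have hinv : 1 / (msz a b : ℝ) ≤ 1.04 / m := by
      rw [div_le_div_iff₀ hx0 hm0]
      nlinarith
    have hsqd : ((msz a b : ℝ) - m)^2 ≤ 16 * L := by
      have h3 : ((msz a b : ℝ) - m)^2 = |(msz a b : ℝ) - m|^2 := (sq_abs _).symm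
      rw [h3]
      have h4 : |(msz a b : ℝ) - m|^2 ≤ (4 * Real.sqrt (L:ℝ))^2 :=
        pow_le_pow_left₀ (abs_nonneg _) hab 2
      rw [mul_pow, Real.sq_sqrt hK0.le] at h4
      linarith
    have hA : ((msz a b : ℝ) - m)^2 / (12 * msz a b * m^2) ≤ 0.01 * (Real.sqrt L / m^2) := by
      rw [div_le_iff₀ (by positivity)]
      have h5 : 0.01 * (Real.sqrt L / m^2) * (12 * msz a b * m^2) = 0.12 * Real.sqrt L * msz a b := by
        field_simp
        ring
      rw [h5]
      have h6 : 16 * (L:ℝ) ≤ 0.12 * Real.sqrt L * (0.97 * m) := by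
        have h7 : (L:ℝ) = Real.sqrt L * Real.sqrt L := (Real.mul_self_sqrt hK0.le).symm
        have h8 : Real.sqrt L * (10^9 * Real.sqrt L) ≤ Real.sqrt L * m :=
          mul_le_mul_of_nonneg_left hsqm hsq0
        nlinarith
      have h9 : 0.12 * Real.sqrt L * (0.97 * m) ≤ 0.12 * Real.sqrt L * msz a b :=
        mul_le_mul_of_nonneg_left (by linarith) (by positivity)
      linarith
    have hB : |(msz a b : ℝ) - m| / (12 * m) * (1 / (msz a b : ℝ) + 1 / m)
        ≤ 0.7 * (Real.sqrt L / m^2) := by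
      have h5 : 1 / (msz a b : ℝ) + 1 / m ≤ 2.04 / m := by
        have : 2.04 / m = 1.04 / m + 1 / m := by ring
        linarith
      calc |(msz a b : ℝ) - m| / (12 * m) * (1 / (msz a b : ℝ) + 1 / m)
          ≤ (4 * Real.sqrt L) / (12 * m) * (2.04 / m) := by
            apply mul_le_mul
            · exact div_le_div_of_nonneg_right hab (by positivity)
            · exact h5
            · positivity
            · positivity
        _ = 0.68 * (Real.sqrt L / m^2) := by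
            field_simp
            ring
        _ ≤ 0.7 * (Real.sqrt L / m^2) := by
            apply mul_le_mul_of_nonneg_right (by norm_num)
            positivity
    have : (0.01:ℝ) * (Real.sqrt L / m^2) + 0.7 * (Real.sqrt L / m^2) ≤ Real.sqrt L / m^2 := by
      have h0 : 0 ≤ Real.sqrt L / m^2 := by positivity
      linarith
    linarith
  have hΛ256 : Λ ≤ 1/256 := by
    rw [hΛ, div_le_iff₀ (by positivity)]
    nlinarith
  have hB2 := hMAINB2 d L V Φ hd1 hK hV hc10 hcut hD100 hVtop a pt (al m p0) Λ hClus.1 hpt hal hΛ256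
  refine ⟨a, hClus.1, hs2, ?_, ?_⟩
  · intro i j hij h0
    have := (hClus.2 i j).1 hij
    rw [h0, mul_zero] at this
    norm_num at this
  -- the determinant
  have hdet : 0 < (Uᵀ * U).det := by
    by_contra hcon
    have h1 : Real.sqrt (Uᵀ * U).det = 0 := Real.sqrt_eq_zero_of_nonpos (not_lt.mp hcon)
    rw [h1, ENNReal.ofReal_zero, zero_mul] at hVvol
    rw [hVvol] at hB2
    have := ENNReal.ofReal_pos.mpr (Real.exp_pos (((d:ℝ) + L) - (L:ℝ) / 2 * Real.log (2 * Real.pi)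
      - ∑ b, mu (msz a b) - (∑ i, (cn Φ i - 1 / (msz a (a i) : ℝ))^2) / 5
      - 4 * Λ * Eps Φ a + Dfc Φ / 165000))
    exact absurd hB2 (not_le.mpr this)
  have hDC := hDETC d L U Φ a hK hU hF hs2
  set X : ℝ := ((d:ℝ) + L) - (L:ℝ) / 2 * Real.log (2 * Real.pi)
      - ∑ b, mu (msz a b) - (∑ i, (cn Φ i - 1 / (msz a (a i) : ℝ))^2) / 5
      - 4 * Λ * Eps Φ a + Dfc Φ / 165000 with hX
  have hstep : ENNReal.ofReal (Real.exp (X - Real.log (Uᵀ * U).det / 2)) ≤ volume (Pol U) := by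
    have h1 : ENNReal.ofReal (Real.exp X) =
        ENNReal.ofReal (Real.sqrt (Uᵀ * U).det) *
          ENNReal.ofReal (Real.exp (X - Real.log (Uᵀ * U).det / 2)) := by
      rw [← ENNReal.ofReal_mul (Real.sqrt_nonneg _)]
      congr 1
      have h2 : Real.sqrt (Uᵀ * U).det = Real.exp (Real.log (Uᵀ * U).det / 2) := by
        rw [← Real.exp_log (Real.sqrt_pos.mpr hdet), Real.log_sqrt hdet.le]
      rw [h2, ← Real.exp_add]
      congr 1
      ring
    rw [h1, hVvol] at hB2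
    exact (ENNReal.mul_le_mul_iff_right
      (by simpa using hdet)
      ENNReal.ofReal_ne_top).mp hB2
  refine le_trans (ENNReal.ofReal_le_ofReal (Real.exp_le_exp.mpr ?_)) hstep
  -- the real inequality
  have hsvm : ∑ b, Real.log (Pool.Agent.Work.MP_1c7b0d_gt.sv (msz a b - 1)) =
      (∑ b, ((msz a b : ℝ) - 1) * Real.log (1 - 1/(msz a b : ℝ))) / 2 + ((d:ℝ) + L)
        - (L:ℝ) / 2 * Real.log (2 * Real.pi) - ∑ b, mu (msz a b) := by
    have h1 : ∀ b ∈ (Finset.univ : Finset (Fin L)),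
        Real.log (Pool.Agent.Work.MP_1c7b0d_gt.sv (msz a b - 1)) =
        ((msz a b : ℝ) - 1) * Real.log (1 - 1/(msz a b : ℝ)) / 2 + (msz a b : ℝ)
          - Real.log (2 * Real.pi) / 2 - mu (msz a b) := by
      intro b _
      rw [(hSVM (msz a b) (hs2 b)).2]
      ring
    rw [Finset.sum_congr rfl h1, Finset.sum_sub_distrib, Finset.sum_sub_distrib,
      Finset.sum_add_distrib, hsumsz, ← Finset.sum_div, Finset.sum_const, Finset.card_univ,
      Fintype.card_fin, nsmul_eq_mul]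
    ring
  set Q : ℝ := ∑ i, (cn Φ i - 1 / (msz a (a i) : ℝ))^2 with hQ
  have hQ0 : 0 ≤ Q := Finset.sum_nonneg fun i _ => sq_nonneg _
  have hlogsum : ∑ b, Real.log (1 - 1/(msz a b : ℝ)) * (Cc Φ a b - 1) ≤
      5 * Λ * (2 * Eps Φ a) := by
    have h1 : ∑ b, Real.log (1 - 1/(msz a b : ℝ)) * (Cc Φ a b - 1) =
        ∑ b, (Real.log (1 - 1/(msz a b : ℝ)) - Real.log (1 - 1/m)) * (Cc Φ a b - 1) := by
      have h2 : ∑ b, (Real.log (1 - 1/(msz a b : ℝ)) - Real.log (1 - 1/m)) * (Cc Φ a b - 1) =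
          ∑ b, Real.log (1 - 1/(msz a b : ℝ)) * (Cc Φ a b - 1)
            - Real.log (1 - 1/m) * ∑ b, (Cc Φ a b - 1) := by
        rw [Finset.mul_sum, ← Finset.sum_sub_distrib]
        exact Finset.sum_congr rfl fun b _ => by ring
      rw [h2, hC0, mul_zero, sub_zero]
    rw [h1]
    calc ∑ b, (Real.log (1 - 1/(msz a b : ℝ)) - Real.log (1 - 1/m)) * (Cc Φ a b - 1)
        ≤ ∑ b, 5 * Λ * |Cc Φ a b - 1| := by
          refine Finset.sum_le_sum fun b _ => ?_
          have h3 := abs_log_sub_le (hs100 b) (by linarith : (100:ℝ) ≤ m)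
          have hx0 : (0:ℝ) < msz a b := by have := hs100 b; linarith
          have h4 : 100/99 * (|(msz a b : ℝ) - m| / (msz a b * m)) ≤ 5 * Λ := by
            have h5 : |(msz a b : ℝ) - m| / (msz a b * m) ≤ (4 * Real.sqrt L) / (0.97 * m * m) := by
              apply div_le_div₀ (by positivity) (hSZ' b) (by positivity)
              have := (hszs b).1
              nlinarith
            have h6 : (4 * Real.sqrt L) / (0.97 * m * m) = 4/0.97 * Λ := by
              rw [hΛ]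
              field_simp
            rw [h6] at h5
            nlinarith
          calc (Real.log (1 - 1/(msz a b : ℝ)) - Real.log (1 - 1/m)) * (Cc Φ a b - 1)
              ≤ |(Real.log (1 - 1/(msz a b : ℝ)) - Real.log (1 - 1/m)) * (Cc Φ a b - 1)| :=
                le_abs_self _
            _ = |Real.log (1 - 1/(msz a b : ℝ)) - Real.log (1 - 1/m)| * |Cc Φ a b - 1| :=
                abs_mul _ _
            _ ≤ 5 * Λ * |Cc Φ a b - 1| :=
                mul_le_mul_of_nonneg_right (h3.trans h4) (abs_nonneg _)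
      _ = 5 * Λ * ∑ b, |Cc Φ a b - 1| := by rw [Finset.mul_sum]
      _ ≤ 5 * Λ * (2 * Eps Φ a) := mul_le_mul_of_nonneg_left hC2 (by positivity)
  have hEpsD : 9 * Λ * Eps Φ a ≤ Dfc Φ / 330000 := by
    have h1 : 9 * Λ * Eps Φ a ≤ 9 * Λ * (11/10 * m * Dfc Φ) :=
      mul_le_mul_of_nonneg_left hEps (by positivity)
    have h2 : 9 * Λ * (11/10 * m * Dfc Φ) = 9.9 * (Real.sqrt L / m) * Dfc Φ := by
      rw [hΛ]
      field_simp
      ring
    have h3 : 9.9 * (Real.sqrt L / m) ≤ 1/330000 := by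
      have h4 : Real.sqrt L / m ≤ 1/10^9 := by
        rw [div_le_iff₀ hm0]
        linarith
      nlinarith
    have h4 : 9.9 * (Real.sqrt L / m) * Dfc Φ ≤ 1/330000 * Dfc Φ :=
      mul_le_mul_of_nonneg_right h3 hD0
    linarith
  rw [hsvm]
  have h165 : Dfc Φ / 165000 = 2 * (Dfc Φ / 330000) := by ring
  rw [hX, h165]
  linarith

end Pool.LH73
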