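import Pool.Agent.Work.MP_1c7b0d_lh60.Interface

/-!
L'huilier's problem for `n = d + K` facets, `K` not dividing `d`, `d ≥ 10^9 K²`: the product of `K`
regular simplices of dimensions `⌊d/K⌋`, `⌈d/K⌉` is the unique optimum (row MP_1c7b0d_gt), helper73.
All proofs: `BLUEPRINT.md` in this folder. Continues `MP_1c7b0d_lh60/Interface.lean` (helper60).
Block `X` proves `theorem X_thm (dependencies as hypotheses) : Stmt_X` in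
`Pool/Agent/Work/MP_1c7b0d_lh73/X.lean`, namespace `Pool.LH73`.
-/

open MeasureTheory Matrix Pool.LH60
open scoped BigOperators

namespace Pool.LH73

section generic
variable {ι : Type} [Fintype ι] [DecidableEq ι] {K L : ℕ}

/-- `p_ij = ⟨φ_i, φ_j⟩`, `φ_i` = row `i` of `Φ` -/
def pp (Φ : Matrix ι (Fin K) ℝ) (i j : ι) : ℝ := ∑ k, Φ i k * Φ j k

/-- the defect `D = ∑ c_i² - ∑ p_ij³` -/
def Dfc (Φ : Matrix ι (Fin K) ℝ) : ℝ := ∑ i, (cn Φ i)^2 - ∑ i, ∑ j, (pp Φ i j)^3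

/-- the class of the label `b` -/
def fib (a : ι → Fin L) (b : Fin L) : Finset ι := Finset.univ.filter (fun i => a i = b)

/-- the size of the class `b` -/
def msz (a : ι → Fin L) (b : Fin L) : ℕ := (fib a b).card

/-- the mean of the `φ_i` over the class `b` -/
noncomputable def vbar (Φ : Matrix ι (Fin K) ℝ) (a : ι → Fin L) (b : Fin L) (k : Fin K) : ℝ :=
  (∑ i ∈ fib a b, Φ i k) / (msz a b : ℝ)

/-- the scatter `∑_i |φ_i - v_{a(i)}|²` -/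
noncomputable def Eps (Φ : Matrix ι (Fin K) ℝ) (a : ι → Fin L) : ℝ :=
  ∑ i, ∑ k, (Φ i k - vbar Φ a (a i) k)^2

/-- `C_b = ∑_{i in class b} c_i` -/
def Cc (Φ : Matrix ι (Fin K) ℝ) (a : ι → Fin L) (b : Fin L) : ℝ := ∑ i ∈ fib a b, cn Φ i

/-- `p_ij ≥ 0.97/m` inside the classes, `|p_ij| ≤ 0.25/m` across -/
def Clus (Φ : Matrix ι (Fin K) ℝ) (m : ℝ) (a : ι → Fin L) : Prop :=
  Function.Surjective a ∧ ∀ i j, (a i = a j → 97/100 ≤ m * pp Φ i j) ∧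
    (a i ≠ a j → |m * pp Φ i j| ≤ 1/4)

/-- the hypotheses of the cluster lemmas (`m = n/K`) -/
def CHyp (Φ : Matrix ι (Fin K) ℝ) (m : ℝ) : Prop :=
  1 ≤ K ∧ Φᵀ * Φ = 1 ∧ 100 ≤ m ∧ m * K = Fintype.card ι ∧ (∀ i, |m * cn Φ i - 1| ≤ 1/100) ∧
    m^2 * Dfc Φ ≤ 1/4000

end generic

/-- squared Hilbert-Schmidt norm -/
def hs {K : ℕ} (M : Matrix (Fin K) (Fin K) ℝ) : ℝ := ∑ a, ∑ b, (M a b)^2

/-- spectral data: `D = Q diag(e) Qᵀ`, `Q` orthogonal, `e > 0` -/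
structure EigD {K : ℕ} (D : Matrix (Fin K) (Fin K) ℝ) (e : Fin K → ℝ)
    (Q : Matrix (Fin K) (Fin K) ℝ) : Prop where
  orth : Qᵀ * Q = 1
  eq : D = Q * Matrix.diagonal e * Qᵀ
  pos : ∀ k, 0 < e k

/-- the loss -/
noncomputable def lam (e : ℝ) : ℝ := min ((e - 1)^2) 1 / 16

noncomputable def Ac5 (m p c : ℝ) : ℝ := c / 2 + p + (c - 1/m)^2 / 5

/-- `n - (K/2) log 2π - K mu(n/K)`, `n = d + K` -/
noncomputable def Nd (d K : ℕ) : ℝ :=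
  ((d:ℝ) + K) - (K:ℝ) / 2 * Real.log (2 * Real.pi) - K * mu (((d:ℝ) + K) / K)

/-- isotropic frame -/
def IsoFrame {d K : ℕ} (V : Matrix (Ix d K) (Fin d) ℝ) (Φ : Matrix (Ix d K) (Fin K) ℝ) : Prop :=
  Vᵀ * V = 1 ∧ Φᵀ * Φ = 1 ∧ Φᵀ * V = 0

/-- the integrand of `Stmt_CVT` -/
noncomputable def Ing {d K : ℕ} (U : Matrix (Ix d K) (Fin d) ℝ) (Φ : Matrix (Ix d K) (Fin K) ℝ)
    (b : Ix d K → ℝ) (x : Fin d → ℝ) : ENNReal :=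
  ENNReal.ofReal (Real.sqrt (Uᵀ * U).det * (Dm Φ (yv U x)).det) *
    (∫⁻ f : Fin K → ℝ,
      ENNReal.ofReal (Real.exp (∑ i, (sl Φ b f i - yv U x i * Real.exp (sl Φ b f i)))))

/-- the cut property: in every direction 1/50 of the volume is at distance at least 1/10 -/
def CutP {d K : ℕ} (V : Matrix (Ix d K) (Fin d) ℝ) : Prop :=
  ∀ ω : Fin d → ℝ, ∑ a, ω a ^ 2 = 1 →
    volume (Pol V) ≤ 50 * volume {x | x ∈ Pol V ∧ 1/10 ≤ |∑ a, ω a * x a|}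

/-- value of the product of `K` regular simplices of dimensions `⌊d/K⌋`, `⌊d/K⌋ + 1` -/
noncomputable def Vne (d K : ℕ) : ℝ :=
  Pool.Agent.Work.MP_1c7b0d_gt.sv (d / K) ^ (K - d % K) *
    Pool.Agent.Work.MP_1c7b0d_gt.sv (d / K + 1) ^ (d % K)

/-! ### Scalar blocks -/

def Stmt_SCA5 : Prop := ∀ m p : ℝ, 1 ≤ m → Tang m p → ∀ c e : ℝ, 0 < c → c ≤ 1 → 0 < e →
  Real.log e / 2 + mu (e / c) ≤ al m p + Ac5 m p c / c * e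

def Stmt_SCAL : Prop := ∀ m p : ℝ, 1 ≤ m → Tang m p → ∀ c e : ℝ, 0 < c → c ≤ 1/10 → 0 < e →
  Real.log e / 2 + mu (e / c) + lam e ≤ al m p + Ac5 m p c / c * e

/-- the constants of two tangents -/
def Stmt_ALD : Prop := ∀ m m' p p' : ℝ, 0 < m → 0 < m' → Tang m p → Tang m' p' →
  |al m' p' - al m p| ≤ (m' - m)^2 / (12 * m' * m^2) + |m' - m| / (12 * m) * (1/m' + 1/m)

/-- `log sv(j-1)` in terms of `mu` -/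
def Stmt_SVM : Prop := ∀ j : ℕ, 2 ≤ j →
  0 < Pool.Agent.Work.MP_1c7b0d_gt.sv (j - 1) ∧
  Real.log (Pool.Agent.Work.MP_1c7b0d_gt.sv (j - 1)) =
    ((j:ℝ) - 1) / 2 * Real.log (1 - 1/(j:ℝ)) + j - Real.log (2 * Real.pi) / 2 - mu j

/-- `log sv` is strictly convex on the positive integers -/
def Stmt_SVC : Prop := ∀ q : ℕ, 1 ≤ q →
  2 * Real.log (Pool.Agent.Work.MP_1c7b0d_gt.sv (q + 1)) <
    Real.log (Pool.Agent.Work.MP_1c7b0d_gt.sv q) +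
      Real.log (Pool.Agent.Work.MP_1c7b0d_gt.sv (q + 2))

/-- near equal sizes are optimal -/
def Stmt_NEQ : Prop := ∀ (d K : ℕ), 1 ≤ K → K ≤ d → ∀ s : Fin K → ℕ, (∀ b, 2 ≤ s b) →
  ∑ b, s b = d + K →
  Real.log (Vne d K) ≤ ∑ b, Real.log (Pool.Agent.Work.MP_1c7b0d_gt.sv (s b - 1)) ∧
  (Real.log (Vne d K) = ∑ b, Real.log (Pool.Agent.Work.MP_1c7b0d_gt.sv (s b - 1)) →
    ∀ b, s b = d / K + 1 ∨ s b = d / K + 2)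

/-- the excess of `Vne` over the bound `Vopt` -/
def Stmt_EPZ : Prop := ∀ (d K : ℕ), 1 ≤ K → 10 * K ≤ d → 0 < Vne d K ∧
  Real.log (Vne d K) ≤ Nd d K + (d:ℝ) / 2 * Real.log ((d:ℝ) / ((d:ℝ) + K))
    + (K:ℝ) / (2 * (((d:ℝ) + K) / K)^3)

/-! ### Volume blocks -/

/-- the bound for arbitrary (non-unit) rows -/
def Stmt_MAINA : Prop := ∀ (d K : ℕ) (U : Matrix (Ix d K) (Fin d) ℝ)
  (Φ : Matrix (Ix d K) (Fin K) ℝ), 1 ≤ d → 1 ≤ K → IsFrame U Φ →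
  ENNReal.ofReal (Real.exp (Nd d K - Real.log (Uᵀ * U).det / 2
    - (∑ i, (cn Φ i - K / ((d:ℝ) + K))^2) / 5)) ≤ volume (Pol U)

/-- passage to the isotropic position -/
def Stmt_ISOT : Prop := ∀ (d K : ℕ) (U : Matrix (Ix d K) (Fin d) ℝ)
  (Φ : Matrix (Ix d K) (Fin K) ℝ), IsFrame U Φ →
  ∃ V : Matrix (Ix d K) (Fin d) ℝ, IsoFrame V Φ ∧ V * Vᵀ = U * (Uᵀ * U)⁻¹ * Uᵀ ∧
    volume (Pol V) = ENNReal.ofReal (Real.sqrt (Uᵀ * U).det) * volume (Pol U)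

/-- `τ_i = ⟨v_i, ω⟩` -/
def tau {d K : ℕ} (V : Matrix (Ix d K) (Fin d) ℝ) (ω : Fin d → ℝ) (i : Ix d K) : ℝ :=
  ∑ a, V i a * ω a

/-- the cut polytope `P ∩ {⟨ω,x⟩ ≥ 1/10}` recentred at `ω/5` -/
noncomputable def cutU {d K : ℕ} (V : Matrix (Ix d K) (Fin d) ℝ) (ω : Fin d → ℝ) :
    Matrix (Ix d (K+1)) (Fin d) ℝ :=
  fun i => Sum.elim (fun a => fun b => V (Sum.inl a) b / (1 - tau V ω (Sum.inl a) / 5))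
    (fun k => Fin.lastCases (motive := fun _ => Fin d → ℝ) (fun b => -10 * ω b)
      (fun k' => fun b => V (Sum.inr k') b / (1 - tau V ω (Sum.inr k') / 5)) k) i

/-- the old facets among the new ones -/
def emb {d K : ℕ} (i : Ix d K) : Ix d (K+1) := Sum.map id Fin.castSucc i

def Stmt_CUTD : Prop := ∀ (d K : ℕ) (V : Matrix (Ix d K) (Fin d) ℝ), 1 ≤ d → Vᵀ * V = 1 →
  ∀ ω : Fin d → ℝ, ∑ a, ω a ^ 2 = 1 →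
  ∑ i, tau V ω i * ((∑ a, V i a ^ 2) - 100/101 * tau V ω i ^ 2) ≤ 0 →
  ((cutU V ω)ᵀ * cutU V ω).PosDef ∧
  Real.log ((cutU V ω)ᵀ * cutU V ω).det ≤ Real.log 101 + 13/80

def Stmt_CUTC : Prop := ∀ (d K : ℕ) (V : Matrix (Ix d K) (Fin d) ℝ)
  (Φ : Matrix (Ix d K) (Fin K) ℝ) (Ψ : Matrix (Ix d (K+1)) (Fin (K+1)) ℝ),
  IsoFrame V Φ → ∀ ω : Fin d → ℝ, ∑ a, ω a ^ 2 = 1 → IsFrame (cutU V ω) Ψ →
  (∀ i, cn Ψ (emb i) ≤ 9/4 * (cn Φ i + tau V ω i ^ 2)) ∧ cn Ψ (Sum.inr (Fin.last K)) ≤ 1/65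

def Stmt_CUT : Prop := ∀ (d K : ℕ) (V : Matrix (Ix d K) (Fin d) ℝ)
  (Φ : Matrix (Ix d K) (Fin K) ℝ), 1 ≤ d → 1 ≤ K → IsoFrame V Φ → (∀ i, cn Φ i ≤ 1/10) →
  ∑ i, (cn Φ i)^2 ≤ 1/10 → ((K:ℝ) + 1)^2 ≤ ((d:ℝ) + K + 1) / 10 →
  volume (Pol V) ≤ ENNReal.ofReal (Real.exp (Nd d K + 1/10)) → CutP V

/-! ### The defect -/

def Stmt_DEF1 : Prop := ∀ (ι : Type) [Fintype ι] [DecidableEq ι] (K : ℕ)
  (Φ : Matrix ι (Fin K) ℝ), Φᵀ * Φ = 1 →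
  (∀ i, ∑ j, (pp Φ i j)^2 = cn Φ i) ∧ (∑ i, cn Φ i = K) ∧ (∀ i, 0 ≤ cn Φ i ∧ cn Φ i ≤ 1) ∧
  (∀ i j, cn Φ i + cn Φ j - 2 * pp Φ i j = ∑ k, (Φ i k - Φ j k)^2) ∧
  Dfc Φ = (∑ i, ∑ j, (pp Φ i j)^2 * (cn Φ i + cn Φ j - 2 * pp Φ i j)) / 2 ∧ 0 ≤ Dfc Φ

def Stmt_DEF2 : Prop := ∀ (d K : ℕ) (V : Matrix (Ix d K) (Fin d) ℝ)
  (Φ : Matrix (Ix d K) (Fin K) ℝ), IsoFrame V Φ →
  Dfc Φ = ∑ a, ∑ b, ∑ k, (∑ i, Φ i a * Φ i b * V i k)^2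

/-- from the pointwise bound with loss to the gain `D/165000` -/
def Stmt_GAIN : Prop := ∀ (d K : ℕ) (V : Matrix (Ix d K) (Fin d) ℝ)
  (Φ : Matrix (Ix d K) (Fin K) ℝ) (b : Ix d K → ℝ) (C : ℝ), 1 ≤ d → 1 ≤ K → IsoFrame V Φ →
  CutP V → Dfc Φ ≤ 100 → volume (Pol V) ≠ ⊤ →
  (∀ x ∈ Pol V, Ing V Φ b x ≤
    ENNReal.ofReal (Real.exp (C - min (hs (Dm Φ (yv V x) - 1)) 1 / 32))) →
  ENNReal.ofReal (Real.exp (-C + Dfc Φ / 165000)) ≤ volume (Pol V)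

/-! ### Spectral blocks -/

def Stmt_EIGX : Prop := ∀ (K : ℕ) (D : Matrix (Fin K) (Fin K) ℝ), D.PosDef → ∃ e Q, EigD D e Q

def Stmt_HSL : Prop := ∀ (K : ℕ) (D : Matrix (Fin K) (Fin K) ℝ) (e : Fin K → ℝ)
  (Q : Matrix (Fin K) (Fin K) ℝ), EigD D e Q → min (hs (D - 1)) 1 / 16 ≤ ∑ k, lam (e k)

def Stmt_SPECL : Prop := ∀ (ι : Type) [Fintype ι] [DecidableEq ι] (K : ℕ)
  (Φ : Matrix ι (Fin K) ℝ) (y A α : ι → ℝ) (e : Fin K → ℝ) (Q : Matrix (Fin K) (Fin K) ℝ),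
  (∀ i, 0 < y i) → EigD (Dm Φ y) e Q →
  (∀ i, cn Φ i = 0 → 0 ≤ A i) →
  (∀ i, 0 < cn Φ i → ∀ t : ℝ, 0 < t →
    Real.log t / 2 + mu (t / cn Φ i) + lam t ≤ α i + A i / cn Φ i * t) →
  Real.log (Dm Φ y).det / 2 + ∑ i, y i * g (qf Φ (Dm Φ y)⁻¹ i) + ∑ k, lam (e k) ≤
    ∑ i, α i * (y i * qf Φ (Dm Φ y)⁻¹ i) + ∑ i, A i * y i

/-- the clusters: `∑ α_{a(i)} y_i r_i` against `∑_b α_b` -/
def Stmt_RCL : Prop := ∀ (ι : Type) [Fintype ι] [DecidableEq ι] (K : ℕ)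
  (Φ : Matrix ι (Fin K) ℝ) (y : ι → ℝ) (e : Fin K → ℝ) (Q : Matrix (Fin K) (Fin K) ℝ)
  (a : ι → Fin K) (v : Fin K → Fin K → ℝ) (α : Fin K → ℝ) (α0 Λ : ℝ),
  (∀ i, 0 < y i) → EigD (Dm Φ y) e Q → (∀ b, |α b - α0| ≤ Λ) → 0 ≤ Λ →
  ∑ i, α (a i) * (y i * qf Φ (Dm Φ y)⁻¹ i) ≤
    ∑ b, α b + 4 * Λ * ∑ i, y i * ∑ k, (Φ i k - v (a i) k)^2 + 128 * Λ * ∑ k, lam (e k)

/-- `∑ y_i r_i = K` -/
def Stmt_TRK : Prop := ∀ (ι : Type) [Fintype ι] [DecidableEq ι] (K : ℕ)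
  (Φ : Matrix ι (Fin K) ℝ) (y : ι → ℝ), (Dm Φ y).PosDef →
  ∑ i, y i * qf Φ (Dm Φ y)⁻¹ i = K

/-! ### The two bounds with gain -/

/-- uniform tangent point `n/K` -/
def Stmt_MAINB1 : Prop := ∀ (d K : ℕ) (V : Matrix (Ix d K) (Fin d) ℝ)
  (Φ : Matrix (Ix d K) (Fin K) ℝ), 1 ≤ d → 1 ≤ K → IsoFrame V Φ → (∀ i, cn Φ i ≤ 1/10) →
  CutP V → Dfc Φ ≤ 100 → volume (Pol V) ≠ ⊤ →
  ENNReal.ofReal (Real.exp (Nd d K - (∑ i, (cn Φ i - K / ((d:ℝ) + K))^2) / 5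
    + Dfc Φ / 165000)) ≤ volume (Pol V)

/-- tangent points = class sizes -/
def Stmt_MAINB2 : Prop := ∀ (d K : ℕ) (V : Matrix (Ix d K) (Fin d) ℝ)
  (Φ : Matrix (Ix d K) (Fin K) ℝ), 1 ≤ d → 1 ≤ K → IsoFrame V Φ → (∀ i, cn Φ i ≤ 1/10) →
  CutP V → Dfc Φ ≤ 100 → volume (Pol V) ≠ ⊤ →
  ∀ (a : Ix d K → Fin K) (pt : Fin K → ℝ) (α0 Λ : ℝ), Function.Surjective a →
  (∀ b, Tang (msz a b) (pt b)) → (∀ b, |al (msz a b) (pt b) - α0| ≤ Λ) → Λ ≤ 1/256 →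
  ENNReal.ofReal (Real.exp (((d:ℝ) + K) - (K:ℝ) / 2 * Real.log (2 * Real.pi)
    - ∑ b, mu (msz a b) - (∑ i, (cn Φ i - 1 / (msz a (a i) : ℝ))^2) / 5
    - 4 * Λ * Eps Φ a + Dfc Φ / 165000)) ≤ volume (Pol V)

/-! ### Clusters -/

def Stmt_CLU1 : Prop := ∀ (ι : Type) [Fintype ι] [DecidableEq ι] (K : ℕ)
  (Φ : Matrix ι (Fin K) ℝ) (m : ℝ), CHyp Φ m →
  ∀ i k, 97/100 ≤ m * pp Φ i k ∨ |m * pp Φ i k| ≤ 1/4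

def Stmt_CLU2 : Prop := ∀ (ι : Type) [Fintype ι] [DecidableEq ι] (K : ℕ)
  (Φ : Matrix ι (Fin K) ℝ) (m : ℝ), CHyp Φ m → ∃ (L : ℕ) (a : ι → Fin L), Clus Φ m a

def Stmt_CLU3 : Prop := ∀ (ι : Type) [Fintype ι] [DecidableEq ι] (K L : ℕ)
  (Φ : Matrix ι (Fin K) ℝ) (m : ℝ) (a : ι → Fin L), CHyp Φ m → Clus Φ m a →
  (∀ b, 97/100 * m ≤ msz a b ∧ (msz a b : ℝ) ≤ 108/100 * m) ∧
  (∑ i, ∑ j, if a i = a j then 0 else (pp Φ i j)^2) ≤ 7/5 * m * Dfc Φ ∧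
  Eps Φ a ≤ 11/10 * m * Dfc Φ

def Stmt_CLU4 : Prop := ∀ (ι : Type) [Fintype ι] [DecidableEq ι] (K L : ℕ)
  (Φ : Matrix ι (Fin K) ℝ) (m : ℝ) (a : ι → Fin L), CHyp Φ m → Clus Φ m a → L = K

def Stmt_CLU5 : Prop := ∀ (ι : Type) [Fintype ι] [DecidableEq ι] (K : ℕ)
  (Φ : Matrix ι (Fin K) ℝ) (a : ι → Fin K), Φᵀ * Φ = 1 → Function.Surjective a →
  ∑ b, (Cc Φ a b - 1) = 0 ∧ (∀ b, |Cc Φ a b - 1| ≤ Eps Φ a) ∧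
    ∑ b, |Cc Φ a b - 1| ≤ 2 * Eps Φ a

/-- sizes of the classes -/
def Stmt_SZ : Prop := ∀ (ι : Type) [Fintype ι] [DecidableEq ι] (K : ℕ)
  (Φ : Matrix ι (Fin K) ℝ) (m : ℝ) (a : ι → Fin K), CHyp Φ m → Clus Φ m a →
  ∑ i, (cn Φ i - 1/m)^2 ≤ 10 * K / m^3 → ∀ b, |(msz a b : ℝ) - m| ≤ 4 * Real.sqrt K

/-! ### Determinant of the frame operator -/

def Stmt_DETC : Prop := ∀ (d K : ℕ) (U : Matrix (Ix d K) (Fin d) ℝ)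
  (Φ : Matrix (Ix d K) (Fin K) ℝ) (a : Ix d K → Fin K), 1 ≤ K → UnitRows U → IsFrame U Φ →
  (∀ b, 2 ≤ msz a b) →
  ∑ b, ((msz a b : ℝ) - 1) * Real.log (1 - 1/(msz a b : ℝ))
    - ∑ b, Real.log (1 - 1/(msz a b : ℝ)) * (Cc Φ a b - 1)
    + (∑ i, (cn Φ i - 1 / (msz a (a i) : ℝ))^2) / 2
    ≤ ∑ i, (1 - cn Φ i) * Real.log (1 - cn Φ i)

/-- equality in `Stmt_DETS` -/
def Stmt_DETE : Prop := ∀ (d K : ℕ) (U : Matrix (Ix d K) (Fin d) ℝ), UnitRows U →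
  (Uᵀ * U).det ≠ 0 →
  -Real.log (Uᵀ * U).det ≤
    ∑ i, (U * (Uᵀ * U)⁻¹ * Uᵀ) i i * Real.log ((U * (Uᵀ * U)⁻¹ * Uᵀ) i i) →
  ∀ i j, (U * (Uᵀ * U)⁻¹ * Uᵀ) i j = (U * (Uᵀ * U)⁻¹ * Uᵀ) i i * (U * Uᵀ) i j

/-! ### Assembly -/

/-- consequences of near-minimality, `m = n/K` -/
def Stmt_FIN1 : Prop := ∀ (d K : ℕ) (U : Matrix (Ix d K) (Fin d) ℝ)
  (Φ : Matrix (Ix d K) (Fin K) ℝ), 1 ≤ K → 10^9 * K^2 ≤ d → UnitRows U → IsFrame U Φ →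
  volume (Pol U) ≤ ENNReal.ofReal (Vne d K) →
  ∃ V : Matrix (Ix d K) (Fin d) ℝ, IsoFrame V Φ ∧
    volume (Pol V) = ENNReal.ofReal (Real.sqrt (Uᵀ * U).det) * volume (Pol U) ∧
    volume (Pol V) ≠ ⊤ ∧ CutP V ∧ (∀ i, cn Φ i ≤ 1/10) ∧ Dfc Φ ≤ 100 ∧
    ∑ i, (cn Φ i - 1/(((d:ℝ) + K) / K))^2 ≤ 10 * K / (((d:ℝ) + K) / K)^3 ∧
    CHyp Φ (((d:ℝ) + K) / K)

/-- the pattern of the optimum, with the class sizes -/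
def PatG {d K : ℕ} (U : Matrix (Ix d K) (Fin d) ℝ) : Prop :=
  ∃ p : Ix d K → Fin K, (∀ b, msz p b = d / K + 1 ∨ msz p b = d / K + 2) ∧
    (∀ i j, i ≠ j → p i = p j → (U * Uᵀ) i j = -1 / ((msz p (p i) : ℝ) - 1)) ∧
    (∀ i j, p i ≠ p j → (U * Uᵀ) i j = 0)

/-- the exact local step -/
def Stmt_FIN2 : Prop := ∀ (d K : ℕ) (U : Matrix (Ix d K) (Fin d) ℝ)
  (Φ : Matrix (Ix d K) (Fin K) ℝ), 1 ≤ K → 10^9 * K^2 ≤ d → UnitRows U → IsFrame U Φ →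
  volume (Pol U) ≤ ENNReal.ofReal (Vne d K) →
  ∃ a : Ix d K → Fin K, Function.Surjective a ∧ (∀ b, 2 ≤ msz a b) ∧
    (∀ i j, a i = a j → pp Φ i j ≠ 0) ∧
    ENNReal.ofReal (Real.exp (∑ b, Real.log (Pool.Agent.Work.MP_1c7b0d_gt.sv (msz a b - 1))
      + (∑ i, (cn Φ i - 1 / (msz a (a i) : ℝ))^2) / 20 + Dfc Φ / 330000
      + (-Real.log (Uᵀ * U).det - ∑ i, (1 - cn Φ i) * Real.log (1 - cn Φ i)) / 2))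
      ≤ volume (Pol U)

/-- lower bound and equality -/
def Stmt_LOW73 : Prop := ∀ (d K : ℕ) (U : Matrix (Ix d K) (Fin d) ℝ), 1 ≤ K → 10^9 * K^2 ≤ d →
  UnitRows U → ENNReal.ofReal (Vne d K) ≤ volume (Pol U) ∧
  (volume (Pol U) = ENNReal.ofReal (Vne d K) → PatG U)

/-- volume of the product of near equal regular simplices -/
def Stmt_EXVG : Prop := ∀ (d K : ℕ) (U : Matrix (Ix d K) (Fin d) ℝ), 1 ≤ K → K ≤ d →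
  UnitRows U → PatG U → volume (Pol U) = ENNReal.ofReal (Vne d K)

/-- existence -/
def Stmt_EXIG : Prop := ∀ (d K : ℕ), 1 ≤ K → K ≤ d →
  ∃ U : Matrix (Ix d K) (Fin d) ℝ, UnitRows U ∧ PatG U

/-- uniqueness up to isometry -/
def Stmt_ISOG : Prop := ∀ (d K : ℕ) (u u' : Fin (d + K) → EuclideanSpace ℝ (Fin d)),
  1 ≤ K → K ≤ d → (∀ i, ‖u i‖ = 1) → (∀ i, ‖u' i‖ = 1) → PatG (matU u) → PatG (matU u') →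
  ∃ φ : EuclideanSpace ℝ (Fin d) ≃ₗᵢ[ℝ] EuclideanSpace ℝ (Fin d),
    φ '' Pool.Agent.Work.MP_1c7b0d_gt.circ u = Pool.Agent.Work.MP_1c7b0d_gt.circ u'

/-- the final theorem -/
def Stmt_TOP73 : Prop := ∀ (d K : ℕ), 1 ≤ K → 10^9 * K^2 ≤ d →
  (∀ u : Fin (d + K) → EuclideanSpace ℝ (Fin d), (∀ i, ‖u i‖ = 1) →
    ENNReal.ofReal (Vne d K) ≤ volume (Pool.Agent.Work.MP_1c7b0d_gt.circ u) ∧
    (volume (Pool.Agent.Work.MP_1c7b0d_gt.circ u) = ENNReal.ofReal (Vne d K) ↔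
      ∃ p : Fin (d + K) → Fin K,
        (∀ b, msz p b = d / K + 1 ∨ msz p b = d / K + 2) ∧
        (∀ i j, i ≠ j → p i = p j → inner ℝ (u i) (u j) = -1 / ((msz p (p i) : ℝ) - 1)) ∧
        (∀ i j, p i ≠ p j → inner ℝ (u i) (u j) = 0))) ∧
  (∃ u : Fin (d + K) → EuclideanSpace ℝ (Fin d), (∀ i, ‖u i‖ = 1) ∧
      volume (Pool.Agent.Work.MP_1c7b0d_gt.circ u) = ENNReal.ofReal (Vne d K)) ∧
  (∀ u u' : Fin (d + K) → EuclideanSpace ℝ (Fin d), (∀ i, ‖u i‖ = 1) → (∀ i, ‖u' i‖ = 1) →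
    volume (Pool.Agent.Work.MP_1c7b0d_gt.circ u) = ENNReal.ofReal (Vne d K) →
    volume (Pool.Agent.Work.MP_1c7b0d_gt.circ u') = ENNReal.ofReal (Vne d K) →
    ∃ φ : EuclideanSpace ℝ (Fin d) ≃ₗᵢ[ℝ] EuclideanSpace ℝ (Fin d),
      φ '' Pool.Agent.Work.MP_1c7b0d_gt.circ u = Pool.Agent.Work.MP_1c7b0d_gt.circ u')

end Pool.LH73
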