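import Pool.Agent.Work.MP_1c7b0d_lh73.Interface

/-!
# MP_1c7b0d_gt, block RCL (helper26): `∑ α_{a(i)} y_i r_i` against `∑_b α_b`
-/

open MeasureTheory Matrix Pool.LH60
open scoped BigOperators

namespace Pool.LH73

namespace RCL

section core
variable {ι : Type} [Fintype ι] [DecidableEq ι] {K : ℕ} {β : ι → Fin K → ℝ} {e : Fin K → ℝ}
  {y : ι → ℝ}

omit [Fintype ι] [DecidableEq ι] in
/-- variance decomposition -/
theorem wexp (s : Finset ι) (y t : ι → ℝ) (w c : ℝ)
    (hw : ∑ j ∈ s, y j * t j = w * ∑ j ∈ s, y j) :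
    ∑ i ∈ s, y i * (t i - c)^2 = ∑ i ∈ s, y i * (t i - w)^2 + (∑ j ∈ s, y j) * (w - c)^2 := by
  have h1 : ∀ i ∈ s, y i * (t i - c)^2 = y i * (t i - w)^2 + 2 * (w - c) * (y i * t i)
      + (- 2 * (w - c) * w + (w - c)^2) * y i := by
    intro i _
    ring
  rw [Finset.sum_congr rfl h1, Finset.sum_add_distrib, Finset.sum_add_distrib, ← Finset.mul_sum,
    ← Finset.mul_sum, hw]
  ring

omit [Fintype ι] [DecidableEq ι] in
/-- the weighted mean -/
theorem wmean_mul (s : Finset ι) {y : ι → ℝ} (t : ι → ℝ) (hy : ∀ i, 0 < y i) :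
    ∑ j ∈ s, y j * t j = ((∑ j ∈ s, y j * t j) / ∑ j ∈ s, y j) * ∑ j ∈ s, y j := by
  rcases s.eq_empty_or_nonempty with hs | hs
  · rw [hs]
    simp
  · have h1 : 0 < ∑ j ∈ s, y j := Finset.sum_pos (fun i _ => hy i) hs
    rw [div_mul_cancel₀ _ h1.ne']

omit [DecidableEq ι] in
/-- the quadratic form of the weighted mean is at most one -/
theorem ST (hy : ∀ i, 0 < y i) (he : ∀ k, 0 < e k)
    (ho : ∀ k l, ∑ i, y i * β i k * β i l = if k = l then e k else 0) (s : Finset ι)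
    (w : Fin K → ℝ) (hw : ∀ k, ∑ j ∈ s, y j * β j k = w k * ∑ j ∈ s, y j) :
    (∑ j ∈ s, y j) * ∑ k, w k ^ 2 / e k ≤ 1 := by
  set S := ∑ j ∈ s, y j with hS
  set T := ∑ k, w k ^ 2 / e k with hT
  have hS0 : 0 ≤ S := Finset.sum_nonneg fun i _ => (hy i).le
  have hT0 : 0 ≤ T := Finset.sum_nonneg fun k _ => div_nonneg (sq_nonneg _) (he k).le
  have h1 : ∑ i, y i * (∑ k, β i k * (w k / e k)) ^ 2 = T := by
    have h : ∀ i, y i * (∑ k, β i k * (w k / e k)) ^ 2
        = ∑ k, ∑ l, ((w k / e k) * (w l / e l)) * (y i * β i k * β i l) := by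
      intro i
      rw [sq, Finset.sum_mul_sum, Finset.mul_sum]
      refine Finset.sum_congr rfl fun k _ => ?_
      rw [Finset.mul_sum]
      refine Finset.sum_congr rfl fun l _ => ?_
      ring
    rw [Finset.sum_congr rfl fun i _ => h i, Finset.sum_comm, hT]
    refine Finset.sum_congr rfl fun k _ => ?_
    rw [Finset.sum_comm]
    have h2 : ∀ l ∈ Finset.univ, ∑ i, ((w k / e k) * (w l / e l)) * (y i * β i k * β i l)
        = ((w k / e k) * (w l / e l)) * (if k = l then e k else 0) := by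
      intro l _
      rw [← Finset.mul_sum, ho]
    rw [Finset.sum_congr rfl h2]
    simp only [mul_ite, mul_zero, Finset.sum_ite_eq, Finset.mem_univ, if_true]
    have := (he k).ne'
    field_simp
  have h2 : ∑ i ∈ s, y i * ∑ k, β i k * (w k / e k) = S * T := by
    have h : ∀ i ∈ s, y i * ∑ k, β i k * (w k / e k) = ∑ k, (w k / e k) * (y i * β i k) := by
      intro i _
      rw [Finset.mul_sum]
      refine Finset.sum_congr rfl fun k _ => ?_
      ring
    rw [Finset.sum_congr rfl h, Finset.sum_comm, hT, Finset.mul_sum]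
    refine Finset.sum_congr rfl fun k _ => ?_
    rw [← Finset.mul_sum, hw]
    ring
  have h3 : (∑ i ∈ s, y i * ∑ k, β i k * (w k / e k)) ^ 2
      ≤ S * ∑ i ∈ s, y i * (∑ k, β i k * (w k / e k)) ^ 2 := by
    refine Finset.sum_sq_le_sum_mul_sum_of_sq_le_mul s (fun i _ => (hy i).le)
      (fun i _ => mul_nonneg (hy i).le (sq_nonneg _)) (fun i _ => le_of_eq ?_)
    ring
  have h4 : ∑ i ∈ s, y i * (∑ k, β i k * (w k / e k)) ^ 2 ≤ T := by
    rw [← h1]
    exact Finset.sum_le_sum_of_subset_of_nonneg (Finset.subset_univ s)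
      (fun i _ _ => mul_nonneg (hy i).le (sq_nonneg _))
  rw [h2] at h3
  have h5 : (S * T) ^ 2 ≤ S * T := h3.trans (mul_le_mul_of_nonneg_left h4 hS0)
  by_contra h
  push Not at h
  nlinarith

omit [DecidableEq ι] in
/-- one class -/
theorem Rb (hy : ∀ i, 0 < y i) (he : ∀ k, 0 < e k)
    (ho : ∀ k l, ∑ i, y i * β i k * β i l = if k = l then e k else 0) (s : Finset ι)
    (w : Fin K → ℝ) (hw : ∀ k, ∑ j ∈ s, y j * β j k = w k * ∑ j ∈ s, y j) :
    ∑ i ∈ s, y i * ∑ k, β i k ^ 2 / e k - 1 ≤ ∑ i ∈ s, y i * ∑ k, (β i k - w k) ^ 2 / e k := by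
  have h1 : ∀ t : Fin K → ℝ, ∑ i ∈ s, y i * ∑ k, (β i k - t k) ^ 2 / e k
      = ∑ k, (∑ i ∈ s, y i * (β i k - t k) ^ 2) / e k := by
    intro t
    simp_rw [Finset.mul_sum, Finset.sum_div]
    rw [Finset.sum_comm]
    refine Finset.sum_congr rfl fun k _ => Finset.sum_congr rfl fun i _ => ?_
    ring
  have h2 := h1 (fun _ => 0)
  simp only [sub_zero] at h2
  rw [h2, h1 w]
  have h3 : ∀ k, (∑ i ∈ s, y i * β i k ^ 2) / e k
      = (∑ i ∈ s, y i * (β i k - w k) ^ 2) / e k + (∑ j ∈ s, y j) * (w k ^ 2 / e k) := by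
    intro k
    have h := wexp s y (fun i => β i k) (w k) 0 (hw k)
    simp only [sub_zero] at h
    rw [h]
    ring
  rw [Finset.sum_congr rfl fun k _ => h3 k, Finset.sum_add_distrib, ← Finset.mul_sum]
  have := ST hy he ho s w hw
  linarith

omit [DecidableEq ι] in
/-- the abstract form -/
theorem core (hy : ∀ i, 0 < y i) (he : ∀ k, 0 < e k)
    (ho : ∀ k l, ∑ i, y i * β i k * β i l = if k = l then e k else 0)
    (a : ι → Fin K) (u : Fin K → Fin K → ℝ) (α : Fin K → ℝ) (α0 Λ : ℝ)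
    (hα : ∀ b, |α b - α0| ≤ Λ) (hΛ : 0 ≤ Λ) :
    ∑ i, α (a i) * (y i * ∑ k, β i k ^ 2 / e k) ≤
      ∑ b, α b + 4 * Λ * ∑ i, y i * ∑ k, (β i k - u (a i) k)^2 + 128 * Λ * ∑ k, lam (e k) := by
  set w : Fin K → Fin K → ℝ := fun b k => (∑ j ∈ fib a b, y j * β j k) / ∑ j ∈ fib a b, y j
    with hw
  set R : Fin K → ℝ := fun b => ∑ i ∈ fib a b, y i * ∑ k, β i k ^ 2 / e k with hR
  set ρ : Fin K → ℝ := fun b => ∑ i ∈ fib a b, y i * ∑ k, (β i k - w b k) ^ 2 / e k with hρ
  have hfib : ∀ f : ι → ℝ, ∑ b, ∑ i ∈ fib a b, f i = ∑ i, f i := by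
    intro f
    exact Finset.sum_fiberwise _ _ _
  have hmem : ∀ b i, i ∈ fib a b → a i = b := fun b i hi => (Finset.mem_filter.1 hi).2
  -- the left side
  have h1 : ∑ i, α (a i) * (y i * ∑ k, β i k ^ 2 / e k) = ∑ b, α b * R b := by
    rw [← hfib]
    refine Finset.sum_congr rfl fun b _ => ?_
    rw [hR, Finset.mul_sum]
    refine Finset.sum_congr rfl fun i hi => ?_
    rw [hmem b i hi]
  -- the total
  have h2 : ∑ b, R b = K := by
    have h : ∑ b, R b = ∑ i, y i * ∑ k, β i k ^ 2 / e k := hfib _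
    rw [h]
    have h3 : ∀ i, y i * ∑ k, β i k ^ 2 / e k = ∑ k, (y i * β i k * β i k) / e k := by
      intro i
      rw [Finset.mul_sum]
      refine Finset.sum_congr rfl fun k _ => ?_
      ring
    rw [Finset.sum_congr rfl fun i _ => h3 i, Finset.sum_comm]
    have h4 : ∀ k ∈ Finset.univ, ∑ i, (y i * β i k * β i k) / e k = 1 := by
      intro k _
      rw [← Finset.sum_div, ho, if_pos rfl, div_self (he k).ne']
    rw [Finset.sum_congr rfl h4]
    simp
  have hρ0 : ∀ b, 0 ≤ ρ b := fun b => Finset.sum_nonneg fun i _ =>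
    mul_nonneg (hy i).le (Finset.sum_nonneg fun k _ => div_nonneg (sq_nonneg _) (he k).le)
  have h3 : ∀ b, R b - 1 ≤ ρ b := fun b =>
    Rb hy he ho (fib a b) (w b) (fun k => wmean_mul _ _ hy)
  -- absolute values
  have h4 : ∑ b, |R b - 1| ≤ 2 * ∑ b, ρ b := by
    have h5 : ∀ b, |R b - 1| ≤ 2 * ρ b - (R b - 1) := by
      intro b
      have := h3 b
      have := hρ0 b
      rw [abs_le]
      constructor <;> linarith
    have h6 : ∑ b, (R b - 1) = 0 := by
      rw [Finset.sum_sub_distrib, h2]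
      simp
    calc ∑ b, |R b - 1| ≤ ∑ b, (2 * ρ b - (R b - 1)) := Finset.sum_le_sum fun b _ => h5 b
      _ = 2 * ∑ b, ρ b := by
        rw [Finset.sum_sub_distrib, h6, ← Finset.mul_sum, sub_zero]
  have h5 : ∑ b, α b * R b - ∑ b, α b ≤ Λ * ∑ b, |R b - 1| := by
    have h6 : ∑ b, (R b - 1) = 0 := by
      rw [Finset.sum_sub_distrib, h2]
      simp
    have h7 : ∑ b, α b * R b - ∑ b, α b = ∑ b, (α b - α0) * (R b - 1) := by
      have : ∀ b, (α b - α0) * (R b - 1) = α b * R b - α b - α0 * (R b - 1) := by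
        intro b
        ring
      rw [Finset.sum_congr rfl fun b _ => this b, Finset.sum_sub_distrib, Finset.sum_sub_distrib,
        ← Finset.mul_sum, h6, mul_zero, sub_zero]
    rw [h7, Finset.mul_sum]
    refine Finset.sum_le_sum fun b _ => ?_
    calc (α b - α0) * (R b - 1) ≤ |(α b - α0) * (R b - 1)| := le_abs_self _
      _ = |α b - α0| * |R b - 1| := abs_mul _ _
      _ ≤ Λ * |R b - 1| := mul_le_mul_of_nonneg_right (hα b) (abs_nonneg _)
  -- the scatter
  have h6 : ∑ b, ρ b = ∑ k, (∑ i, y i * (β i k - w (a i) k) ^ 2) / e k := by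
    have h : ∑ b, ρ b = ∑ i, y i * ∑ k, (β i k - w (a i) k) ^ 2 / e k := by
      rw [← hfib]
      refine Finset.sum_congr rfl fun b _ => Finset.sum_congr rfl fun i hi => ?_
      rw [hmem b i hi]
    rw [h]
    simp_rw [Finset.mul_sum, Finset.sum_div]
    rw [Finset.sum_comm]
    refine Finset.sum_congr rfl fun k _ => Finset.sum_congr rfl fun i _ => ?_
    ring
  have h7 : ∀ k, ∀ t : Fin K → ℝ, ∑ i, y i * (β i k - w (a i) k) ^ 2
      ≤ ∑ i, y i * (β i k - t (a i)) ^ 2 := by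
    intro k t
    rw [← hfib, ← hfib (fun i => y i * (β i k - t (a i)) ^ 2)]
    refine Finset.sum_le_sum fun b _ => ?_
    have h8 := wexp (fib a b) y (fun i => β i k) (w b k) (t b) (wmean_mul _ _ hy)
    have h9 : ∑ i ∈ fib a b, y i * (β i k - w (a i) k) ^ 2
        = ∑ i ∈ fib a b, y i * (β i k - w b k) ^ 2 :=
      Finset.sum_congr rfl fun i hi => by rw [hmem b i hi]
    have h10 : ∑ i ∈ fib a b, y i * (β i k - t (a i)) ^ 2
        = ∑ i ∈ fib a b, y i * (β i k - t b) ^ 2 :=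
      Finset.sum_congr rfl fun i hi => by rw [hmem b i hi]
    rw [h9, h10, h8]
    have : 0 ≤ (∑ j ∈ fib a b, y j) * (w b k - t b) ^ 2 :=
      mul_nonneg (Finset.sum_nonneg fun i _ => (hy i).le) (sq_nonneg _)
    linarith
  have h8 : ∀ k, (∑ i, y i * (β i k - w (a i) k) ^ 2) / e k
      ≤ 2 * ∑ i, y i * (β i k - u (a i) k) ^ 2 + 64 * lam (e k) := by
    intro k
    have hlam : 0 ≤ lam (e k) := by
      unfold lam
      have : 0 ≤ min ((e k - 1)^2) 1 := le_min (sq_nonneg _) zero_le_one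
      positivity
    have hu0 : 0 ≤ ∑ i, y i * (β i k - u (a i) k) ^ 2 :=
      Finset.sum_nonneg fun i _ => mul_nonneg (hy i).le (sq_nonneg _)
    rcases le_or_gt (1/2) (e k) with hk | hk
    · have h9 := h7 k (fun b => u b k)
      have h10 : (∑ i, y i * (β i k - w (a i) k) ^ 2) / e k
          ≤ 2 * ∑ i, y i * (β i k - w (a i) k) ^ 2 := by
        rw [div_le_iff₀ (he k)]
        have : 0 ≤ ∑ i, y i * (β i k - w (a i) k) ^ 2 :=
          Finset.sum_nonneg fun i _ => mul_nonneg (hy i).le (sq_nonneg _)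
        nlinarith
      linarith
    · have h9 := h7 k (fun _ => 0)
      have h10 : ∑ i, y i * (β i k - 0) ^ 2 = e k := by
        have := ho k k
        rw [if_pos rfl] at this
        rw [← this]
        refine Finset.sum_congr rfl fun i _ => ?_
        ring
      rw [h10] at h9
      have h11 : (∑ i, y i * (β i k - w (a i) k) ^ 2) / e k ≤ 1 := by
        rw [div_le_one (he k)]
        exact h9
      have h12 : 1 / 64 ≤ lam (e k) := by
        unfold lam
        have h13 : (1:ℝ)/4 ≤ min ((e k - 1)^2) 1 := by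
          refine le_min ?_ (by norm_num)
          nlinarith [he k]
        linarith
      linarith
  have h9 : ∑ b, ρ b ≤ 2 * ∑ i, y i * ∑ k, (β i k - u (a i) k) ^ 2 + 64 * ∑ k, lam (e k) := by
    rw [h6]
    refine (Finset.sum_le_sum fun k _ => h8 k).trans (le_of_eq ?_)
    rw [Finset.sum_add_distrib, ← Finset.mul_sum, ← Finset.mul_sum]
    congr 2
    simp_rw [Finset.mul_sum]
    rw [Finset.sum_comm]
  rw [h1]
  have h10 : Λ * ∑ b, |R b - 1| ≤ Λ * (2 * (2 * ∑ i, y i * ∑ k, (β i k - u (a i) k) ^ 2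
      + 64 * ∑ k, lam (e k))) := by
    refine mul_le_mul_of_nonneg_left (h4.trans ?_) hΛ
    linarith
  nlinarith [h5, h10]

end core

end RCL

open RCL in
theorem RCL_thm : Stmt_RCL := by
  intro ι _ _ K Φ y e Q a v α α0 Λ hy hE hα hΛ
  have hQ : Qᵀ * Q = 1 := hE.orth
  have hQ' : Q * Qᵀ = 1 := mul_eq_one_comm.1 hQ
  have he := hE.pos
  have hD := hE.eq
  set β : ι → Fin K → ℝ := fun i k => (Φ * Q) i k with hβ
  set u : Fin K → Fin K → ℝ := fun b k => ∑ l, v b l * Q l k with hu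
  have hinv : (Dm Φ y)⁻¹ = Q * Matrix.diagonal (fun k => (e k)⁻¹) * Qᵀ := by
    apply Matrix.inv_eq_right_inv
    rw [hD]
    have h1 : Q * Matrix.diagonal e * Qᵀ * (Q * Matrix.diagonal (fun k => (e k)⁻¹) * Qᵀ)
        = Q * (Matrix.diagonal e * (Qᵀ * Q) * Matrix.diagonal (fun k => (e k)⁻¹)) * Qᵀ := by
      simp only [Matrix.mul_assoc]
    rw [h1, hQ, Matrix.mul_one, Matrix.diagonal_mul_diagonal]
    have h2 : (fun i => e i * (e i)⁻¹) = fun _ => (1:ℝ) := by
      funext i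
      exact mul_inv_cancel₀ (he i).ne'
    rw [h2, Matrix.diagonal_one, Matrix.mul_one, hQ']
  have hqf : ∀ i, qf Φ (Dm Φ y)⁻¹ i = ∑ k, β i k ^ 2 / e k := by
    intro i
    unfold qf
    rw [hinv]
    have h1 : Φ * (Q * Matrix.diagonal (fun k => (e k)⁻¹) * Qᵀ) * Φᵀ
        = (Φ * Q) * Matrix.diagonal (fun k => (e k)⁻¹) * (Φ * Q)ᵀ := by
      rw [Matrix.transpose_mul]
      simp only [Matrix.mul_assoc]
    rw [h1, Matrix.mul_apply]
    refine Finset.sum_congr rfl fun k _ => ?_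
    rw [Matrix.mul_diagonal, Matrix.transpose_apply]
    simp only [hβ]
    ring
  have ho : ∀ k l, ∑ i, y i * β i k * β i l = if k = l then e k else 0 := by
    intro k l
    have h1 : (Φ * Q)ᵀ * Matrix.diagonal y * (Φ * Q) = Matrix.diagonal e := by
      have h2 : (Φ * Q)ᵀ * Matrix.diagonal y * (Φ * Q) = Qᵀ * (Dm Φ y) * Q := by
        unfold Dm
        rw [Matrix.transpose_mul]
        simp only [Matrix.mul_assoc]
      rw [h2, hD]
      have h3 : Qᵀ * (Q * Matrix.diagonal e * Qᵀ) * Q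
          = (Qᵀ * Q) * Matrix.diagonal e * (Qᵀ * Q) := by
        simp only [Matrix.mul_assoc]
      rw [h3, hQ, Matrix.one_mul, Matrix.mul_one]
    have h2 := congrFun (congrFun h1 k) l
    rw [Matrix.mul_apply, Matrix.diagonal_apply] at h2
    rw [← h2]
    refine Finset.sum_congr rfl fun i _ => ?_
    rw [Matrix.mul_diagonal, Matrix.transpose_apply]
    simp only [hβ]
    ring
  have hsc : ∀ i, ∑ k, (β i k - u (a i) k) ^ 2 = ∑ k, (Φ i k - v (a i) k) ^ 2 := by
    intro i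
    set z : Fin K → ℝ := fun l => Φ i l - v (a i) l with hz
    have h1 : ∀ k, β i k - u (a i) k = (z ᵥ* Q) k := by
      intro k
      simp only [hβ, hu, hz, Matrix.mul_apply, Matrix.vecMul, dotProduct]
      rw [← Finset.sum_sub_distrib]
      refine Finset.sum_congr rfl fun l _ => ?_
      ring
    have h2 : (z ᵥ* Q) ⬝ᵥ (z ᵥ* Q) = z ⬝ᵥ z := by
      rw [← Matrix.dotProduct_mulVec, ← Matrix.mulVec_transpose, Matrix.mulVec_mulVec, hQ',
        Matrix.one_mulVec]
    have h3 : ∑ k, (β i k - u (a i) k) ^ 2 = (z ᵥ* Q) ⬝ᵥ (z ᵥ* Q) := by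
      unfold dotProduct
      refine Finset.sum_congr rfl fun k _ => ?_
      rw [h1 k, sq]
    have h4 : ∑ k, (Φ i k - v (a i) k) ^ 2 = z ⬝ᵥ z := by
      unfold dotProduct
      refine Finset.sum_congr rfl fun k _ => ?_
      rw [sq]
    rw [h3, h2, h4]
  have h := core hy he ho a u α α0 Λ hα hΛ
  have h1 : ∑ i, α (a i) * (y i * qf Φ (Dm Φ y)⁻¹ i)
      = ∑ i, α (a i) * (y i * ∑ k, β i k ^ 2 / e k) :=
    Finset.sum_congr rfl fun i _ => by rw [hqf i]
  have h2 : ∑ i, y i * ∑ k, (β i k - u (a i) k)^2 = ∑ i, y i * ∑ k, (Φ i k - v (a i) k)^2 :=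
    Finset.sum_congr rfl fun i _ => by rw [hsc i]
  rw [h1, ← h2]
  exact h

end Pool.LH73
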